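import Mathlib
import Pool.Agent.W238.Leh.Hilb
import Pool.Agent.W238.Leh.Forms

/-!
A uniform Nullstellensatz for `N + 1` forms of degree `d` in `N + 1` variables, by minors.
-/

set_option autoImplicit false
set_option linter.unusedSectionVars false

namespace Pool.Agent.H627.UB

open MvPolynomial Module
open Pool.Agent.W238.Leh

noncomputable section

/-- the exponents of degree `m` -/
abbrev Ex (N m : ℕ) : Type :=
  {s : Fin (N + 1) →₀ ℕ // s ∈ (Finset.univ : Finset (Fin (N + 1))).finsuppAntidiag m}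

lemma mem_Ex {N m : ℕ} {s : Fin (N + 1) →₀ ℕ} :
    s ∈ (Finset.univ : Finset (Fin (N + 1))).finsuppAntidiag m ↔ s.degree = m := by
  rw [Finset.mem_finsuppAntidiag, Finsupp.degree_eq_sum]
  exact ⟨fun h => h.1, fun h => ⟨h, Finset.subset_univ _⟩⟩

variable {N : ℕ}

lemma deg_of_coeff {R : Type*} [CommSemiring R] {p : MvPolynomial (Fin (N + 1)) R} {m : ℕ}
    (hp : p.IsHomogeneous m) {s : Fin (N + 1) →₀ ℕ} (h : p.coeff s ≠ 0) : s.degree = m := by
  have := hp h
  rw [← this, Finsupp.degree_eq_weight_one]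
  rfl

section gen

variable {R : Type*} [CommRing R]

/-- a form is the sum of its monomials -/
lemma expand {p : MvPolynomial (Fin (N + 1)) R} {m : ℕ} (hp : p.IsHomogeneous m) :
    p = ∑ α : Ex N m, monomial α.1 (p.coeff α.1) := by
  ext s
  rw [coeff_sum]
  simp only [coeff_monomial]
  by_cases hs : p.coeff s = 0
  · rw [hs]
    symm
    refine Finset.sum_eq_zero fun α _ => ?_
    split_ifs with h
    · rw [h, hs]
    · rfl
  · have h1 : s ∈ (Finset.univ : Finset (Fin (N + 1))).finsuppAntidiag m :=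
      mem_Ex.mpr (deg_of_coeff hp hs)
    rw [Finset.sum_eq_single (⟨s, h1⟩ : Ex N m)]
    · simp
    · intro β _ hβ
      rw [if_neg]
      intro h2
      exact hβ (Subtype.ext h2)
    · intro h2
      exact absurd (Finset.mem_univ _) h2

/-- the matrix of the forms `X ^ β * F i` of degree `m` -/
def Mx (F : Fin (N + 1) → MvPolynomial (Fin (N + 1)) R) (m c : ℕ) :
    Matrix (Ex N m) (Ex N c × Fin (N + 1)) R :=
  Matrix.of fun α b => coeff α.1 (monomial b.1.1 1 * F b.2)

lemma hom_col {F : Fin (N + 1) → MvPolynomial (Fin (N + 1)) R} {d c m : ℕ}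
    (hF : ∀ i, (F i).IsHomogeneous d) (hm : m = c + d) (b : Ex N c × Fin (N + 1)) :
    (monomial b.1.1 (1 : R) * F b.2).IsHomogeneous m := by
  rw [hm]
  exact (isHomogeneous_monomial _ (mem_Ex.mp b.1.2)).mul (hF b.2)

/-- Cramer's rule -/
lemma cramer {F : Fin (N + 1) → MvPolynomial (Fin (N + 1)) R} {d c m : ℕ}
    (hF : ∀ i, (F i).IsHomogeneous d) (hm : m = c + d) (e : Ex N m → Ex N c × Fin (N + 1))
    (α : Ex N m) :
    C ((Mx F m c).submatrix id e).det * monomial α.1 (1 : R) =
      ∑ k : Ex N m, C (((Mx F m c).submatrix id e).adjugate k α) *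
        (monomial (e k).1.1 1 * F (e k).2) := by
  set A := (Mx F m c).submatrix id e with hA
  have h1 : ∀ k, monomial (e k).1.1 (1 : R) * F (e k).2 =
      ∑ β : Ex N m, C (A β k) * monomial β.1 1 := by
    intro k
    conv_lhs => rw [expand (hom_col hF hm (e k))]
    refine Finset.sum_congr rfl fun β _ => ?_
    rw [C_mul_monomial, mul_one]
    rfl
  have h2 : ∀ β : Ex N m, ∑ k, A β k * A.adjugate k α = if β = α then A.det else 0 := by
    intro β
    have h3 := congrFun (congrFun (Matrix.mul_adjugate A) β) α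
    rw [Matrix.mul_apply] at h3
    rw [h3, Matrix.smul_apply, Matrix.one_apply]
    split_ifs <;> simp
  calc C A.det * monomial α.1 (1 : R) =
      ∑ β : Ex N m, C (∑ k, A β k * A.adjugate k α) * monomial β.1 1 := by
        rw [Finset.sum_eq_single α]
        · rw [h2, if_pos rfl]
        · intro β _ hβ
          rw [h2, if_neg hβ, C_0, zero_mul]
        · intro h
          exact absurd (Finset.mem_univ _) h
    _ = ∑ β : Ex N m, ∑ k, C (A.adjugate k α) * (C (A β k) * monomial β.1 1) := by
        refine Finset.sum_congr rfl fun β _ => ?_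
        rw [map_sum, Finset.sum_mul]
        refine Finset.sum_congr rfl fun k _ => ?_
        rw [C_mul]
        ring
    _ = ∑ k, C (A.adjugate k α) * ∑ β : Ex N m, C (A β k) * monomial β.1 1 := by
        rw [Finset.sum_comm]
        refine Finset.sum_congr rfl fun k _ => ?_
        rw [Finset.mul_sum]
    _ = _ := by
        refine Finset.sum_congr rfl fun k _ => ?_
        rw [h1]

end gen

section fld

variable {k : Type*} [Field k]

/-- all forms of degree `m` are in the ideal -/
def Full (F : Fin (N + 1) → MvPolynomial (Fin (N + 1)) k) (m : ℕ) : Prop :=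
  ∀ p : MvPolynomial (Fin (N + 1)) k, p.IsHomogeneous m → p ∈ Ideal.span (Set.range F)

lemma full_of_monomials {F : Fin (N + 1) → MvPolynomial (Fin (N + 1)) k} {m : ℕ}
    (h : ∀ α : Ex N m, monomial α.1 (1 : k) ∈ Ideal.span (Set.range F)) : Full F m := by
  intro p hp
  rw [expand hp]
  refine Ideal.sum_mem _ fun α _ => ?_
  have h1 : monomial α.1 (p.coeff α.1) = C (p.coeff α.1) * monomial α.1 (1 : k) := by
    rw [C_mul_monomial, mul_one]
  rw [h1]
  exact Ideal.mul_mem_left _ _ (h α)

lemma Full.succ {F : Fin (N + 1) → MvPolynomial (Fin (N + 1)) k} {m : ℕ} (h : Full F m) :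
    Full F (m + 1) := by
  refine full_of_monomials fun α => ?_
  have hα := mem_Ex.mp α.2
  obtain ⟨j, hj⟩ : ∃ j, 1 ≤ α.1 j := by
    by_contra hcon
    push Not at hcon
    have h1 : α.1.degree = 0 := by
      rw [Finsupp.degree_eq_sum]
      exact Finset.sum_eq_zero fun i _ => by
        have := hcon i
        omega
    omega
  have h2 : α.1 = Finsupp.single j 1 + (α.1 - Finsupp.single j 1) := by
    rw [add_tsub_cancel_of_le]
    rw [Finsupp.single_le_iff]
    exact hj
  have h3 : (α.1 - Finsupp.single j 1).degree = m := by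
    have h4 := congrArg Finsupp.degree h2
    rw [map_add, hα, Finsupp.degree_single] at h4
    omega
  rw [h2, show (monomial (Finsupp.single j 1 + (α.1 - Finsupp.single j 1)) (1 : k)) =
    monomial (Finsupp.single j 1) 1 * monomial (α.1 - Finsupp.single j 1) 1 by
      rw [monomial_mul, one_mul]]
  exact Ideal.mul_mem_left _ _ (h _ (isHomogeneous_monomial _ h3))

lemma Full.mono {F : Fin (N + 1) → MvPolynomial (Fin (N + 1)) k} {m m' : ℕ} (h : Full F m)
    (hm : m ≤ m') : Full F m' := by
  induction m', hm using Nat.le_induction with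
  | base => exact h
  | succ n _ ih => exact ih.succ

lemma full_of_det {F : Fin (N + 1) → MvPolynomial (Fin (N + 1)) k} {d c m : ℕ}
    (hF : ∀ i, (F i).IsHomogeneous d) (hm : m = c + d) (e : Ex N m → Ex N c × Fin (N + 1))
    (hdet : ((Mx F m c).submatrix id e).det ≠ 0) : Full F m := by
  refine full_of_monomials fun α => ?_
  have h1 := cramer hF hm e α
  have h2 : monomial α.1 (1 : k) = C (((Mx F m c).submatrix id e).det)⁻¹ *
      (C ((Mx F m c).submatrix id e).det * monomial α.1 (1 : k)) := by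
    rw [← mul_assoc, ← C_mul, inv_mul_cancel₀ hdet, C_1, one_mul]
  rw [h2, h1]
  refine Ideal.mul_mem_left _ _ (Ideal.sum_mem _ fun k _ => ?_)
  exact Ideal.mul_mem_left _ _ (Ideal.mul_mem_left _ _ (Ideal.subset_span ⟨_, rfl⟩))

/-- a nonzero maximal minor -/
lemma exists_det {F : Fin (N + 1) → MvPolynomial (Fin (N + 1)) k} {d c m : ℕ}
    (hF : ∀ i, (F i).IsHomogeneous d) (hm : m = c + d) (h : Full F m) :
    ∃ e : Ex N m → Ex N c × Fin (N + 1), ((Mx F m c).submatrix id e).det ≠ 0 := by
  classical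
  set col : Ex N c × Fin (N + 1) → (Ex N m → k) := fun b α => Mx F m c α b with hcol
  have hspan : Submodule.span k (Set.range col) = ⊤ := by
    rw [eq_top_iff, ← (Pi.basisFun k (Ex N m)).span_eq, Submodule.span_le]
    rintro _ ⟨α, rfl⟩
    obtain ⟨q, hq, hqs⟩ := exists_bez hF (m := m) (by omega)
      (isHomogeneous_monomial (1 : k) (mem_Ex.mp α.2)) (h _ (isHomogeneous_monomial _ (mem_Ex.mp α.2)))
    have hmc : m - d = c := by omega
    rw [hmc] at hq
    have h1 : (Pi.basisFun k (Ex N m)) α =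
        ∑ i, ∑ β : Ex N c, (q i).coeff β.1 • col (β, i) := by
      funext γ
      rw [Pi.basisFun_apply]
      have h2 := congrArg (coeff γ.1) hqs
      rw [coeff_monomial, coeff_sum] at h2
      have h3 : (Pi.single α (1 : k) : Ex N m → k) γ = if α.1 = γ.1 then 1 else 0 := by
        rw [Pi.single_apply]
        by_cases h4 : γ = α
        · rw [if_pos h4, if_pos (by rw [h4])]
        · rw [if_neg h4, if_neg (fun h5 => h4 (Subtype.ext h5.symm))]
      rw [h3, h2, Finset.sum_apply]
      refine Finset.sum_congr rfl fun i _ => ?_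
      conv_lhs => rw [expand (hq i)]
      rw [Finset.sum_mul, coeff_sum, Finset.sum_apply]
      refine Finset.sum_congr rfl fun β _ => ?_
      rw [Pi.smul_apply, smul_eq_mul]
      have h5 : monomial β.1 ((q i).coeff β.1) = C ((q i).coeff β.1) * monomial β.1 (1 : k) := by
        rw [C_mul_monomial, mul_one]
      rw [h5, mul_assoc, coeff_C_mul]
      rfl
    rw [SetLike.mem_coe, h1]
    exact Submodule.sum_mem _ fun i _ => Submodule.sum_mem _ fun β _ =>
      Submodule.smul_mem _ _ (Submodule.subset_span ⟨_, rfl⟩)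
  have hr : Fintype.card (Ex N m) ≤ finrank k (Submodule.span k (Set.range col)) := by
    rw [hspan, finrank_top, finrank_fintype_fun_eq_card]
  obtain ⟨φ, hφ, hli⟩ := exists_indep (Set.range col) hr
  choose b hb using hφ
  set eqv := Fintype.equivFin (Ex N m) with heqv
  refine ⟨fun α => b (eqv α), ?_⟩
  have h1 : LinearIndependent k
      ((Mx F m c).submatrix id fun α => b (eqv α)).col := by
    have h2 : ((Mx F m c).submatrix id fun α => b (eqv α)).col = fun α => φ (eqv α) := by
      funext α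
      rw [← hb]
      rfl
    rw [h2]
    exact hli.comp eqv eqv.injective
  rw [Matrix.linearIndependent_cols_iff_isUnit, Matrix.isUnit_iff_isUnit_det] at h1
  exact h1.ne_zero

end fld

section univ

variable {k : Type} [Field k] {d : ℕ}

/-- the forms with given coefficients -/
def Fu (φ : Fin (N + 1) × Ex N d → k) (i : Fin (N + 1)) : MvPolynomial (Fin (N + 1)) k :=
  ∑ γ : Ex N d, monomial γ.1 (φ (i, γ))

lemma Fu_hom (φ : Fin (N + 1) × Ex N d → k) (i : Fin (N + 1)) : (Fu φ i).IsHomogeneous d :=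
  IsHomogeneous.sum _ _ _ fun γ _ => isHomogeneous_monomial _ (mem_Ex.mp γ.2)

/-- the universal matrix -/
def UM (k : Type) [Field k] (N d m c : ℕ) :
    Matrix (Ex N m) (Ex N c × Fin (N + 1)) (MvPolynomial (Fin (N + 1) × Ex N d) k) :=
  Matrix.of fun α b => ∑ γ : Ex N d, if b.1.1 + γ.1 = α.1 then X (b.2, γ) else 0

lemma eval_UM (φ : Fin (N + 1) × Ex N d → k) (m c : ℕ) (α : Ex N m)
    (b : Ex N c × Fin (N + 1)) : eval φ (UM k N d m c α b) = Mx (Fu φ) m c α b := by
  simp only [UM, Mx, Matrix.of_apply, Fu, map_sum, Finset.mul_sum, coeff_sum]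
  refine Finset.sum_congr rfl fun γ _ => ?_
  rw [monomial_mul, one_mul, coeff_monomial]
  split_ifs
  · rw [eval_X]
  · rw [map_zero]

lemma eval_det (φ : Fin (N + 1) × Ex N d → k) (m c : ℕ)
    (e : Ex N m → Ex N c × Fin (N + 1)) :
    eval φ ((UM k N d m c).submatrix id e).det = ((Mx (Fu φ) m c).submatrix id e).det := by
  rw [RingHom.map_det]
  congr 1
  ext α β
  exact eval_UM φ m c α (e β)

/-- the polynomials vanishing at the tuples which are not full in degree `m` -/
def Vn (k : Type) [Field k] (N d m : ℕ) : Ideal (MvPolynomial (Fin (N + 1) × Ex N d) k) where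
  carrier := {g | ∀ φ : Fin (N + 1) × Ex N d → k, ¬ Full (Fu φ) m → eval φ g = 0}
  add_mem' := fun {a b} ha hb φ hφ => by rw [map_add, ha φ hφ, hb φ hφ, add_zero]
  zero_mem' := fun φ _ => map_zero _
  smul_mem' := fun c x hx φ hφ => by rw [smul_eq_mul, map_mul, hx φ hφ, mul_zero]

lemma Vn_mono (m : ℕ) : Vn k N d m ≤ Vn k N d (m + 1) :=
  fun _ hg φ hφ => hg φ fun h => hφ h.succ

lemma exists_stable (k : Type) [Field k] (N d : ℕ) : ∃ n : ℕ, d ≤ n ∧
    ∀ (φ : Fin (N + 1) × Ex N d → k) (m : ℕ), Full (Fu φ) m → Full (Fu φ) n := by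
  classical
  obtain ⟨n₁, hn₁⟩ := monotone_stabilizes_iff_noetherian.mpr
    (inferInstance : IsNoetherian (MvPolynomial (Fin (N + 1) × Ex N d) k)
      (MvPolynomial (Fin (N + 1) × Ex N d) k))
    (⟨fun m => Vn k N d m, monotone_nat_of_le_succ Vn_mono⟩ :
      ℕ →o Submodule (MvPolynomial (Fin (N + 1) × Ex N d) k)
        (MvPolynomial (Fin (N + 1) × Ex N d) k))
  have hst : ∀ m, max n₁ d ≤ m → Vn k N d (max n₁ d) = Vn k N d m := by
    intro m hm
    have h1 := hn₁ (max n₁ d) (le_max_left _ _)
    have h2 := hn₁ m ((le_max_left _ _).trans hm)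
    exact h1.symm.trans h2
  refine ⟨max n₁ d, le_max_right _ _, fun φ m hm => ?_⟩
  by_contra hcon
  have hm' : Full (Fu φ) (max m (max n₁ d)) := hm.mono (le_max_left _ _)
  obtain ⟨M, hM⟩ : ∃ M, M = max m (max n₁ d) := ⟨_, rfl⟩
  rw [← hM] at hm'
  have hMd : M = (M - d) + d := by
    have h1 : d ≤ M := by
      rw [hM]
      exact (le_max_right _ _).trans (le_max_right _ _)
    omega
  obtain ⟨e, he⟩ := exists_det (fun i => Fu_hom φ i) hMd hm'
  have hg : ((UM k N d M (M - d)).submatrix id e).det ∈ Vn k N d M := by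
    intro ψ hψ
    by_contra h1
    rw [eval_det] at h1
    exact hψ (full_of_det (fun i => Fu_hom ψ i) hMd e h1)
  rw [← hst M (by rw [hM]; exact le_max_right _ _)] at hg
  have h2 := hg φ hcon
  rw [eval_det] at h2
  exact he h2

end univ

/-- **uniform Nullstellensatz** -/
theorem uniform_null (N d : ℕ) : ∃ n : ℕ, d ≤ n ∧
    ∀ (K : Type) [Field K] [NumberField K] (F : Fin (N + 1) → MvPolynomial (Fin (N + 1)) K),
      (∀ i, (F i).IsHomogeneous d) →
      (∀ z : Fin (N + 1) → AlgebraicClosure K, (∀ i, aeval z (F i) = 0) → z = 0) →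
      Full F n := by
  obtain ⟨n, hn, h⟩ := exists_stable (AlgebraicClosure ℚ) N d
  refine ⟨n, hn, ?_⟩
  intro K _ _ F hF hmor
  obtain ⟨c, hc⟩ := exists_mem_span hmor
  set ι : K →ₐ[ℚ] AlgebraicClosure ℚ := IsAlgClosed.lift with hι
  set φ : Fin (N + 1) × Ex N d → AlgebraicClosure ℚ := fun p => ι ((F p.1).coeff p.2.1) with hφ
  have hmap : ∀ (m c' : ℕ) (α : Ex N m) (b : Ex N c' × Fin (N + 1)),
      ι.toRingHom (Mx F m c' α b) = Mx (Fu φ) m c' α b := by
    intro m c' α b
    have h1 : Fu φ b.2 = map ι.toRingHom (F b.2) := by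
      conv_rhs => rw [expand (hF b.2)]
      rw [map_sum]
      refine Finset.sum_congr rfl fun γ _ => ?_
      rw [map_monomial]
      rfl
    simp only [Mx, Matrix.of_apply]
    rw [h1]
    have h2 : (monomial b.1.1 (1 : AlgebraicClosure ℚ)) = map ι.toRingHom (monomial b.1.1 1) := by
      rw [map_monomial, show ι.toRingHom 1 = 1 from RingHom.map_one _]
    rw [h2, ← map_mul, coeff_map]
  have hdet : ∀ (m c' : ℕ) (e : Ex N m → Ex N c' × Fin (N + 1)),
      ι.toRingHom ((Mx F m c').submatrix id e).det = ((Mx (Fu φ) m c').submatrix id e).det := by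
    intro m c' e
    rw [RingHom.map_det]
    congr 1
    ext α β
    exact hmap m c' α (e β)
  -- a large degree over `K`
  obtain ⟨e, he⟩ := exists_det hF (m := c + d) rfl (fun p hp => hc _ (by omega) p hp)
  have h1 : ((Mx (Fu φ) (c + d) c).submatrix id e).det ≠ 0 := by
    rw [← hdet]
    exact (map_ne_zero _).mpr he
  have h2 := h φ (c + d) (full_of_det (fun i => Fu_hom φ i) rfl e h1)
  obtain ⟨e', he'⟩ := exists_det (fun i => Fu_hom φ i) (m := n) (c := n - d) (by omega) h2
  refine full_of_det hF (m := n) (c := n - d) (by omega) e' ?_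
  intro h3
  apply he'
  rw [← hdet, h3, map_zero]

end

end Pool.Agent.H627.UB
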