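import Mathlib
import Pool.Agent.H627.LU.Iq
import Pool.Agent.H627.UB.Nst

/-!
The inequality for maximal rank determinants, for tuples of forms which have good reduction up to
a scalar.
-/

set_option autoImplicit false
set_option linter.unusedSectionVars false

namespace Pool.Agent.H627.UB

open NumberField Module MvPolynomial
open Pool.Agent.W238.Leh
open Pool.Agent.H627.LP hiding det_ineq det_ineq' local_gain
open Pool.Agent.H627.LR (GR)
open Pool.Agent.H627.LU

noncomputable section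

variable {K : Type} [Field K] [NumberField K] {M : Type} [Field M] [NumberField M] [Algebra K M]
  {N : ℕ}

/-- the local gain as a property of a tuple of forms -/
def LG (v : FinitePlace M) (F : Fin (N + 1) → MvPolynomial (Fin (N + 1)) K) : Prop :=
  ∀ (r : ℕ) (l : List ℕ) (Φ : Fin r → MvPolynomial (Fin (N + 1)) K), (∀ j, Φ j ∈ GG F l) →
    ∀ (p : Fin r → Fin (N + 1) → M), (∀ i, p i ≠ 0) → ∀ (E : Finset (Fin r))
    (c : Fin r → Fin r) (η : ℝ), 0 < η → η < 1 →
    (∀ i, i ∉ E → Near v η (p i) (p (c i))) → ∀ t : ℕ,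
    ((Finset.univ \ E).image c).card ≤ t → ∀ s : ℕ,
    v (Matrix.of fun i j => aeval (p i) (Φ j)).det ≤
      (∏ i, wt (nmf v) (act F) l (p i)) *
        (η ^ s) ^ (Fintype.card (Fin r) - (E.card + t * finrank M (EL K p (N * s))))

section scale

variable {G : Fin (N + 1) → MvPolynomial (Fin (N + 1)) K} {q : ℕ} {κ : K}

/-- the tuple multiplied by a constant -/
def Sm (κ : K) (G : Fin (N + 1) → MvPolynomial (Fin (N + 1)) K) :
    Fin (N + 1) → MvPolynomial (Fin (N + 1)) K := fun i => C κ * G i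

lemma Sm_hom (hG : ∀ i, (G i).IsHomogeneous q) (i : Fin (N + 1)) : (Sm κ G i).IsHomogeneous q := by
  have h7 := (isHomogeneous_C (Fin (N + 1)) κ).mul (hG i)
  rwa [zero_add] at h7

lemma act_Sm (z : Fin (N + 1) → M) : act (Sm κ G) z = (algebraMap K M κ) • act G z := by
  funext i
  simp only [act, Sm, map_mul, aeval_C, Pi.smul_apply, smul_eq_mul]

/-- the exponent of the constant -/
def xp (q : ℕ) : List ℕ → ℕ
  | [] => 0
  | _ :: l => xp q l + ldeg q l

lemma bind_Sm {p : MvPolynomial (Fin (N + 1)) K} {m : ℕ} (hp : p.IsHomogeneous m) :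
    bind₁ (Sm κ G) p = C (κ ^ m) * bind₁ G p := by
  rw [expand hp, map_sum, map_sum, Finset.mul_sum]
  refine Finset.sum_congr rfl fun α _ => ?_
  rw [bind₁_monomial, bind₁_monomial]
  have h1 : ∏ i ∈ α.1.support, Sm κ G i ^ α.1 i =
      C (κ ^ m) * ∏ i ∈ α.1.support, G i ^ α.1 i := by
    simp only [Sm, mul_pow, Finset.prod_mul_distrib]
    congr 1
    rw [Finset.prod_pow_eq_pow_sum, ← C_pow]
    have h2 : ∑ i ∈ α.1.support, α.1 i = m := mem_Ex.mp α.2
    rw [h2]
  rw [h1]
  ring

lemma GG_Sm (hG : ∀ i, (G i).IsHomogeneous q) (l : List ℕ) {φ : MvPolynomial (Fin (N + 1)) K}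
    (hφ : φ ∈ GG (Sm κ G) l) : ∃ φ' ∈ GG G l, φ = C (κ ^ xp q l) * φ' := by
  induction l generalizing φ with
  | nil =>
    refine ⟨1, rfl, ?_⟩
    have h1 : φ = 1 := hφ
    rw [h1, xp, pow_zero, C_1, one_mul]
  | cons r l ih =>
    obtain ⟨s, hs, g, hg, rfl⟩ := hφ
    obtain ⟨g', hg', rfl⟩ := ih hg
    refine ⟨monomial s 1 * bind₁ G g', ⟨s, hs, g', hg', rfl⟩, ?_⟩
    rw [map_mul, bind_Sm (GG_hom hG l hg'), xp, pow_add, C_mul]
    have h2 : bind₁ (Sm κ G) (C (κ ^ xp q l)) = C (κ ^ xp q l) := by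
      rw [bind₁_C_right]
    rw [h2]
    ring

lemma wt_smul {F : Fin (N + 1) → MvPolynomial (Fin (N + 1)) K}
    (hF : ∀ i, (F i).IsHomogeneous q) (v : FinitePlace M) (l : List ℕ) (b : M)
    (x : Fin (N + 1) → M) :
    wt (nmf v) (act F) l (b • x) = v b ^ ldeg q l * wt (nmf v) (act F) l x := by
  induction l generalizing b x with
  | nil => simp [wt, ldeg]
  | cons r l ih =>
    rw [wt, wt, act_smul hF, ih, nmf_smul, ldeg, map_pow]
    ring

lemma wt_Sm (hG : ∀ i, (G i).IsHomogeneous q) (v : FinitePlace M) (l : List ℕ)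
    (x : Fin (N + 1) → M) :
    wt (nmf v) (act (Sm κ G)) l x =
      v (algebraMap K M κ) ^ xp q l * wt (nmf v) (act G) l x := by
  induction l generalizing x with
  | nil => simp [wt, xp]
  | cons r l ih =>
    rw [wt, wt, act_Sm, wt_smul (fun i => Sm_hom hG i), ih, xp, pow_add]
    ring

/-- **the local gain up to a scalar** -/
theorem LG_of (hG : ∀ i, (G i).IsHomogeneous q) {v : FinitePlace M} (hR : GR v G q) :
    LG v (Sm κ G) := by
  intro r l Φ hΦ p hp E c η hη hη1 hnear t ht s
  choose Φ' hΦ' hΦe using fun j => GG_Sm hG l (hΦ j)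
  have h1 := LU.local_gain hR hG l Φ' hΦ' p hp E c hη hη1 hnear ht s
  have h2 : (Matrix.of fun i j => aeval (p i) (Φ j)) =
      (algebraMap K M κ ^ xp q l) • (Matrix.of fun i j => aeval (p i) (Φ' j)) := by
    ext i j
    rw [Matrix.smul_apply, Matrix.of_apply, Matrix.of_apply, hΦe j, map_mul, aeval_C, map_pow,
      smul_eq_mul]
  have h3 : ∏ i, wt (nmf v) (act (Sm κ G)) l (p i) =
      (v (algebraMap K M κ) ^ xp q l) ^ r * ∏ i, nmf v (p i) ^ ldeg q l := by
    have h4 : ∀ i, wt (nmf v) (act (Sm κ G)) l (p i) =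
        v (algebraMap K M κ) ^ xp q l * nmf v (p i) ^ ldeg q l := by
      intro i
      rw [wt_Sm hG, hR.wt_eq]
    rw [Finset.prod_congr rfl fun i _ => h4 i, Finset.prod_mul_distrib]
    simp
  rw [h2, Matrix.det_smul, map_mul, map_pow, map_pow, h3, Fintype.card_fin, mul_assoc]
  refine mul_le_mul_of_nonneg_left ?_ (by positivity)
  rw [Fintype.card_fin] at h1
  exact h1

end scale

variable {ι : Type} [Fintype ι] [DecidableEq ι]
variable {F : Fin (N + 1) → MvPolynomial (Fin (N + 1)) K} {q c a : ℕ} {A : ℝ}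

/-- **the inequality** -/
theorem hilb_ineq' (hB : Bds F q A a) (hq : 2 ≤ q) (hF : ∀ i, (F i).IsHomogeneous q)
    (hc : ∀ m, c + q ≤ m → ∀ p : MvPolynomial (Fin (N + 1)) K, p.IsHomogeneous m →
      p ∈ Ideal.span (Set.range F)) {p : ι → Fin (N + 1) → M} (hp : ∀ i, p i ≠ 0)
    (T : Finset (FinitePlace M)) (hT : ∀ v ∈ T, LG v F) (g : FinitePlace M → ℝ)
    (hg : ∀ v ∈ T, 0 < g v) (Bad : FinitePlace M → Finset ι) {t : ℕ}
    (hcl : ∀ v ∈ T, Classes v p (Bad v) t (g v)) {w₀ : ℝ}
    (hw : ∀ i, w₀ ≤ ∑ v ∈ T, if i ∉ Bad v then g v else 0) {H : ℝ}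
    (hH : ∀ i, canH F q (p i) ≤ H) (n s : ℕ) (hr1 : 1 ≤ finrank M (EL K p n)) :
    s * (finrank M (EL K p n) * w₀ -
        (∑ v ∈ T, g v) * (t * finrank M (EL K p (N * s)))) ≤
      finrank ℚ M * (finrank M (EL K p n) * (n * H +
        hC A a * ((c + q : ℕ) * (1 + Nat.log 2 n : ℕ)) +
        Real.log (finrank M (EL K p n)))) := by
  classical
  set r := finrank M (EL K p n) with hr
  obtain ⟨l, hl1, hl2, hl3, hl4⟩ := exists_list (c := c) hq n
  have hspan := EL_le_span hF hc p l hl2
  rw [hl1] at hspan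
  obtain ⟨φv, hφt, hφli⟩ := exists_indep (L := M)
    {v : ι → M | ∃ φ ∈ GG F l, v = fun i => aeval (p i) φ} (Submodule.finrank_mono hspan)
  choose φ hφG hφe using hφt
  obtain ⟨e, he⟩ := exists_minor φv hφli
  set p' : Fin r → Fin (N + 1) → M := fun k => p (e k) with hp'
  have hp'0 : ∀ k, p' k ≠ 0 := fun k => hp _
  set W : Matrix (Fin r) (Fin r) M := Matrix.of fun k j => aeval (p' k) (φ j) with hW
  have hdet : W.det ≠ 0 := by
    have h1 : W = (Matrix.of fun j k => φv j (e k)).transpose := by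
      ext k j
      simp only [hW, Matrix.of_apply, Matrix.transpose_apply, hp']
      rw [hφe j]
    rw [h1, Matrix.det_transpose]
    exact he
  set E : FinitePlace M → Finset (Fin r) := fun v =>
    Finset.univ.filter fun k => e k ∈ Bad v with hE
  have hiter : ∀ i j, (act F)^[j] (p' i) ≠ 0 := fun i j => hB.iter_ne_zero (hp'0 i) j
  have hwtpos : ∀ (w : InfinitePlace M) i, 0 < wt (nmi w) (act F) l (p' i) :=
    fun w i => wt_pos l fun j => nmi_pos w (hiter _ j)
  have hwtposf : ∀ (v : FinitePlace M) i, 0 < wt (nmf v) (act F) l (p' i) :=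
    fun v i => wt_pos l fun j => nmf_pos v (hiter _ j)
  have hinf : ∀ w : InfinitePlace M, Real.log (w W.det) ≤
      ∑ i, Real.log (wt (nmi w) (act F) l (p' i)) +
        Real.log (Fintype.card (Fin r)).factorial := by
    intro w
    have h1 : w W.det ≤ (Fintype.card (Fin r)).factorial *
        ∏ i, wt (nmi w) (act F) l (p' i) := by
      apply det_rows_le_inf
      intro i j
      exact abs_le_wt (w.1.toMonoidWithZeroHom) (fun x => w.1.nonneg x)
        (fun x j => le_nmi w x j) (fun x => nmi_nonneg w x) l (hφG j) (p' i)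
    have h2 : 0 < w W.det := InfinitePlace.pos_iff.mpr hdet
    have h3 := Real.log_le_log h2 h1
    have h4 : (0 : ℝ) < ((Fintype.card (Fin r)).factorial : ℝ) := by
      exact_mod_cast Nat.factorial_pos _
    rw [Real.log_mul h4.ne' (Finset.prod_pos fun k _ => hwtpos w k).ne',
      Real.log_prod (fun k _ => (hwtpos w k).ne')] at h3
    linarith
  have hfin : ∀ v : FinitePlace M, Real.log (v W.det) ≤
      ∑ i, Real.log (wt (nmf v) (act F) l (p' i)) := by
    intro v
    have h1 : v W.det ≤ ∏ i, wt (nmf v) (act F) l (p' i) := by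
      apply det_rows_le v _ _ (fun k => (hwtposf v k).le)
      intro i j
      exact abs_le_wt (v.1.toMonoidWithZeroHom) (fun x => v.1.nonneg x)
        (fun x j => le_nmf v x j) (fun x => nmf_nonneg v x) l (hφG j) (p' i)
    have h2 : 0 < v W.det := FinitePlace.pos_iff.mpr hdet
    have h3 := Real.log_le_log h2 h1
    rwa [Real.log_prod (fun k _ => (hwtposf v k).ne')] at h3
  set ρ := finrank M (EL K p (N * s)) with hρ
  have hρ' : finrank M (EL K p' (N * s)) ≤ ρ := finrank_EL_comp p e (N * s)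
  have hfinT : ∀ v ∈ T, Real.log (v W.det) ≤
      ∑ i, Real.log (wt (nmf v) (act F) l (p' i)) -
        g v * (s * (r - ((E v).card + t * ρ) : ℕ)) := by
    intro v hv
    have hR := hT v hv
    obtain ⟨cc, hcc, hcc'⟩ := (hcl v hv).sub e
    have hgv := hg v hv
    have h1 := hR r l φ hφG p' hp'0 (E v) cc (Real.exp (-g v)) (Real.exp_pos (-g v))
      (by rw [Real.exp_lt_one_iff]; linarith) hcc' t hcc s
    rw [← hW] at h1
    have h2 : 0 < v W.det := FinitePlace.pos_iff.mpr hdet
    have h3 := Real.log_le_log h2 h1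
    rw [Real.log_mul (Finset.prod_pos fun i _ => hwtposf v i).ne'
      (pow_pos (pow_pos (Real.exp_pos _) _) _).ne',
      Real.log_prod (fun k _ => (hwtposf v k).ne'), Real.log_pow, Real.log_pow, Real.log_exp]
      at h3
    refine h3.trans ?_
    have h5 : ((r - ((E v).card + t * ρ) : ℕ) : ℝ) ≤
        ((Fintype.card (Fin r) - ((E v).card + t * finrank M (EL K p' (N * s))) : ℕ) : ℝ) := by
      rw [Fintype.card_fin]
      have : t * finrank M (EL K p' (N * s)) ≤ t * ρ := Nat.mul_le_mul_left _ hρ'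
      have h6 : r - ((E v).card + t * ρ) ≤
          r - ((E v).card + t * finrank M (EL K p' (N * s))) := by omega
      exact_mod_cast h6
    have h6 : g v * (s * ((r - ((E v).card + t * ρ) : ℕ) : ℝ)) ≤ g v * (s *
        ((Fintype.card (Fin r) - ((E v).card + t * finrank M (EL K p' (N * s))) : ℕ) : ℝ)) := by
      gcongr
    linarith
  have hgs1 : HasGS (fun w => ∑ i, Real.log (wt (nmi w) (act F) l (p' i)))
      (fun v => ∑ i, Real.log (wt (nmf v) (act F) l (p' i))) (∑ i, HL F l (p' i)) :=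
    HasGS.sum Finset.univ fun k _ => HasGS.wt l (hiter k)
  have hmain := HasGS_le_gain (HasGS.prod hdet) hgs1
    (c := Real.log (Fintype.card (Fin r)).factorial) hinf T
    (fun v => g v * (s * (r - ((E v).card + t * ρ) : ℕ))) (fun v _ => hfin v) hfinT
  rw [Fintype.card_fin] at hmain
  -- the right hand side
  have hD := finrank_pos' (L := M)
  have hr' : (1 : ℝ) ≤ r := by exact_mod_cast hr1
  have hHL : ∀ i, HL F l (p' i) ≤ finrank ℚ M * (n * H +
      hC A a * ((c + q : ℕ) * (1 + Nat.log 2 n : ℕ))) := by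
    intro i
    refine (hB.HL_le hq l (hp'0 i)).trans ?_
    rw [hl1]
    have h2 : (l.sum : ℝ) ≤ (c + q : ℕ) * (1 + Nat.log 2 n : ℕ) := by
      have h3 : l.sum ≤ l.length * (c + q) := by
        have := List.sum_le_card_nsmul l (c + q) hl3
        simpa using this
      have h4 : l.length * (c + q) ≤ (c + q) * (1 + Nat.log 2 n) := by
        rw [mul_comm]
        exact Nat.mul_le_mul_left _ hl4
      exact_mod_cast h3.trans h4
    have h3 : (n : ℝ) * canH F q (p' i) ≤ n * H :=
      mul_le_mul_of_nonneg_left (hH _) (Nat.cast_nonneg _)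
    have h4 : hC A a * l.sum ≤ hC A a * ((c + q : ℕ) * (1 + Nat.log 2 n : ℕ)) :=
      mul_le_mul_of_nonneg_left h2 hB.hC_nonneg
    exact mul_le_mul_of_nonneg_left (by linarith) hD.le
  have hsum : ∑ i, HL F l (p' i) ≤ r * (finrank ℚ M * (n * H +
      hC A a * ((c + q : ℕ) * (1 + Nat.log 2 n : ℕ)))) := by
    have h7 := Finset.sum_le_sum (fun k (_ : k ∈ (Finset.univ : Finset (Fin r))) => hHL k)
    rwa [Finset.sum_const, Finset.card_univ, Fintype.card_fin, nsmul_eq_mul] at h7
  have hfac : Real.log r.factorial ≤ r * Real.log r := by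
    have h2 : (r.factorial : ℝ) ≤ (r : ℝ) ^ r := by exact_mod_cast Nat.factorial_le_pow r
    have h3 := Real.log_le_log (by exact_mod_cast Nat.factorial_pos r) h2
    rwa [Real.log_pow] at h3
  have h5 := mul_le_mul_of_nonneg_left hfac hD.le
  -- the left hand side
  have hlow : s * (r * w₀ - (∑ v ∈ T, g v) * (t * ρ)) ≤
      ∑ v ∈ T, g v * (s * (r - ((E v).card + t * ρ) : ℕ)) := by
    have h1 : ∀ v ∈ T, s * (g v * ((r : ℝ) - (E v).card)) - s * (g v * (t * ρ)) ≤
        g v * (s * (r - ((E v).card + t * ρ) : ℕ)) := by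
      intro v hv
      have h2 : (r : ℝ) - ((E v).card + t * ρ) ≤ ((r - ((E v).card + t * ρ) : ℕ) : ℝ) := by
        have h3 : r ≤ (r - ((E v).card + t * ρ)) + ((E v).card + t * ρ) := by omega
        have h4 : (r : ℝ) ≤ (((r - ((E v).card + t * ρ)) + ((E v).card + t * ρ) : ℕ) : ℝ) := by
          exact_mod_cast h3
        push_cast at h4
        linarith
      have h5 := (hg v hv).le
      have h6 : (0 : ℝ) ≤ s := Nat.cast_nonneg s
      calc s * (g v * ((r : ℝ) - (E v).card)) - s * (g v * (t * ρ)) =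
          g v * (s * ((r : ℝ) - ((E v).card + t * ρ))) := by ring
        _ ≤ _ := by gcongr
    refine le_trans ?_ (Finset.sum_le_sum h1)
    rw [Finset.sum_sub_distrib, ← Finset.mul_sum, ← Finset.mul_sum, ← Finset.sum_mul, ← mul_sub]
    refine mul_le_mul_of_nonneg_left ?_ (Nat.cast_nonneg s)
    refine sub_le_sub_right ?_ _
    have h2 : ∀ v ∈ T, g v * ((r : ℝ) - (E v).card) =
        ∑ k : Fin r, if e k ∉ Bad v then g v else 0 := by
      intro v _
      have h3 : (r : ℝ) - (E v).card = ∑ k : Fin r, if e k ∉ Bad v then (1 : ℝ) else 0 := by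
        have h4 : (r : ℝ) = ∑ k : Fin r, (1 : ℝ) := by simp
        have h5 : ((E v).card : ℝ) = ∑ k : Fin r, if e k ∈ Bad v then (1 : ℝ) else 0 := by
          rw [hE, Finset.card_filter]
          push_cast
          rfl
        conv_lhs => rw [h4]
        rw [h5, ← Finset.sum_sub_distrib]
        refine Finset.sum_congr rfl fun k _ => ?_
        by_cases h : e k ∈ Bad v
        · simp [h]
        · simp [h]
      rw [h3, Finset.mul_sum]
      refine Finset.sum_congr rfl fun k _ => ?_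
      split_ifs <;> simp
    rw [Finset.sum_congr rfl h2, Finset.sum_comm]
    calc (r : ℝ) * w₀ = ∑ k : Fin r, w₀ := by simp
      _ ≤ _ := Finset.sum_le_sum fun k _ => hw (e k)
  calc _ ≤ ∑ v ∈ T, g v * (s * (r - ((E v).card + t * ρ) : ℕ)) := hlow
    _ ≤ ∑ i, HL F l (p' i) + finrank ℚ M * Real.log r.factorial := by linarith
    _ ≤ r * (finrank ℚ M * (n * H + hC A a * ((c + q : ℕ) * (1 + Nat.log 2 n : ℕ)))) +
        finrank ℚ M * (r * Real.log r) := by linarith
    _ = _ := by ring

end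

end Pool.Agent.H627.UB
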