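import Mathlib
import Pool.Agent.H627.UB.Nst
import Pool.Agent.W238.Leh.Canon

/-!
The size of the constants in terms of the height of the coefficients.
-/

set_option autoImplicit false
set_option linter.unusedSectionVars false

namespace Pool.Agent.H627.UB

open NumberField Module MvPolynomial
open Pool.Agent.W238.Leh

noncomputable section

variable {K : Type} [Field K] [NumberField K] {N : ℕ}

lemma prod_ge_one {ι : Type*} (s : Finset ι) (f : ι → ℝ) (h : ∀ i ∈ s, 1 ≤ f i) :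
    1 ≤ ∏ i ∈ s, f i := by
  classical
  induction s using Finset.induction_on with
  | empty => simp
  | insert a s ha ih =>
    rw [Finset.prod_insert ha]
    exact one_le_mul_of_one_le_of_one_le (h a (Finset.mem_insert_self _ _))
      (ih fun i hi => h i (Finset.mem_insert_of_mem hi))

lemma inf_le (w : InfinitePlace K) (x : K) : w x ≤ Height.mulHeight₁ x := by
  classical
  rw [NumberField.mulHeight₁_eq]
  have h0 : w x ≤ max (w x) 1 ^ w.mult :=
    (le_max_left _ _).trans (le_self_pow₀ (le_max_right _ _) w.mult_ne_zero)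
  have h1 : w x ≤ ∏ v : InfinitePlace K, max (v x) 1 ^ v.mult := by
    rw [← Finset.mul_prod_erase _ _ (Finset.mem_univ w)]
    have h2 := prod_ge_one (Finset.univ.erase w) (fun v : InfinitePlace K => max (v x) 1 ^ v.mult)
      (fun v _ => one_le_pow₀ (le_max_right _ _))
    have h3 : 0 ≤ max (w x) 1 ^ w.mult := by positivity
    nlinarith
  have h2 : 1 ≤ ∏ᶠ v : FinitePlace K, max (v x) 1 := one_le_finprod fun _ => le_max_right _ _
  have h3 : 0 ≤ w x := apply_nonneg w x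
  nlinarith

/-- the coefficients -/
def cof (d : ℕ) (F : Fin (N + 1) → MvPolynomial (Fin (N + 1)) K) :
    Fin (N + 1) × Ex N d → K := fun p => (F p.1).coeff p.2.1

lemma height_ratio {ι : Type*} [Finite ι] (x : ι → K) (i j : ι) :
    Height.mulHeight₁ (x i / x j) ≤ Height.mulHeight x := by
  rw [Height.mulHeight₁_div_eq_mulHeight]
  have h1 := Height.mulHeight_comp_le ![i, j] x
  have h2 : x ∘ ![i, j] = ![x i, x j] := by
    funext k
    fin_cases k <;> rfl
  rwa [h2] at h1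

/-- normalisation -/
lemma exists_scalar {ι : Type*} [Fintype ι] (x : ι → K) (j : ι) :
    ∃ a : ℕ, 1 ≤ a ∧ Real.log a ≤ Fintype.card ι * Height.logHeight x ∧
      (∀ i, IsIntegral ℤ ((a : K) * (x i / x j))) ∧
      ∀ (w : InfinitePlace K) i, w (x i / x j) ≤ Real.exp (Height.logHeight x) := by
  classical
  choose n hn0 hn hint using fun i => NumberField.exists_nat_le_mulHeight₁ (x i / x j)
  have hexp : Real.exp (Height.logHeight x) = Height.mulHeight x := by
    rw [Height.logHeight_eq_log_mulHeight, Real.exp_log (Height.mulHeight_pos _)]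
  refine ⟨∏ i, n i, Nat.one_le_iff_ne_zero.mpr (Finset.prod_ne_zero_iff.mpr fun i _ => hn0 i),
    ?_, ?_, ?_⟩
  · push_cast
    rw [Real.log_prod (fun i _ => by exact_mod_cast hn0 i)]
    calc ∑ i, Real.log (n i) ≤ ∑ _i : ι, Height.logHeight x := by
          refine Finset.sum_le_sum fun i _ => ?_
          rw [Height.logHeight_eq_log_mulHeight]
          have h1 : (0 : ℝ) < n i := by exact_mod_cast Nat.pos_of_ne_zero (hn0 i)
          exact Real.log_le_log h1 ((hn i).trans (height_ratio x i j))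
      _ = _ := by simp
  · intro i
    have h1 : ((∏ i, n i : ℕ) : K) * (x i / x j) =
        ((∏ k ∈ Finset.univ.erase i, n k : ℕ) : K) * ((n i : K) * (x i / x j)) := by
      rw [← Finset.prod_erase_mul _ _ (Finset.mem_univ i)]
      push_cast
      ring
    rw [h1]
    exact (isIntegral_natCast _).mul (hint i)
  · intro w i
    rw [hexp]
    exact (inf_le w _).trans (height_ratio x i j)

section nrm

/-- lower bound for the absolute values of an algebraic integer -/
lemma int_lower {D : ℕ} (hD : finrank ℚ K ≤ D) {δ : 𝓞 K} (hδ : δ ≠ 0) {T : ℝ} (hT : 1 ≤ T)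
    (h : ∀ w : InfinitePlace K, w (δ : K) ≤ T) :
    (∀ w : InfinitePlace K, 1 ≤ w (δ : K) * T ^ D) ∧
      ((Ideal.span {δ}).absNorm : ℝ) ≤ T ^ D := by
  classical
  have hnorm := InfinitePlace.prod_eq_abs_norm (δ : K)
  have habs : ((Ideal.span {δ}).absNorm : ℝ) = ((|Algebra.norm ℚ (δ : K)| : ℚ) : ℝ) := by
    rw [Ideal.absNorm_span_singleton, ← Algebra.coe_norm_int, Nat.cast_natAbs]
    push_cast
    rfl
  have hone : (1 : ℝ) ≤ ((Ideal.span {δ}).absNorm : ℝ) := by
    have h1 : (Ideal.span {δ}).absNorm ≠ 0 := by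
      rw [Ne, Ideal.absNorm_eq_zero_iff, Ideal.span_singleton_eq_bot]
      exact hδ
    exact_mod_cast Nat.one_le_iff_ne_zero.mpr h1
  have hsum : ∑ w : InfinitePlace K, w.mult = finrank ℚ K := InfinitePlace.sum_mult_eq
  have hpow : ∀ w : InfinitePlace K, w (δ : K) ^ w.mult ≤ T ^ w.mult := fun w =>
    pow_le_pow_left₀ (apply_nonneg w _) (h w) _
  constructor
  · intro w
    rcases le_total 1 (w (δ : K)) with h1 | h1
    · exact one_le_mul_of_one_le_of_one_le h1 (one_le_pow₀ hT)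
    · have h2 : ∏ v ∈ Finset.univ.erase w, v (δ : K) ^ v.mult ≤ T ^ D := by
        calc ∏ v ∈ Finset.univ.erase w, v (δ : K) ^ v.mult ≤
            ∏ v ∈ Finset.univ.erase w, T ^ v.mult :=
              Finset.prod_le_prod (fun v _ => by positivity) fun v _ => hpow v
          _ = T ^ ∑ v ∈ Finset.univ.erase w, v.mult := Finset.prod_pow_eq_pow_sum _ _ _
          _ ≤ T ^ D := by
            apply pow_le_pow_right₀ hT
            refine le_trans (Finset.sum_le_sum_of_subset (Finset.erase_subset _ _)) ?_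
            rw [hsum]
            exact hD
      have h3 : w (δ : K) ^ w.mult ≤ w (δ : K) :=
        pow_le_of_le_one (apply_nonneg w _) h1 w.mult_ne_zero
      rw [← habs.symm.symm, ← Finset.mul_prod_erase _ _ (Finset.mem_univ w)] at hnorm
      calc (1 : ℝ) ≤ w (δ : K) ^ w.mult * ∏ v ∈ Finset.univ.erase w, v (δ : K) ^ v.mult := by
            rw [hnorm]
            exact hone
        _ ≤ w (δ : K) * T ^ D := by
            apply mul_le_mul h3 h2 _ (apply_nonneg w _)
            exact Finset.prod_nonneg fun v _ => by positivity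
  · rw [habs, ← hnorm]
    calc ∏ v : InfinitePlace K, v (δ : K) ^ v.mult ≤ ∏ v : InfinitePlace K, T ^ v.mult :=
          Finset.prod_le_prod (fun v _ => by positivity) fun v _ => hpow v
      _ = T ^ ∑ v : InfinitePlace K, v.mult := Finset.prod_pow_eq_pow_sum _ _ _
      _ ≤ T ^ D := by
        apply pow_le_pow_right₀ hT
        rw [hsum]
        exact hD

end nrm

/-- Cramer's rule with sizes -/
lemma exists_cert {G : Fin (N + 1) → MvPolynomial (Fin (N + 1)) K} {d c n : ℕ}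
    (hG : ∀ i, (G i).IsHomogeneous d) (hn : n = c + d)
    (hint : ∀ i s, IsIntegral ℤ ((G i).coeff s)) (hfull : Full G n) {S : ℝ} (hS : 1 ≤ S)
    (hSz : ∀ (w : InfinitePlace K) i s, w ((G i).coeff s) ≤ S) :
    ∃ (e : Ex N n → Ex N c × Fin (N + 1)) (δ : 𝓞 K) (u : Ex N n → Fin (N + 1) → K), δ ≠ 0 ∧
      (∀ w : InfinitePlace K, w (δ : K) ≤
        (Fintype.card (Ex N n)).factorial * S ^ Fintype.card (Ex N n)) ∧
      (∀ k i, IsIntegral ℤ (u k i)) ∧
      (∀ k i, ∀ w : InfinitePlace K, w (u k i) ≤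
        (Fintype.card (Ex N n)).factorial * S ^ Fintype.card (Ex N n)) ∧
      ∀ i, C (δ : K) * X i ^ n =
        ∑ k : Ex N n, C (u k i) * (monomial (e k).1.1 1 * G (e k).2) := by
  classical
  obtain ⟨e, he⟩ := exists_det hG hn hfull
  obtain ⟨B, hB⟩ : ∃ B, B = (Mx G n c).submatrix id e := ⟨_, rfl⟩
  rw [← hB] at he
  have hentry : ∀ α β, B α β = 0 ∨ ∃ s, B α β = (G (e β).2).coeff s := by
    intro α β
    simp only [hB, Matrix.submatrix_apply, id_eq, Mx, Matrix.of_apply]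
    rw [coeff_monomial_mul']
    split_ifs with h
    · exact Or.inr ⟨_, one_mul _⟩
    · exact Or.inl rfl
  have hBint : ∀ α β, IsIntegral ℤ (B α β) := by
    intro α β
    rcases hentry α β with h | ⟨s, h⟩
    · rw [h]
      exact isIntegral_zero
    · rw [h]
      exact hint _ _
  have hBsz : ∀ (w : InfinitePlace K) α β, w (B α β) ≤ S := by
    intro w α β
    rcases hentry α β with h | ⟨s, h⟩
    · rw [h, map_zero]
      linarith
    · rw [h]
      exact hSz w _ _
  have hdetint : IsIntegral ℤ B.det := IsIntegral.det hBint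
  have hadj : ∀ k α, IsIntegral ℤ (B.adjugate k α) ∧
      ∀ w : InfinitePlace K, w (B.adjugate k α) ≤
        (Fintype.card (Ex N n)).factorial * S ^ Fintype.card (Ex N n) := by
    intro k α
    rw [Matrix.adjugate_apply]
    have h1 : ∀ x y, (B.updateRow α (Pi.single k 1)) x y = B x y ∨
        (B.updateRow α (Pi.single k 1)) x y = 0 ∨ (B.updateRow α (Pi.single k 1)) x y = 1 := by
      intro x y
      rw [Matrix.updateRow_apply]
      split_ifs with h
      · rw [Pi.single_apply]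
        split_ifs with h2
        · exact Or.inr (Or.inr rfl)
        · exact Or.inr (Or.inl rfl)
      · exact Or.inl rfl
    constructor
    · refine IsIntegral.det fun x y => ?_
      rcases h1 x y with h | h | h
      · rw [h]
        exact hBint x y
      · rw [h]
        exact isIntegral_zero
      · rw [h]
        exact isIntegral_one
    · intro w
      have h2 := Matrix.det_le (abv := w.1) (A := B.updateRow α (Pi.single k 1)) (x := S) ?_
      · rw [nsmul_eq_mul] at h2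
        exact h2
      · intro x y
        rcases h1 x y with h | h | h
        · rw [h]
          exact hBsz w x y
        · rw [h, map_zero]
          linarith
        · rw [h, map_one]
          exact hS
  have hdetsz : ∀ w : InfinitePlace K, w B.det ≤
      (Fintype.card (Ex N n)).factorial * S ^ Fintype.card (Ex N n) := by
    intro w
    have h2 := Matrix.det_le (abv := w.1) (A := B) (x := S) fun x y => hBsz w x y
    rw [nsmul_eq_mul] at h2
    exact h2
  obtain ⟨δ, hδ⟩ : ∃ δ : 𝓞 K, (δ : K) = B.det := ⟨⟨B.det, hdetint⟩, rfl⟩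
  have hpowEx : ∀ i : Fin (N + 1), Finsupp.single i n ∈
      (Finset.univ : Finset (Fin (N + 1))).finsuppAntidiag n := fun i => by
    rw [mem_Ex, Finsupp.degree_single]
  refine ⟨e, δ, fun k i => B.adjugate k ⟨_, hpowEx i⟩, ?_, ?_, ?_, ?_, ?_⟩
  · rintro rfl
    exact he hδ.symm
  · intro w
    rw [hδ]
    exact hdetsz w
  · exact fun k i => (hadj _ _).1
  · exact fun k i => (hadj _ _).2
  · intro i
    have h1 := cramer hG hn e ⟨_, hpowEx i⟩
    rw [X_pow_eq_monomial, hδ, hB]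
    exact h1

lemma norm_prod_pow_le {m : ℕ} {s : Fin (N + 1) →₀ ℕ} (hs : s.degree = m)
    (y : Fin (N + 1) → ℂ) : ∏ j, ‖y j ^ s j‖ ≤ ‖y‖ ^ m := by
  have h3 : ∑ j, s j = m := by
    rw [← Finsupp.degree_eq_sum]
    exact hs
  calc ∏ j, ‖y j ^ s j‖ ≤ ∏ j, ‖y‖ ^ s j := by
        refine Finset.prod_le_prod (fun j _ => norm_nonneg _) fun j _ => ?_
        rw [norm_pow]
        exact pow_le_pow_left₀ (norm_nonneg _) (norm_le_pi_norm y j) _
    _ = ‖y‖ ^ m := by rw [Finset.prod_pow_eq_pow_sum, h3]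

lemma upC_of {G : Fin (N + 1) → MvPolynomial (Fin (N + 1)) K} {d : ℕ}
    (hG : ∀ i, (G i).IsHomogeneous d) {S : ℝ} (hS : 0 ≤ S)
    (hSz : ∀ (w : InfinitePlace K) i s, w ((G i).coeff s) ≤ S) (σ : K →+* ℂ)
    (y : Fin (N + 1) → ℂ) :
    ‖actC σ G y‖ ≤ (Fintype.card (Ex N d) * S) * ‖y‖ ^ d := by
  rw [pi_norm_le_iff_of_nonneg (by positivity)]
  intro i
  have h1 : actC σ G y i = ∑ γ : Ex N d, σ ((G i).coeff γ.1) * ∏ j, y j ^ γ.1 j := by
    unfold actC
    conv_lhs => rw [expand (hG i)]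
    rw [eval₂_sum]
    refine Finset.sum_congr rfl fun γ _ => ?_
    rw [eval₂_monomial, Finsupp.prod_fintype _ _ (fun j => pow_zero _)]
  rw [h1]
  refine (norm_sum_le _ _).trans ?_
  have h2 : ∀ γ ∈ (Finset.univ : Finset (Ex N d)),
      ‖σ ((G i).coeff γ.1) * ∏ j, y j ^ γ.1 j‖ ≤ S * ‖y‖ ^ d := by
    intro γ _
    rw [norm_mul, norm_prod]
    exact mul_le_mul (hSz (InfinitePlace.mk σ) i γ.1) (norm_prod_pow_le (mem_Ex.mp γ.2) y)
      (Finset.prod_nonneg fun _ _ => norm_nonneg _) hS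
  refine (Finset.sum_le_sum h2).trans (le_of_eq ?_)
  rw [Finset.sum_const, Finset.card_univ, nsmul_eq_mul, mul_assoc]

lemma exists_max (y : Fin (N + 1) → ℂ) (hy : y ≠ 0) : ∃ i, ‖y i‖ = ‖y‖ := by
  by_contra hcon
  push Not at hcon
  have h4 : ∀ i, ‖y i‖₊ < ‖y‖₊ := by
    intro i
    have h5 := norm_le_pi_norm y i
    exact lt_of_le_of_ne h5 fun h6 => hcon i (congrArg NNReal.toReal h6)
  have h5 : (Finset.univ.sup fun i => ‖y i‖₊) < ‖y‖₊ := by
    rw [Finset.sup_lt_iff]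
    · exact fun i _ => h4 i
    · exact nnnorm_pos.mpr hy
  have h6 : ‖y‖ < ‖y‖ := by
    conv_lhs => rw [Pi.norm_def]
    exact h5
  exact lt_irrefl _ h6

lemma loC_of {G : Fin (N + 1) → MvPolynomial (Fin (N + 1)) K} {d c n : ℕ} (hd : 1 ≤ d)
    (hn : n = c + d) {e : Ex N n → Ex N c × Fin (N + 1)} {δ : 𝓞 K}
    {u : Ex N n → Fin (N + 1) → K} {S₂ T : ℝ} (hS₂ : 0 ≤ S₂) (hT : 0 ≤ T)
    (hu : ∀ k i, ∀ w : InfinitePlace K, w (u k i) ≤ S₂)
    (hcr : ∀ i, C (δ : K) * X i ^ n =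
        ∑ k : Ex N n, C (u k i) * (monomial (e k).1.1 1 * G (e k).2))
    (hlow : ∀ w : InfinitePlace K, 1 ≤ w (δ : K) * T) (σ : K →+* ℂ)
    (y : Fin (N + 1) → ℂ) :
    ‖y‖ ^ d ≤ (Fintype.card (Ex N n) * S₂ * T) * ‖actC σ G y‖ := by
  rcases eq_or_ne y 0 with rfl | hy
  · rw [norm_zero, zero_pow (by omega)]
    positivity
  have hy0 : 0 < ‖y‖ := norm_pos_iff.mpr hy
  obtain ⟨i, hi⟩ := exists_max y hy
  have h1 := congrArg (eval₂Hom σ y) (hcr i)
  rw [map_mul, map_pow, map_sum, eval₂Hom_X', eval₂Hom_C] at h1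
  have h2 : ‖σ (δ : K)‖ * ‖y‖ ^ n ≤
      (Fintype.card (Ex N n) : ℝ) * (S₂ * (‖y‖ ^ c * ‖actC σ G y‖)) := by
    rw [← hi, ← norm_pow, ← norm_mul, h1, hi]
    refine (norm_sum_le _ _).trans ?_
    have h3 : ∀ k ∈ (Finset.univ : Finset (Ex N n)),
        ‖(eval₂Hom σ y) (C (u k i) * (monomial (e k).1.1 1 * G (e k).2))‖ ≤
          S₂ * (‖y‖ ^ c * ‖actC σ G y‖) := by
      intro k _
      rw [map_mul, map_mul, norm_mul, norm_mul, eval₂Hom_C]
      refine mul_le_mul (hu k i (InfinitePlace.mk σ)) (mul_le_mul ?_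
        (norm_le_pi_norm (actC σ G y) _) (norm_nonneg _) (by positivity)) (by positivity) hS₂
      rw [coe_eval₂Hom, eval₂_monomial, map_one, one_mul,
        Finsupp.prod_fintype _ _ (fun j => pow_zero _), norm_prod]
      exact norm_prod_pow_le (mem_Ex.mp (e k).1.2) y
    refine (Finset.sum_le_sum h3).trans (le_of_eq ?_)
    rw [Finset.sum_const, Finset.card_univ, nsmul_eq_mul]
  have h3 : 1 ≤ ‖σ (δ : K)‖ * T := hlow (InfinitePlace.mk σ)
  have h4 : ‖y‖ ^ c * ‖y‖ ^ d ≤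
      ‖y‖ ^ c * ((Fintype.card (Ex N n) * S₂ * T) * ‖actC σ G y‖) := by
    rw [← pow_add, ← hn]
    have hp : 0 ≤ ‖y‖ ^ n := by positivity
    calc ‖y‖ ^ n = 1 * ‖y‖ ^ n := (one_mul _).symm
      _ ≤ (‖σ (δ : K)‖ * T) * ‖y‖ ^ n := mul_le_mul_of_nonneg_right h3 hp
      _ = (‖σ (δ : K)‖ * ‖y‖ ^ n) * T := by ring
      _ ≤ ((Fintype.card (Ex N n) : ℝ) * (S₂ * (‖y‖ ^ c * ‖actC σ G y‖))) * T :=
        mul_le_mul_of_nonneg_right h2 hT
      _ = _ := by ring
  exact le_of_mul_le_mul_left h4 (by positivity)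

lemma lof_of {G : Fin (N + 1) → MvPolynomial (Fin (N + 1)) K} {d c n a : ℕ} (hd : 1 ≤ d)
    (hn : n = c + d) {e : Ex N n → Ex N c × Fin (N + 1)} {δ b : 𝓞 K}
    {u : Ex N n → Fin (N + 1) → K} (hu : ∀ k i, IsIntegral ℤ (u k i))
    (hcr : ∀ i, C (δ : K) * X i ^ n =
        ∑ k : Ex N n, C (u k i) * (monomial (e k).1.1 1 * G (e k).2))
    (hb : (a : 𝓞 K) = δ * b) (L : Type) [Field L] [NumberField L] [Algebra K L]
    (v : FinitePlace L) (z : Fin (N + 1) → L) :
    v (a : L) * nmf v z ^ d ≤ nmf v (act G z) := by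
  rcases eq_or_ne z 0 with rfl | hz
  · have h0 : nmf v (0 : Fin (N + 1) → L) = 0 := by
      apply le_antisymm
      · exact nmf_le fun i => by simp
      · exact nmf_nonneg _ _
    rw [h0, zero_pow (by omega), mul_zero]
    exact nmf_nonneg _ _
  have hz0 := nmf_pos v hz
  obtain ⟨i, hi⟩ : ∃ i, nmf v z = v (z i) := by
    obtain ⟨i, hi⟩ := exists_eq_ciSup_of_finite (f := fun i => v (z i))
    exact ⟨i, hi.symm⟩
  have h1 := congrArg (aeval z) (hcr i)
  rw [map_mul, map_pow, map_sum, aeval_X, aeval_C] at h1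
  have h2 : v (algebraMap K L (δ : K)) * nmf v z ^ n ≤ nmf v z ^ c * nmf v (act G z) := by
    rw [hi, ← map_pow, ← map_mul, h1, ← hi]
    refine v_sum_le v _ _ (mul_nonneg (pow_nonneg hz0.le _) (nmf_nonneg _ _)) fun k _ => ?_
    rw [map_mul, map_mul, map_mul, map_mul, aeval_C]
    have h3 : v (algebraMap K L (u k i)) ≤ 1 := v_int_le v ((hu k i).algebraMap)
    have h4 : v (aeval z (monomial (e k).1.1 (1 : K))) ≤ nmf v z ^ c := by
      apply v_eval_le v (isHomogeneous_monomial _ (mem_Ex.mp (e k).1.2))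
      intro s
      rw [coeff_monomial]
      split_ifs
      · exact isIntegral_one
      · exact isIntegral_zero
    have h5 : v (aeval z (G (e k).2)) ≤ nmf v (act G z) := le_nmf v (act G z) _
    calc _ ≤ 1 * (nmf v z ^ c * nmf v (act G z)) :=
          mul_le_mul h3 (mul_le_mul h4 h5 (v_nonneg v _) (by positivity))
            (mul_nonneg (v_nonneg v _) (v_nonneg v _)) zero_le_one
      _ = _ := one_mul _
  have h3 : v (a : L) ≤ v (algebraMap K L (δ : K)) := by
    have h4 : (a : L) = algebraMap K L (δ : K) * algebraMap K L (b : K) := by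
      have h5 := congrArg (fun x : 𝓞 K => algebraMap K L (x : K)) hb
      simpa using h5
    rw [h4, map_mul]
    have h5 : v (algebraMap K L (b : K)) ≤ 1 :=
      v_int_le v ((RingOfIntegers.isIntegral_coe b).algebraMap)
    calc _ ≤ v (algebraMap K L (δ : K)) * 1 := mul_le_mul_of_nonneg_left h5 (v_nonneg v _)
      _ = _ := mul_one _
  have h4 : nmf v z ^ c * (v (a : L) * nmf v z ^ d) ≤ nmf v z ^ c * nmf v (act G z) := by
    refine le_trans ?_ h2
    rw [hn, pow_add]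
    calc nmf v z ^ c * (v (a : L) * nmf v z ^ d) = v (a : L) * (nmf v z ^ c * nmf v z ^ d) := by
          ring
      _ ≤ _ := mul_le_mul_of_nonneg_right h3 (by positivity)
  exact le_of_mul_le_mul_left h4 (by positivity)

/-- the constant -/
def KC (p r D : ℕ) : ℝ :=
  Real.log (p + r + 1 : ℕ) + 1 + (2 * D + 1) * (Real.log r.factorial + r)

lemma size_of {p r D a : ℕ} {S : ℝ} (hS : 1 ≤ S) (ha1 : 1 ≤ a)
    (hup : (a : ℝ) ≤ (r.factorial * S ^ r) ^ D) :
    hC ((p + r + 1 : ℕ) * (S * (r.factorial * S ^ r) ^ (D + 1))) a ≤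
      KC p r D * (1 + Real.log S) := by
  have hfac : (1 : ℝ) ≤ r.factorial := by exact_mod_cast Nat.factorial_pos r
  have hf0 : (r.factorial : ℝ) ≠ 0 := by linarith
  have hS0 : S ≠ 0 := by linarith
  have hlS : 0 ≤ Real.log S := Real.log_nonneg hS
  have hlS₂ : Real.log (r.factorial * S ^ r) = Real.log r.factorial + r * Real.log S := by
    rw [Real.log_mul hf0 (pow_ne_zero _ hS0), Real.log_pow]
  have hlf : 0 ≤ Real.log r.factorial := Real.log_nonneg hfac
  have hla : Real.log a ≤ D * Real.log (r.factorial * S ^ r) := by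
    have h1 := Real.log_le_log (by exact_mod_cast ha1) hup
    rwa [Real.log_pow] at h1
  have hcardA : (1 : ℝ) ≤ (p + r + 1 : ℕ) := by
    exact_mod_cast Nat.le_add_left 1 (p + r)
  have hlc : 0 ≤ Real.log (p + r + 1 : ℕ) := Real.log_nonneg hcardA
  have hlA : Real.log ((p + r + 1 : ℕ) * (S * (r.factorial * S ^ r) ^ (D + 1))) =
      Real.log (p + r + 1 : ℕ) +
      (Real.log S + ((D + 1 : ℕ) : ℝ) * Real.log (r.factorial * S ^ r)) := by
    have h2 : (r.factorial : ℝ) * S ^ r ≠ 0 := mul_ne_zero hf0 (pow_ne_zero _ hS0)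
    rw [Real.log_mul (by linarith) (mul_ne_zero hS0 (pow_ne_zero _ h2)),
      Real.log_mul hS0 (pow_ne_zero _ h2), Real.log_pow]
  unfold hC KC
  rw [hlA]
  rw [hlS₂] at hla ⊢
  obtain ⟨x, hx⟩ : ∃ x : ℝ, x = Real.log (p + r + 1 : ℕ) := ⟨_, rfl⟩
  obtain ⟨f, hf⟩ : ∃ f : ℝ, f = Real.log r.factorial := ⟨_, rfl⟩
  obtain ⟨y, hy⟩ : ∃ y : ℝ, y = Real.log S := ⟨_, rfl⟩
  obtain ⟨t, ht⟩ : ∃ t : ℝ, t = Real.log a := ⟨_, rfl⟩
  rw [← hx] at hlc ⊢
  rw [← hf] at hlf hla ⊢
  rw [← hy] at hlS hla ⊢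
  rw [← ht] at hla ⊢
  push_cast
  have hD0 : (0 : ℝ) ≤ D := Nat.cast_nonneg _
  have hr0 : (0 : ℝ) ≤ r := Nat.cast_nonneg _
  have h1 : 0 ≤ x * y := mul_nonneg hlc hlS
  have h2 : 0 ≤ (2 * (D : ℝ) + 1) * (f * y + r) := by positivity
  have e1 : (x + 1 + (2 * (D : ℝ) + 1) * (f + r)) * (1 + y) =
      (x + (y + ((D : ℝ) + 1) * (f + r * y)) + D * (f + r * y)) +
        (1 + x * y + (2 * (D : ℝ) + 1) * (f * y + r)) := by ring
  linarith

/-- **the local bounds with their size** -/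
theorem bds_of_full {G : Fin (N + 1) → MvPolynomial (Fin (N + 1)) K} {d c n D : ℕ} (hd : 1 ≤ d)
    (hD : finrank ℚ K ≤ D) (hG : ∀ i, (G i).IsHomogeneous d) (hn : n = c + d)
    (hint : ∀ i s, IsIntegral ℤ ((G i).coeff s)) (hfull : Full G n) {S : ℝ} (hS : 1 ≤ S)
    (hSz : ∀ (w : InfinitePlace K) i s, w ((G i).coeff s) ≤ S) :
    ∃ A a, Bds G d A a ∧
      hC A a ≤ KC (Fintype.card (Ex N d)) (Fintype.card (Ex N n)) D * (1 + Real.log S) := by
  obtain ⟨e, δ, u, hδ0, hδ, hui, hus, hcr⟩ := exists_cert hG hn hint hfull hS hSz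
  obtain ⟨r, hr⟩ : ∃ r, r = Fintype.card (Ex N n) := ⟨_, rfl⟩
  obtain ⟨p, hp⟩ : ∃ p, p = Fintype.card (Ex N d) := ⟨_, rfl⟩
  rw [← hr] at hδ hus
  have hfac : (1 : ℝ) ≤ r.factorial := by exact_mod_cast Nat.factorial_pos r
  have hS₂1 : (1 : ℝ) ≤ r.factorial * S ^ r :=
    one_le_mul_of_one_le_of_one_le hfac (one_le_pow₀ hS)
  obtain ⟨hlow, hup⟩ := int_lower hD hδ0 hS₂1 hδ
  obtain ⟨a, ha⟩ : ∃ a, a = (Ideal.span {δ}).absNorm := ⟨_, rfl⟩
  have ha1 : 1 ≤ a := by
    refine Nat.one_le_iff_ne_zero.mpr ?_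
    rw [ha, Ne, Ideal.absNorm_eq_zero_iff, Ideal.span_singleton_eq_bot]
    exact hδ0
  obtain ⟨b, hb⟩ : ∃ b : 𝓞 K, (a : 𝓞 K) = δ * b := by
    rw [ha]
    exact Ideal.mem_span_singleton.mp (Ideal.absNorm_mem (Ideal.span {δ}))
  rw [← ha] at hup
  have hsize := size_of (p := p) hS ha1 hup
  rw [← hp, ← hr]
  refine ⟨_, a, ?_, hsize⟩
  obtain ⟨S₂, hS₂⟩ : ∃ S₂ : ℝ, S₂ = r.factorial * S ^ r := ⟨_, rfl⟩
  rw [← hS₂] at hus hlow hS₂1 ⊢
  have hSp : 1 ≤ S₂ ^ (D + 1) := one_le_pow₀ hS₂1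
  have hS0 : 0 ≤ S := by linarith
  have hSS : 1 ≤ S * S₂ ^ (D + 1) := one_le_mul_of_one_le_of_one_le hS hSp
  have hcardA : (1 : ℝ) ≤ (p + r + 1 : ℕ) := by
    exact_mod_cast Nat.le_add_left 1 (p + r)
  have hpA : (p : ℝ) ≤ (p + r + 1 : ℕ) := by
    exact_mod_cast (by omega : p ≤ p + r + 1)
  have hrA : (r : ℝ) ≤ (p + r + 1 : ℕ) := by
    exact_mod_cast (by omega : r ≤ p + r + 1)
  have hcA0 : (0 : ℝ) ≤ (p + r + 1 : ℕ) := by linarith
  refine ⟨one_le_mul_of_one_le_of_one_le hcardA hSS, ha1, ?_, ?_, ?_, ?_⟩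
  · intro σ y
    refine (upC_of hG hS0 hSz σ y).trans ?_
    rw [← hp]
    refine mul_le_mul_of_nonneg_right ?_ (by positivity)
    exact mul_le_mul hpA (le_mul_of_one_le_right hS0 hSp) hS0 hcA0
  · intro σ y
    have hS₂0 : 0 ≤ S₂ := by linarith
    refine (loC_of hd hn hS₂0 (pow_nonneg hS₂0 D) hus hcr hlow σ y).trans ?_
    rw [← hr]
    refine mul_le_mul_of_nonneg_right ?_ (norm_nonneg _)
    rw [mul_assoc, ← pow_succ']
    exact mul_le_mul hrA (le_mul_of_one_le_left (by positivity) hS) (by positivity) hcA0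
  · intro L _ _ _ v z
    exact nmf_le fun i => v_eval_le v (hG i) (hint i) z
  · intro L _ _ _ v z
    exact lof_of hd hn hui hcr hb L v z

end

end Pool.Agent.H627.UB
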