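import Mathlib
import Pool.Agent.H627.UB.Sc
import Pool.Agent.H627.UB.Sz
import Pool.Agent.H627.LU.Cn
import Pool.Agent.H627.LU.Pr
import Pool.Agent.H627.LR.Gd
import Pool.Agent.H420R3.Main

/-!
The number of rational points of small canonical height.
-/

set_option autoImplicit false
set_option linter.unusedSectionVars false

namespace Pool.Agent.H627.UB

open NumberField Module MvPolynomial Filter Topology
open Pool.Agent.W238.Leh
open Pool.Agent.H627.LP hiding det_ineq det_ineq' local_gain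
open Pool.Agent.H627.LR (GR GoodRed GoodK)
open Pool.Agent.H627.LU
open Pool.Agent.H420R3 (mi nv nv_pos exists_frac v_lt_one_iff TP mem_TP)

noncomputable section

variable {K : Type} [Field K] [NumberField K] {N : ℕ}

/-- the value group is discrete -/
lemma v_le_of_lt (v : FinitePlace K) {z : K} (hz : v z < 1) : v z ≤ (nv v)⁻¹ := by
  rcases eq_or_ne z 0 with rfl | hz0
  · rw [map_zero]
    exact inv_nonneg.mpr (nv_pos v).le
  obtain ⟨x, y, hy, rfl⟩ := exists_frac v hz.le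
  have hvy : v (y : K) = 1 := H420R3.v_eq_one_of_notMem v hy
  rw [map_div₀, hvy, div_one] at hz ⊢
  have hx0 : x ≠ 0 := by
    rintro rfl
    simp at hz0
  rw [H420R3.v_eq v hx0] at hz ⊢
  have h1 : 1 < nv v := H420R3.one_lt_nv v
  have h2 : 1 ≤ multiplicity (mi v) (Ideal.span {x}) := by
    by_contra hcon
    have h3 : multiplicity (mi v) (Ideal.span {x}) = 0 := by omega
    rw [h3, pow_zero, inv_one] at hz
    exact lt_irrefl _ hz
  apply inv_anti₀ (nv_pos v)
  exact le_self_pow₀ h1.le (by omega)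

/-- rational points in the same residue class are close -/
lemma near_rat (v : FinitePlace K) {x y : Fin (N + 1) → K} (hx : x ≠ 0) (hy : y ≠ 0)
    (h : cls v x = cls v y) : Near v (Real.exp (-Real.log (nv v))) x y := by
  have hCl : Cl v (Real.exp (-Real.log (nv v))) ((x (ix v x))⁻¹ • x) ((y (ix v y))⁻¹ • y) := by
    refine ⟨nmf_nr v hx, nmf_nr v hy, fun i => ?_⟩
    rw [Real.exp_neg, Real.exp_log (nv_pos v)]
    exact v_le_of_lt v (lt_of_cls v hx hy h i)
  exact hCl.near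

lemma classes_rat (v : FinitePlace K) {ι : Type} [Fintype ι] [DecidableEq ι]
    {p : ι → Fin (N + 1) → K} (hp : ∀ i, p i ≠ 0) {t : ℕ}
    (ht : (mi v).absNorm ^ (N + 1) ≤ t) : Classes v p ∅ t (Real.log (nv v)) := by
  classical
  have hfin : Finite (𝓞 K ⧸ mi v) :=
    Ideal.finiteQuotientOfFreeOfNeBot (mi v) (H420R3.mi_ne_bot v)
  let : Fintype (𝓞 K ⧸ mi v) := Fintype.ofFinite _
  refine ⟨Fin (N + 1) → 𝓞 K ⧸ mi v, fun i => cls v (p i), Finset.univ, ?_,
    fun i _ => Finset.mem_univ _, ?_⟩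
  · rw [Finset.card_univ, Fintype.card_fun, Fintype.card_fin]
    refine le_trans (le_of_eq ?_) ht
    rw [Ideal.absNorm_apply, Submodule.cardQuot_apply, Nat.card_eq_fintype_card]
  · intro i i' _ _ h
    exact near_rat v (hp i) (hp i') h

section scale

variable {G : Fin (N + 1) → MvPolynomial (Fin (N + 1)) K} {q : ℕ} {κ : K}

lemma iter_Sm (hκ : κ ≠ 0) (hG : ∀ i, (G i).IsHomogeneous q) (z : Fin (N + 1) → K) (n : ℕ) :
    ∃ c : K, c ≠ 0 ∧ (act (Sm κ G))^[n] z = c • (act G)^[n] z := by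
  induction n with
  | zero => exact ⟨1, one_ne_zero, (one_smul _ _).symm⟩
  | succ n ih =>
    obtain ⟨c, hc, hc'⟩ := ih
    refine ⟨κ * c ^ q, mul_ne_zero hκ (pow_ne_zero _ hc), ?_⟩
    rw [Function.iterate_succ_apply', hc', act_Sm, act_smul hG, smul_smul,
      Function.iterate_succ_apply']
    rfl

lemma lim_Sm (hκ : κ ≠ 0) (hG : ∀ i, (G i).IsHomogeneous q) (hq : 2 ≤ q) {A : ℝ} {a : ℕ}
    (hB : Bds (Sm κ G) q A a) {x : Fin (N + 1) → K} (hx : x ≠ 0) :
    Tendsto (fun n : ℕ => Height.logHeight ((act G)^[n] x) /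
        ((finrank ℚ K : ℝ) * (q : ℝ) ^ n)) atTop (𝓝 (canH (Sm κ G) q x)) := by
  refine (hB.canH_tendsto hq hx).congr fun n => ?_
  obtain ⟨c, hc, h⟩ := iter_Sm hκ hG x n
  rw [h, Height.logHeight_smul_eq_logHeight _ hc]

end scale

/-- **the inequality for rational points** -/
theorem rat_ineq {H : Fin (N + 1) → MvPolynomial (Fin (N + 1)) K} {d c a D t : ℕ} {A : ℝ}
    (hB : Bds H d A a) (hd : 2 ≤ d) (hH : ∀ i, (H i).IsHomogeneous d)
    (hfull : Full H (c + d)) {v : FinitePlace K} (hLG : LG v H) (hD : finrank ℚ K ≤ D)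
    (ht : (mi v).absNorm ^ (N + 1) ≤ t) {ι : Type} [Fintype ι] [Nonempty ι] [DecidableEq ι]
    {p : ι → Fin (N + 1) → K} {a₀ : Fin (N + 1)} (hpa : ∀ i, p i a₀ = 1)
    (hinj : Function.Injective p) {η : ℝ} (hη : ∀ i, canH H d (p i) ≤ η) (hη0 : 0 ≤ η)
    {e : ℕ} (he1 : 1 ≤ e) (he : hC A a * (c + d : ℕ) ≤ e) :
    ∃ h : ℕ → ℕ, (∀ n, min (Fintype.card ι) (n + 1) ≤ h n) ∧ (∀ n, h n ≤ (n + 1) ^ N) ∧
      ∀ n s : ℕ, s * ((Real.log 2 / D) / e * (h n / (1 : ℕ) - (t : ℕ) * h (N * s))) ≤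
        h n * (n * (η / e) + 1 * (1 + Nat.log 2 n : ℕ) + Real.log (h n)) := by
  have hp0 : ∀ i, p i ≠ 0 := by
    intro i h0
    have h1 := hpa i
    rw [h0] at h1
    exact zero_ne_one h1
  obtain ⟨h, hh⟩ : ∃ h : ℕ → ℕ, h = fun n => finrank K (EL K p n) := ⟨_, rfl⟩
  have hlb : ∀ n, min (Fintype.card ι) (n + 1) ≤ h n := by
    intro n
    rw [hh]
    exact le_finrank_EL (K := K) hpa hinj n
  refine ⟨h, hlb, fun n => by rw [hh]; exact finrank_EL_le hpa n, ?_⟩
  intro n s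
  have hM1 : 1 ≤ Fintype.card ι := Fintype.card_pos
  have hr1 : 1 ≤ h n := le_trans (le_min hM1 (by omega)) (hlb n)
  obtain ⟨ℓ, hℓ⟩ : ∃ ℓ : ℝ, ℓ = Real.log (nv v) := ⟨_, rfl⟩
  have hℓpos : 0 < ℓ := by
    rw [hℓ]
    exact H420R3.log_nv_pos v
  have hcl : ∀ v' ∈ ({v} : Finset (FinitePlace K)), Classes v' p ((fun _ => ∅) v') t
      ((fun _ => ℓ) v') := by
    intro v' hv'
    rw [Finset.mem_singleton] at hv'
    rw [hv', hℓ]
    exact classes_rat v hp0 ht
  have hmain := hilb_ineq' hB hd hH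
    (fun m hm p hp => (hfull.mono hm) p hp) hp0 ({v} : Finset (FinitePlace K))
    (fun v' hv' => by rw [Finset.mem_singleton] at hv'; rw [hv']; exact hLG)
    (fun _ => ℓ) (fun _ _ => hℓpos) (fun _ => ∅) hcl (w₀ := ℓ)
    (fun i => by simp) hη n s (by rw [hh] at hr1; exact hr1)
  rw [Finset.sum_singleton] at hmain
  have hrn : finrank K (EL K p n) = h n := by rw [hh]
  have hrs : finrank K (EL K p (N * s)) = h (N * s) := by rw [hh]
  rw [hrn, hrs] at hmain
  obtain ⟨r, hr⟩ : ∃ r : ℝ, r = h n := ⟨_, rfl⟩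
  obtain ⟨ρ, hρ⟩ : ∃ ρ : ℝ, ρ = h (N * s) := ⟨_, rfl⟩
  obtain ⟨X, hX⟩ : ∃ X : ℝ, X = (1 + Nat.log 2 n : ℕ) := ⟨_, rfl⟩
  have hX0 : 0 ≤ X := by
    rw [hX]
    exact Nat.cast_nonneg _
  have hr1' : 1 ≤ r := by
    rw [hr]
    exact_mod_cast hr1
  have hlr : 0 ≤ Real.log r := Real.log_nonneg hr1'
  rw [← hr, ← hρ, ← hX] at hmain ⊢
  have he' : (1 : ℝ) ≤ e := by exact_mod_cast he1
  obtain ⟨δ, hδ⟩ : ∃ δ : ℝ, δ = finrank ℚ K := ⟨_, rfl⟩
  have hδ1 : 1 ≤ δ := by
    rw [hδ]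
    exact_mod_cast (finrank_pos : 0 < finrank ℚ K)
  have hδD : δ ≤ D := by
    rw [hδ]
    exact_mod_cast hD
  rw [← hδ] at hmain
  have hs0 : (0 : ℝ) ≤ s := Nat.cast_nonneg _
  have hn0 : (0 : ℝ) ≤ n := Nat.cast_nonneg _
  -- the right hand side
  have hRHS : r * (n * η + hC A a * ((c + d : ℕ) * X) + Real.log r) ≤
      e * (r * (n * (η / e) + 1 * X + Real.log r)) := by
    have h1 : hC A a * ((c + d : ℕ) * X) ≤ e * X := by
      calc hC A a * ((c + d : ℕ) * X) = (hC A a * (c + d : ℕ)) * X := by ring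
        _ ≤ e * X := mul_le_mul_of_nonneg_right he hX0
    have h2 : Real.log r ≤ e * Real.log r := le_mul_of_one_le_left hlr he'
    calc r * (n * η + hC A a * ((c + d : ℕ) * X) + Real.log r) ≤
        r * (n * η + e * X + e * Real.log r) :=
          mul_le_mul_of_nonneg_left (by linarith) (by linarith)
      _ = _ := by
        field_simp
  have h3 : s * (ℓ * (r - t * ρ)) ≤ δ * (e * (r * (n * (η / e) + 1 * X + Real.log r))) := by
    have h4 := mul_le_mul_of_nonneg_left hRHS (by linarith : 0 ≤ δ)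
    calc s * (ℓ * (r - t * ρ)) = s * (r * ℓ - ℓ * (t * ρ)) := by ring
      _ ≤ δ * (r * (n * η + hC A a * ((c + d : ℕ) * X) + Real.log r)) := hmain
      _ ≤ _ := h4
  have hR0 : 0 ≤ r * (n * (η / e) + 1 * X + Real.log r) := by positivity
  rcases le_total (r - t * ρ) 0 with h4 | h4
  · refine le_trans ?_ hR0
    apply mul_nonpos_of_nonneg_of_nonpos hs0
    apply mul_nonpos_of_nonneg_of_nonpos
    · have : 0 ≤ Real.log 2 := Real.log_nonneg (by norm_num)
      positivity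
    · simpa using h4
  · have hl2 : Real.log 2 ≤ ℓ := by
      rw [hℓ]
      apply Real.log_le_log (by norm_num)
      have h5 : 1 < (mi v).absNorm := by
        have := H420R3.one_lt_nv v
        unfold H420R3.nv at this
        exact_mod_cast this
      have h6 : 2 ≤ (mi v).absNorm := h5
      unfold H420R3.nv
      exact_mod_cast h6
    have hl20 : 0 < Real.log 2 := Real.log_pos (by norm_num)
    have hD0 : (0 : ℝ) < D := by linarith
    have h5 : Real.log 2 / D ≤ ℓ / δ := by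
      rw [div_le_div_iff₀ hD0 (by linarith)]
      exact mul_le_mul hl2 hδD (by linarith) hℓpos.le
    calc s * ((Real.log 2 / D) / e * (r / (1 : ℕ) - (t : ℕ) * ρ)) =
        (Real.log 2 / D) * (s * (r - t * ρ) / e) := by
          push_cast
          ring
      _ ≤ (ℓ / δ) * (s * (r - t * ρ) / e) := by
          apply mul_le_mul_of_nonneg_right h5
          positivity
      _ = (s * (ℓ * (r - t * ρ))) / (δ * e) := by
          field_simp
      _ ≤ (δ * (e * (r * (n * (η / e) + 1 * X + Real.log r)))) / (δ * e) := by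
          apply div_le_div_of_nonneg_right h3
          positivity
      _ = _ := by
          have h6 : δ ≠ 0 := by linarith
          have h7 : (e : ℝ) ≠ 0 := by linarith
          field_simp

end

end Pool.Agent.H627.UB
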