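import Mathlib
import Pool.Agent.H627.UB.Rt

/-!
The number of rational points of small canonical height: the final count.
-/

set_option autoImplicit false
set_option linter.unusedSectionVars false

namespace Pool.Agent.H627.UB

open NumberField Module MvPolynomial Filter Topology
open Pool.Agent.W238.Leh
open Pool.Agent.H627.LP hiding det_ineq det_ineq' local_gain
open Pool.Agent.H627.LR (GR GoodRed GoodK)
open Pool.Agent.H627.LU
open Pool.Agent.H420R3 (mi nv nv_pos)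

noncomputable section

variable {K : Type} [Field K] [NumberField K] {N : ℕ}

lemma gr_of {v : FinitePlace K} {F : Fin (N + 1) → MvPolynomial (Fin (N + 1)) K} {q : ℕ}
    (h : GoodRed v F) (hF : ∀ i, (F i).IsHomogeneous q) (hq : 1 ≤ q) : GR (M := K) v F q := by
  obtain ⟨hint, n, U, hU, hred⟩ := h
  refine ⟨fun i m => ?_, fun x => ?_⟩
  · rw [coeff_map]
    exact hint i m
  · have key : ∀ w : Fin (N + 1) → K, nmf v w = 1 → nmf v (act F w) = 1 := by
      intro w hw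
      have hw' : ∀ i, v (w i) ≤ 1 := fun i => (le_nmf v w i).trans hw.le
      apply le_antisymm
      · exact nmf_le fun i => eval_small v zero_le_one (fun m => hint i m) hw'
      · obtain ⟨j, hj⟩ := exists_nmf (v := v) w
        have h1 := congrArg (aeval w) (hred j)
        rw [map_pow, aeval_X, map_sum] at h1
        have h2 : v (w j ^ n) = 1 := by
          rw [map_pow, hj, hw, one_pow]
        rw [← h2, h1]
        refine v_sum_le v _ _ (nmf_nonneg v _) fun i _ => ?_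
        rw [map_mul, map_mul]
        calc v (aeval w (U j i)) * v (aeval w (F i)) ≤ 1 * nmf v (act F w) :=
              mul_le_mul (eval_small v zero_le_one (fun m => hU j i m) hw')
                (le_nmf v (act F w) i) (v_nonneg v _) zero_le_one
          _ = _ := one_mul _
    by_cases hx : x = 0
    · have h1 : act F x = (0 : K) ^ q • act F (0 : Fin (N + 1) → K) := by
        rw [hx, ← act_smul hF, zero_smul]
      have h2 : nmf v (0 : Fin (N + 1) → K) = 0 := by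
        apply le_antisymm
        · exact nmf_le fun i => by simp
        · exact nmf_nonneg _ _
      rw [h1, zero_pow (by omega), zero_smul, h2, hx, h2, zero_pow (by omega)]
    · obtain ⟨i₀, hi₀⟩ := exists_nmf (v := v) x
      have hpos := nmf_pos v hx
      have h1 : nmf v ((x i₀)⁻¹ • x) = 1 := by
        rw [nmf_smul, map_inv₀, hi₀, inv_mul_cancel₀ hpos.ne']
      have h2 := key _ h1
      rw [act_smul hF, nmf_smul, map_pow, map_inv₀, hi₀, inv_pow] at h2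
      have h3 : 0 < nmf v x ^ q := by positivity
      field_simp at h2
      exact h2

lemma mor_of {v : FinitePlace K} {F : Fin (N + 1) → MvPolynomial (Fin (N + 1)) K}
    (h : GoodRed v F) (z : Fin (N + 1) → AlgebraicClosure K)
    (hz : ∀ i, aeval z (F i) = 0) : z = 0 := by
  obtain ⟨hint, n, U, hU, hred⟩ := h
  funext j
  have h1 := congrArg (aeval z) (hred j)
  rw [map_pow, aeval_X, map_sum] at h1
  have h2 : ∑ i, aeval z (U j i * F i) = 0 := by
    refine Finset.sum_eq_zero fun i _ => ?_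
    rw [map_mul, hz i, mul_zero]
  rw [h2] at h1
  exact eq_zero_of_pow_eq_zero h1

/-- a scalar multiple of a tuple of forms, with bounded constants -/
theorem exists_bds' {d n₀ D : ℕ} (hd : 1 ≤ d) (hn₀ : d ≤ n₀) (hD : finrank ℚ K ≤ D)
    (hnull : ∀ F : Fin (N + 1) → MvPolynomial (Fin (N + 1)) K, (∀ i, (F i).IsHomogeneous d) →
      (∀ z : Fin (N + 1) → AlgebraicClosure K, (∀ i, aeval z (F i) = 0) → z = 0) → Full F n₀)
    {F : Fin (N + 1) → MvPolynomial (Fin (N + 1)) K} (hF : ∀ i, (F i).IsHomogeneous d)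
    (hmor : ∀ z : Fin (N + 1) → AlgebraicClosure K, (∀ i, aeval z (F i) = 0) → z = 0) :
    ∃ (κ : K) (A : ℝ) (a : ℕ), κ ≠ 0 ∧ Bds (Sm κ F) d A a ∧
      (∀ i s, IsIntegral ℤ ((Sm κ F i).coeff s)) ∧ Full (Sm κ F) n₀ ∧
      hC A a ≤ KC (Fintype.card (Ex N d)) (Fintype.card (Ex N n₀)) D *
        (1 + (Fintype.card (Fin (N + 1) × Ex N d) + 1) * Height.logHeight (cof d F)) := by
  classical
  obtain ⟨j, hj⟩ : ∃ j, cof d F j ≠ 0 := by
    by_contra hcon
    push Not at hcon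
    have h1 : ∀ i, F i = 0 := by
      intro i
      rw [expand (hF i)]
      refine Finset.sum_eq_zero fun γ _ => ?_
      have h2 : (F i).coeff γ.1 = 0 := hcon (i, γ)
      rw [h2, monomial_zero]
    have h2 := hmor (fun _ => 1) (fun i => by rw [h1 i, map_zero])
    have h3 := congrFun h2 0
    exact one_ne_zero h3
  obtain ⟨b, hb1, hbl, hbint, hbsz⟩ := exists_scalar (cof d F) j
  obtain ⟨κ, hκ⟩ : ∃ κ : K, κ = b / cof d F j := ⟨_, rfl⟩
  have hb0 : (b : K) ≠ 0 := by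
    have : b ≠ 0 := by omega
    exact_mod_cast this
  have hκ0 : κ ≠ 0 := by
    rw [hκ]
    exact div_ne_zero hb0 hj
  have hco : ∀ i s, (Sm κ F i).coeff s = 0 ∨ ∃ p, (Sm κ F i).coeff s =
      (b : K) * (cof d F p / cof d F j) := by
    intro i s
    by_cases h0 : (F i).coeff s = 0
    · left
      rw [Sm, coeff_C_mul, h0, mul_zero]
    · right
      refine ⟨(i, ⟨s, mem_Ex.mpr (deg_of_coeff (hF i) h0)⟩), ?_⟩
      have hc : cof d F (i, ⟨s, mem_Ex.mpr (deg_of_coeff (hF i) h0)⟩) = (F i).coeff s := rfl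
      rw [Sm, coeff_C_mul, hκ, hc]
      ring
  have hint : ∀ i s, IsIntegral ℤ ((Sm κ F i).coeff s) := by
    intro i s
    rcases hco i s with h | ⟨p, h⟩
    · rw [h]
      exact isIntegral_zero
    · rw [h]
      exact hbint p
  obtain ⟨Λ, hΛ⟩ : ∃ Λ : ℝ, Λ = Height.logHeight (cof d F) := ⟨_, rfl⟩
  have hΛ0 : 0 ≤ Λ := by
    rw [hΛ]
    exact Height.logHeight_nonneg _
  obtain ⟨τ, hτ⟩ : ∃ τ : ℕ, τ = Fintype.card (Fin (N + 1) × Ex N d) := ⟨_, rfl⟩
  rw [← hΛ, ← hτ] at hbl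
  rw [← hΛ] at hbsz
  have hS : 1 ≤ Real.exp ((τ + 1) * Λ) := Real.one_le_exp (by positivity)
  have hsz : ∀ (w : InfinitePlace K) i s, w ((Sm κ F i).coeff s) ≤ Real.exp ((τ + 1) * Λ) := by
    intro w i s
    rcases hco i s with h | ⟨p, h⟩
    · rw [h, map_zero]
      positivity
    · rw [h, map_mul, w_natCast]
      have h1 : (b : ℝ) ≤ Real.exp (τ * Λ) := by
        rw [← Real.log_le_iff_le_exp (by exact_mod_cast (by omega : 0 < b))]
        exact hbl
      calc (b : ℝ) * w (cof d F p / cof d F j) ≤ Real.exp (τ * Λ) * Real.exp Λ :=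
            mul_le_mul h1 (hbsz w p) (apply_nonneg w _) (Real.exp_pos _).le
        _ = _ := by
          rw [← Real.exp_add]
          congr 1
          ring
  have hmor' : ∀ z : Fin (N + 1) → AlgebraicClosure K,
      (∀ i, aeval z (Sm κ F i) = 0) → z = 0 := by
    intro z hz
    apply hmor z
    intro i
    have h1 := hz i
    rw [Sm, map_mul, aeval_C] at h1
    refine (mul_eq_zero.mp h1).resolve_left ?_
    rw [FaithfulSMul.algebraMap_eq_zero_iff]
    exact hκ0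
  have hfull := hnull (Sm κ F) (fun i => Sm_hom hF i) hmor'
  obtain ⟨A, a, hB, hs⟩ := bds_of_full (c := n₀ - d) hd hD (fun i => Sm_hom hF i) (by omega)
    hint hfull hS hsz
  rw [Real.log_exp] at hs
  exact ⟨κ, A, a, hκ0, hB, hint, hfull, by rw [← hΛ, ← hτ]; exact hs⟩

lemma KC_nonneg (p r D : ℕ) : 0 ≤ KC p r D := by
  unfold KC
  have h1 : 0 ≤ Real.log (p + r + 1 : ℕ) := Real.log_natCast_nonneg _
  have h2 : 0 ≤ Real.log r.factorial := Real.log_natCast_nonneg _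
  positivity

/-- **the count** -/
theorem count (N d D Q : ℕ) (hN : 1 ≤ N) (hd : 2 ≤ d) {ε : ℝ} (hε : 0 < ε) :
    ∃ C : ℝ, 0 < C ∧ ∀ (K : Type) [Field K] [NumberField K], finrank ℚ K ≤ D →
      ∀ v : FinitePlace K, (mi v).absNorm ≤ Q →
      ∀ F : Fin (N + 1) → MvPolynomial (Fin (N + 1)) K, (∀ i, (F i).IsHomogeneous d) →
      GoodRed v F → ∀ S : Finset (Fin (N + 1) → K), (∀ x ∈ S, x ≠ 0) →
      (∀ x ∈ S, ∀ y ∈ S, ∀ c : K, x = c • y → x = y) →
      (∀ x ∈ S, ∃ h : ℝ, Tendsto (fun n : ℕ => Height.logHeight ((act F)^[n] x) /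
        ((finrank ℚ K : ℝ) * (d : ℝ) ^ n)) atTop (𝓝 h) ∧ h ≤ 1 / C) →
      (S.card : ℝ) ≤ C * (1 + Height.logHeight (cof d F)) ^ ((N : ℝ) + ε) := by
  obtain ⟨n₀, hn₀, hnull⟩ := uniform_null N d
  obtain ⟨t, ht⟩ : ∃ t : ℕ, t = Q ^ (N + 1) + 1 := ⟨_, rfl⟩
  have hl2 : 0 < Real.log 2 := Real.log_pos (by norm_num)
  have hlP : 0 < Real.log 2 / ((D + 1 : ℕ) : ℝ) := by positivity
  obtain ⟨C₁, w, hC₁, hpar⟩ := params hlP zero_le_one hε hN
  obtain ⟨R, hR⟩ : ∃ R : ℝ, R = C₁ * ((1 * t : ℕ) : ℝ) ^ w := ⟨_, rfl⟩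
  have hR0 : 0 < R := by
    rw [hR]
    have : (0 : ℝ) < ((1 * t : ℕ) : ℝ) := by
      rw [ht]
      positivity
    positivity
  obtain ⟨κ₁, hκ₁⟩ : ∃ κ₁ : ℝ, κ₁ = KC (Fintype.card (Ex N d)) (Fintype.card (Ex N n₀)) (D + 1) :=
    ⟨_, rfl⟩
  have hκ₁0 : 0 ≤ κ₁ := by
    rw [hκ₁]
    exact KC_nonneg _ _ _
  obtain ⟨τ, hτ⟩ : ∃ τ : ℕ, τ = Fintype.card (Fin (N + 1) × Ex N d) := ⟨_, rfl⟩
  obtain ⟨K₂, hK₂⟩ : ∃ K₂ : ℝ, K₂ = κ₁ * (τ + 1) * n₀ + 2 := ⟨_, rfl⟩
  have hK₂0 : 0 < K₂ := by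
    rw [hK₂]
    positivity
  obtain ⟨C, hCd⟩ : ∃ C : ℝ, C = ((N : ℝ) + 1) * (R * K₂ ^ ((N : ℝ) + ε)) + R + 1 := ⟨_, rfl⟩
  have hCR : R < C := by
    rw [hCd]
    have : 0 ≤ ((N : ℝ) + 1) * (R * K₂ ^ ((N : ℝ) + ε)) := by positivity
    linarith
  have hC0 : 0 < C := hR0.trans hCR
  refine ⟨C, hC0, ?_⟩
  intro K _ _ hKD v hvQ F hF hred S hS0 hSp hSh
  classical
  have hKD' : finrank ℚ K ≤ D + 1 := by omega
  obtain ⟨κ, A, a, hκ0, hB, _, hfull, hsize⟩ := exists_bds' (by omega) hn₀ hKD' (hnull K) hF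
    (mor_of hred)
  obtain ⟨Λ, hΛ⟩ : ∃ Λ : ℝ, Λ = Height.logHeight (cof d F) := ⟨_, rfl⟩
  have hΛ0 : 0 ≤ Λ := by
    rw [hΛ]
    exact Height.logHeight_nonneg _
  rw [← hΛ, ← hτ, ← hκ₁] at hsize
  rw [← hΛ]
  have hLG : LG v (Sm κ F) := LG_of hF (gr_of hred hF (by omega))
  have hfull' : Full (Sm κ F) ((n₀ - d) + d) := by
    rw [Nat.sub_add_cancel hn₀]
    exact hfull
  obtain ⟨e, he⟩ : ∃ e : ℕ, e = ⌈κ₁ * (τ + 1) * n₀ * (1 + Λ)⌉₊ + 1 := ⟨_, rfl⟩
  have he1 : 1 ≤ e := by omega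
  have hCE : hC A a * ((n₀ - d + d : ℕ) : ℝ) ≤ κ₁ * (τ + 1) * n₀ * (1 + Λ) := by
    rw [Nat.sub_add_cancel hn₀]
    calc hC A a * (n₀ : ℝ) ≤ (κ₁ * (1 + (τ + 1) * Λ)) * n₀ :=
          mul_le_mul_of_nonneg_right hsize (Nat.cast_nonneg _)
      _ ≤ (κ₁ * ((τ + 1) * (1 + Λ))) * n₀ := by
          apply mul_le_mul_of_nonneg_right _ (Nat.cast_nonneg _)
          apply mul_le_mul_of_nonneg_left _ hκ₁0
          have : (0 : ℝ) ≤ τ := Nat.cast_nonneg _
          nlinarith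
      _ = _ := by ring
  have he2 : hC A a * ((n₀ - d + d : ℕ) : ℝ) ≤ e := by
    rw [he]
    push_cast
    have := Nat.le_ceil (κ₁ * (τ + 1) * n₀ * (1 + Λ))
    push_cast at hCE
    linarith
  have he3 : (e : ℝ) ≤ K₂ * (1 + Λ) := by
    rw [he, hK₂]
    push_cast
    have h1 := Nat.ceil_lt_add_one (show 0 ≤ κ₁ * (τ + 1) * n₀ * (1 + Λ) by positivity)
    nlinarith
  have htP : (mi v).absNorm ^ (N + 1) ≤ t := by
    rw [ht]
    exact (Nat.pow_le_pow_left hvQ _).trans (Nat.le_succ _)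
  have ht1 : 1 ≤ t := by omega
  have hcanx : ∀ x ∈ S, canH (Sm κ F) d x ≤ 1 / C := by
    intro x hx
    obtain ⟨h, hlim, hh⟩ := hSh x hx
    rw [tendsto_nhds_unique (lim_Sm hκ0 hF hd hB (hS0 x hx)) hlim]
    exact hh
  -- the points with a nonzero coordinate
  have hpart : ∀ a₀ : Fin (N + 1), ((S.filter fun x => x a₀ ≠ 0).card : ℝ) ≤
      R * (e : ℝ) ^ ((N : ℝ) + ε) := by
    intro a₀
    rcases (S.filter fun x => x a₀ ≠ 0).eq_empty_or_nonempty with h0 | h0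
    · rw [h0, Finset.card_empty]
      push_cast
      positivity
    by_contra hcon
    push Not at hcon
    obtain ⟨x₀, hx₀⟩ := h0
    set ι : Type := {x // x ∈ S.filter fun x => x a₀ ≠ 0} with hι
    have hne : Nonempty ι := ⟨⟨x₀, hx₀⟩⟩
    set p : ι → Fin (N + 1) → K := fun i => (i.1 a₀)⁻¹ • i.1 with hp
    have hmem : ∀ i : ι, i.1 ∈ S ∧ i.1 a₀ ≠ 0 := fun i => Finset.mem_filter.mp i.2
    have hpa : ∀ i, p i a₀ = 1 := by
      intro i
      simp only [hp, Pi.smul_apply, smul_eq_mul]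
      exact inv_mul_cancel₀ (hmem i).2
    have hinj : Function.Injective p := by
      intro i j hij
      apply Subtype.ext
      refine hSp _ (hmem i).1 _ (hmem j).1 (i.1 a₀ * (j.1 a₀)⁻¹) ?_
      have h1 : (i.1 a₀)⁻¹ • i.1 = (j.1 a₀)⁻¹ • j.1 := hij
      rw [mul_smul, ← h1, smul_smul, mul_inv_cancel₀ (hmem i).2, one_smul]
    have hη : ∀ i, canH (Sm κ F) d (p i) ≤ 1 / C := by
      intro i
      simp only [hp]
      rw [canH_smul (fun i => Sm_hom hF i) (inv_ne_zero (hmem i).2)]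
      exact hcanx _ (hmem i).1
    obtain ⟨h, h1, h2, h3⟩ := rat_ineq (D := D + 1) (t := t) hB hd (fun i => Sm_hom hF i)
      hfull' hLG hKD' htP hpa hinj hη (by positivity) he1 he2
    have hcard : Fintype.card ι = (S.filter fun x => x a₀ ≠ 0).card := Fintype.card_coe _
    have hM1 : 1 ≤ Fintype.card ι := Fintype.card_pos
    have h4 := hpar 1 t le_rfl ht1 (Fintype.card ι) e hM1 he1 (1 / C / e) h h1 h2 h3 R
      (le_of_eq hR.symm) (by rw [hcard]; exact hcon.le)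
    have he' : (0 : ℝ) < e := by exact_mod_cast he1
    have h5 : 1 / R ≤ 1 / C := by
      have h6 := mul_le_mul_of_nonneg_right h4 he'.le
      have h7 : 1 / (R * e) * e = 1 / R := by field_simp
      have h8 : 1 / C / e * e = 1 / C := by field_simp
      rwa [h7, h8] at h6
    rw [div_le_div_iff₀ hR0 hC0] at h5
    linarith
  have hcov : S ⊆ Finset.univ.biUnion fun a₀ : Fin (N + 1) => S.filter fun x => x a₀ ≠ 0 := by
    intro x hx
    obtain ⟨a₀, ha₀⟩ : ∃ a₀, x a₀ ≠ 0 := Function.ne_iff.mp (hS0 x hx)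
    exact Finset.mem_biUnion.mpr ⟨a₀, Finset.mem_univ _, Finset.mem_filter.mpr ⟨hx, ha₀⟩⟩
  have hsum : (S.card : ℝ) ≤ ((N : ℝ) + 1) * (R * (e : ℝ) ^ ((N : ℝ) + ε)) := by
    have h1 : (S.card : ℝ) ≤ ∑ a₀ : Fin (N + 1), ((S.filter fun x => x a₀ ≠ 0).card : ℝ) := by
      exact_mod_cast (Finset.card_le_card hcov).trans Finset.card_biUnion_le
    refine h1.trans ((Finset.sum_le_sum fun a₀ _ => hpart a₀).trans (le_of_eq ?_))
    simp
  refine hsum.trans ?_
  have h1 : (e : ℝ) ^ ((N : ℝ) + ε) ≤ K₂ ^ ((N : ℝ) + ε) * (1 + Λ) ^ ((N : ℝ) + ε) := by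
    rw [← Real.mul_rpow hK₂0.le (by linarith)]
    exact Real.rpow_le_rpow (Nat.cast_nonneg _) he3 (by positivity)
  have h2 : 0 ≤ (1 + Λ) ^ ((N : ℝ) + ε) := by positivity
  calc ((N : ℝ) + 1) * (R * (e : ℝ) ^ ((N : ℝ) + ε)) ≤
      ((N : ℝ) + 1) * (R * (K₂ ^ ((N : ℝ) + ε) * (1 + Λ) ^ ((N : ℝ) + ε))) := by gcongr
    _ = (((N : ℝ) + 1) * (R * K₂ ^ ((N : ℝ) + ε))) * (1 + Λ) ^ ((N : ℝ) + ε) := by ring
    _ ≤ C * (1 + Λ) ^ ((N : ℝ) + ε) := by
      apply mul_le_mul_of_nonneg_right _ h2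
      rw [hCd]
      linarith

end

end Pool.Agent.H627.UB
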