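import Mathlib
import Pool.Agent.H627.UB.Rt

/-!
A small prime not dividing a given number, and a place above it.
-/

set_option autoImplicit false
set_option linter.unusedSectionVars false

namespace Pool.Agent.H627.UB

open NumberField Module MvPolynomial
open Pool.Agent.W238.Leh
open Pool.Agent.H627.LP hiding det_ineq det_ineq' local_gain
open Pool.Agent.H627.LR (GR)
open Pool.Agent.H420R3 (mi nv nv_pos)

noncomputable section

/-- a small prime not dividing `a` -/
lemma exists_prime_nat (a : ℕ) (ha : 1 ≤ a) :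
    ∃ p : ℕ, p.Prime ∧ ¬ p ∣ a ∧ p ≤ 8 * (Nat.log 2 a + 1) ^ 2 := by
  classical
  by_contra hcon
  push Not at hcon
  obtain ⟨m, hm⟩ : ∃ m, m = Nat.log 2 a + 1 := ⟨_, rfl⟩
  rw [← hm] at hcon
  have hm1 : 1 ≤ m := by omega
  have ham : a < 2 ^ m := by
    rw [hm]
    exact Nat.lt_pow_succ_log_self (by norm_num) a
  obtain ⟨n, hn⟩ : ∃ n, n = 4 * m ^ 2 := ⟨_, rfl⟩
  have hm2 : 1 ≤ m ^ 2 := Nat.one_le_pow _ _ hm1
  have hn1 : 1 ≤ n := by omega
  set s : Finset ℕ := (Finset.range (2 * n + 1)).filter Nat.Prime with hs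
  have hsp : ∀ p ∈ s, p.Prime ∧ p ≤ 2 * n := by
    intro p hp
    rw [hs, Finset.mem_filter, Finset.mem_range] at hp
    exact ⟨hp.2, by omega⟩
  have hdvd : ∏ p ∈ s, p ∣ a := by
    apply Finset.prod_primes_dvd
    · exact fun p hp => (hsp p hp).1.prime
    · intro p hp
      by_contra h1
      have h2 := hcon p (hsp p hp).1 h1
      have h3 := (hsp p hp).2
      omega
  have hle : ∏ p ∈ s, p ≤ a := Nat.le_of_dvd ha hdvd
  have h2s : 2 ^ s.card ≤ ∏ p ∈ s, p :=
    Finset.pow_card_le_prod s (fun p => p) 2 fun p hp => (hsp p hp).1.two_le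
  have hcard : s.card < m := by
    have h1 : 2 ^ s.card < 2 ^ m := lt_of_le_of_lt (h2s.trans hle) ham
    exact (Nat.pow_lt_pow_iff_right (by norm_num)).mp h1
  have hcb : n.centralBinom ≤ (2 * n) ^ s.card := by
    rw [← Nat.prod_pow_factorization_centralBinom n]
    have h1 : ∏ p ∈ Finset.range (2 * n + 1), p ^ (n.centralBinom).factorization p =
        ∏ p ∈ s, p ^ (n.centralBinom).factorization p := by
      rw [hs, Finset.prod_filter]
      refine Finset.prod_congr rfl fun p _ => ?_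
      split_ifs with hp
      · rfl
      · rw [Nat.factorization_eq_zero_of_not_prime _ hp, pow_zero]
    rw [h1]
    refine (Finset.prod_le_pow_card s _ (2 * n) fun p _ => ?_)
    rw [Nat.centralBinom_eq_two_mul_choose]
    exact Nat.pow_factorization_choose_le (by omega)
  have h4 := Nat.four_pow_le_two_mul_self_mul_centralBinom n (by omega)
  have h5 : 4 ^ n ≤ (2 * n) ^ m := by
    calc 4 ^ n ≤ 2 * n * n.centralBinom := h4
      _ ≤ 2 * n * (2 * n) ^ s.card := Nat.mul_le_mul_left _ hcb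
      _ = (2 * n) ^ (s.card + 1) := by rw [pow_succ]; ring
      _ ≤ (2 * n) ^ m := Nat.pow_le_pow_right (by omega) (by omega)
  have h6 : 4 ^ n = (4 ^ (4 * m)) ^ m := by
    rw [← pow_mul, hn]
    congr 1
    ring
  rw [h6] at h5
  have h7 : 4 ^ (4 * m) ≤ 2 * n := by
    by_contra h8
    push Not at h8
    exact absurd h5 (not_le.mpr (Nat.pow_lt_pow_left h8 (by omega)))
  have h8 : m ≤ 2 ^ m := Nat.lt_two_pow_self.le
  have h9 : m ^ 2 ≤ 4 ^ m := by
    calc m ^ 2 ≤ (2 ^ m) ^ 2 := Nat.pow_le_pow_left h8 2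
      _ = 4 ^ m := by
        rw [← pow_mul, mul_comm, pow_mul]
        norm_num
  have h10 : 4 ^ (4 * m) = 64 ^ m * 4 ^ m := by
    rw [pow_mul, ← mul_pow]
    norm_num
  have h11 : 64 ≤ 64 ^ m := Nat.le_self_pow (by omega) 64
  have h12 : 64 * 4 ^ m ≤ 64 ^ m * 4 ^ m := Nat.mul_le_mul_right _ h11
  have h13 : 1 ≤ 4 ^ m := Nat.one_le_pow _ _ (by norm_num)
  rw [h10] at h7
  omega

variable {K : Type} [Field K] [NumberField K] {N : ℕ}

/-- a place above a prime -/
lemma exists_place {p : ℕ} (hp : p.Prime) :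
    ∃ v : FinitePlace K, (p : 𝓞 K) ∈ mi v ∧ (mi v).absNorm ≤ p ^ finrank ℚ K := by
  have h1 : Ideal.span {(p : 𝓞 K)} ≠ ⊤ := by
    intro h
    have h2 := Ideal.absNorm_span_natCast (S := 𝓞 K) p
    rw [h, Ideal.absNorm_top] at h2
    have h3 : 1 < p ^ finrank ℤ (𝓞 K) :=
      Nat.one_lt_pow (finrank_pos (R := ℤ) (M := 𝓞 K)).ne' hp.one_lt
    omega
  obtain ⟨M, hM, hle⟩ := Ideal.exists_le_maximal _ h1
  have hpM : (p : 𝓞 K) ∈ M := hle (Ideal.mem_span_singleton_self _)
  have hp0 : (p : 𝓞 K) ≠ 0 := by exact_mod_cast hp.ne_zero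
  have hM0 : M ≠ ⊥ := by
    rintro rfl
    exact hp0 (by simpa using hpM)
  have hmi : mi (FinitePlace.mk (⟨M, hM.isPrime, hM0⟩ :
      IsDedekindDomain.HeightOneSpectrum (𝓞 K))) = M := by
    show (FinitePlace.mk _).maximalIdeal.asIdeal = M
    rw [FinitePlace.maximalIdeal_mk]
  refine ⟨FinitePlace.mk ⟨M, hM.isPrime, hM0⟩, ?_, ?_⟩
  · rw [hmi]
    exact hpM
  · rw [hmi]
    have h2 := Ideal.absNorm_dvd_absNorm_of_le hle
    rw [Ideal.absNorm_span_natCast, RingOfIntegers.rank] at h2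
    exact Nat.le_of_dvd (Nat.pow_pos hp.pos) h2

/-- good reduction from the bounds at a place not dividing `a` -/
lemma gr_of_bds {H : Fin (N + 1) → MvPolynomial (Fin (N + 1)) K} {d a : ℕ} {A : ℝ}
    (hB : Bds H d A a) (hint : ∀ i s, IsIntegral ℤ ((H i).coeff s)) {v : FinitePlace K}
    (hva : v (a : K) = 1) : GR (M := K) v H d := by
  refine ⟨fun i m => ?_, fun x => ?_⟩
  · rw [coeff_map]
    exact v_int_le v (hint i m)
  · apply le_antisymm (hB.upf K v x)
    have h1 := hB.lof K v x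
    rwa [hva, one_mul] at h1

/-- a place of small norm with good reduction -/
theorem exists_good {H : Fin (N + 1) → MvPolynomial (Fin (N + 1)) K} {d a : ℕ} {A : ℝ}
    (hB : Bds H d A a) (hint : ∀ i s, IsIntegral ℤ ((H i).coeff s)) :
    ∃ v : FinitePlace K, GR (M := K) v H d ∧
      (mi v).absNorm ≤ (8 * (Nat.log 2 a + 1) ^ 2) ^ finrank ℚ K := by
  obtain ⟨p, hp, hpa, hple⟩ := exists_prime_nat a hB.ha
  obtain ⟨v, hpv, hN⟩ := exists_place (K := K) hp
  refine ⟨v, gr_of_bds hB hint ?_, hN.trans (Nat.pow_le_pow_left hple _)⟩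
  have hco : IsCoprime (p : ℤ) (a : ℤ) :=
    Nat.isCoprime_iff_coprime.mpr ((Nat.Prime.coprime_iff_not_dvd hp).mpr hpa)
  have hnot : (a : 𝓞 K) ∉ mi v := by
    intro ha
    obtain ⟨x, y, hxy⟩ := hco
    have h1 : (1 : 𝓞 K) = (x : 𝓞 K) * (p : 𝓞 K) + (y : 𝓞 K) * (a : 𝓞 K) := by
      have h2 := congrArg (fun z : ℤ => (z : 𝓞 K)) hxy
      push_cast at h2
      exact h2.symm
    have h3 : (1 : 𝓞 K) ∈ mi v := by
      rw [h1]
      exact (mi v).add_mem ((mi v).mul_mem_left _ hpv) ((mi v).mul_mem_left _ ha)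
    have hprime : (mi v).IsPrime := inferInstance
    exact hprime.ne_top ((Ideal.eq_top_iff_one _).mpr h3)
  have h1 := H420R3.v_eq_one_of_notMem v hnot
  simpa using h1

end

end Pool.Agent.H627.UB
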