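import Mathlib
import Pool.Agent.H627.UB.Rt

/-!
Elements of bounded degree over the rationals at a finite place: the value group and the number of
residues.
-/

set_option autoImplicit false
set_option linter.unusedSectionVars false

namespace Pool.Agent.H627.UB

open NumberField Module Filter Topology
open Pool.Agent.W238.Leh
open Pool.Agent.H627.LP hiding det_ineq det_ineq' local_gain
open Pool.Agent.H627.LR (res res_spec res_eq)
open Pool.Agent.H420R3 (mi nv nv_pos exists_frac v_lt_one_iff)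

noncomputable section

variable {M : Type} [Field M] [NumberField M] (v : FinitePlace M)

lemma v_pos' {z : M} (hz : z ≠ 0) : 0 < v z :=
  lt_of_le_of_ne (by positivity) (fun h => hz ((map_eq_zero v).mp h.symm))

lemma v_natCast_le (n : ℕ) : v (n : M) ≤ 1 := by
  have h := H420R3.v_le_one v (n : 𝓞 M)
  simpa using h

lemma v_intCast_le (n : ℤ) : v (n : M) ≤ 1 := by
  have h := H420R3.v_le_one v (n : 𝓞 M)
  simpa using h

lemma v_sum_lt {ι : Type*} (s : Finset ι) (g : ι → M) (h : ∀ i ∈ s, v (g i) < 1) :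
    v (∑ i ∈ s, g i) < 1 := by
  classical
  induction s using Finset.induction_on with
  | empty => simp
  | insert a s ha ih =>
    rw [Finset.sum_insert ha]
    exact lt_of_le_of_lt (FinitePlace.add_le v _ _)
      (max_lt (h a (Finset.mem_insert_self _ _))
        (ih fun i hi => h i (Finset.mem_insert_of_mem hi)))

lemma exists_two {ι : Type*} (s : Finset ι) (f : ι → M) (hsum : ∑ i ∈ s, f i = 0)
    (hne : ∃ i ∈ s, f i ≠ 0) :
    ∃ i ∈ s, ∃ j ∈ s, i ≠ j ∧ v (f i) = v (f j) ∧ f i ≠ 0 ∧ f j ≠ 0 := by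
  classical
  obtain ⟨i₁, hi₁, hf₁⟩ := hne
  obtain ⟨i, hi, hmax⟩ := s.exists_max_image (fun i => v (f i)) ⟨i₁, hi₁⟩
  have hpos : 0 < v (f i) := lt_of_lt_of_le (v_pos' v hf₁) (hmax i₁ hi₁)
  have hfi : f i ≠ 0 := by
    intro h0
    rw [h0, map_zero] at hpos
    exact lt_irrefl _ hpos
  by_contra hcon
  push Not at hcon
  have hlt : ∀ j ∈ s.erase i, v (f j) < v (f i) := by
    intro j hj
    have hj' := Finset.mem_erase.mp hj
    refine lt_of_le_of_ne (hmax j hj'.2) fun h => ?_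
    have h0 := hcon i hi j hj'.2 (Ne.symm hj'.1) h.symm hfi
    rw [h0, map_zero] at h
    rw [← h] at hpos
    exact lt_irrefl _ hpos
  have h1 : f i = -∑ j ∈ s.erase i, f j := by
    rw [← Finset.add_sum_erase s f hi] at hsum
    exact eq_neg_of_add_eq_zero_left hsum
  have h2 : v (f i) = v (∑ j ∈ s.erase i, f j) := by
    conv_lhs => rw [h1]
    exact H420R3.v_neg v _
  rcases (s.erase i).eq_empty_or_nonempty with h3 | h3
  · rw [h3, Finset.sum_empty, map_zero] at h2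
    exact hpos.ne' h2
  · obtain ⟨j₀, hj₀, hmax'⟩ := (s.erase i).exists_max_image (fun i => v (f i)) h3
    have h4 : v (∑ j ∈ s.erase i, f j) ≤ v (f j₀) :=
      Pool.Agent.W238.Leh.v_sum_le v _ _ (by positivity) fun j hj => hmax' j hj
    have h5 := hlt j₀ hj₀
    linarith

variable {p : ℕ}

lemma v_nat_eq_one (hp : p.Prime) (hpv : v (p : M) < 1) {n : ℕ} (hn : ¬ p ∣ n) :
    v (n : M) = 1 := by
  apply le_antisymm (v_natCast_le v n)
  by_contra hcon
  push Not at hcon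
  have hco : IsCoprime (p : ℤ) (n : ℤ) :=
    Nat.isCoprime_iff_coprime.mpr ((Nat.Prime.coprime_iff_not_dvd hp).mpr hn)
  obtain ⟨x, y, hxy⟩ := hco
  have h1 : (1 : M) = (x : M) * (p : M) + (y : M) * (n : M) := by
    have h := congrArg (fun z : ℤ => (z : M)) hxy
    push_cast at h
    exact h.symm
  have h3 : ∀ (z : ℤ) (w : M), v w < 1 → v ((z : M) * w) < 1 := by
    intro z w hw
    rw [map_mul]
    calc v (z : M) * v w ≤ 1 * v w :=
          mul_le_mul_of_nonneg_right (v_intCast_le v z) (by positivity)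
      _ < 1 := by rwa [one_mul]
  have h2 : v (1 : M) < 1 := by
    rw [h1]
    exact lt_of_le_of_lt (FinitePlace.add_le v _ _) (max_lt (h3 x _ hpv) (h3 y _ hcon))
  rw [map_one] at h2
  exact lt_irrefl _ h2

lemma v_nat_pow (hp : p.Prime) (hpv : v (p : M) < 1) {n : ℕ} (hn : n ≠ 0) :
    ∃ k : ℕ, v (n : M) = v (p : M) ^ k := by
  obtain ⟨k, n', hn', rfl⟩ := Nat.exists_eq_pow_mul_and_not_dvd hn p hp.ne_one
  refine ⟨k, ?_⟩
  push_cast
  rw [map_mul, map_pow, v_nat_eq_one v hp hpv hn', mul_one]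

lemma v_int_natAbs (z : ℤ) : v (z : M) = v ((z.natAbs : ℕ) : M) := by
  rcases Int.natAbs_eq z with h | h
  · conv_lhs => rw [h]
    rw [Int.cast_natCast]
  · conv_lhs => rw [h]
    rw [Int.cast_neg, Int.cast_natCast]
    exact H420R3.v_neg v _

lemma v_rat_zpow (hp : p.Prime) (hpv : v (p : M) < 1) {c : ℚ} (hc : c ≠ 0) :
    ∃ k : ℤ, v (c : M) = v (p : M) ^ k := by
  have hp0 : (p : M) ≠ 0 := by exact_mod_cast hp.ne_zero
  have hvp := v_pos' v hp0
  obtain ⟨k₁, h₁⟩ := v_nat_pow v hp hpv (n := c.num.natAbs)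
    (Int.natAbs_ne_zero.mpr (Rat.num_ne_zero.mpr hc))
  obtain ⟨k₂, h₂⟩ := v_nat_pow v hp hpv (n := c.den) c.den_ne_zero
  refine ⟨(k₁ : ℤ) - k₂, ?_⟩
  rw [Rat.cast_def, map_div₀, v_int_natAbs, h₁, h₂, zpow_sub₀ hvp.ne', zpow_natCast, zpow_natCast]

/-- the value group of an element of bounded degree -/
lemma v_pow_deg (hp : p.Prime) (hpv : v (p : M) < 1) {z : M} (hz : v z < 1) {m : ℕ}
    (hm : (minpoly ℚ z).natDegree ≤ m) : v z ^ m ≤ v (p : M) := by
  have hp0 : (p : M) ≠ 0 := by exact_mod_cast hp.ne_zero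
  have hvp := v_pos' v hp0
  have hint : IsIntegral ℚ z := Algebra.IsIntegral.isIntegral z
  have hd : 0 < (minpoly ℚ z).natDegree := minpoly.natDegree_pos hint
  rcases eq_or_ne z 0 with rfl | hz0
  · rw [map_zero, zero_pow (by omega)]
    exact hvp.le
  have hvz := v_pos' v hz0
  obtain ⟨P, hP⟩ : ∃ P, P = minpoly ℚ z := ⟨_, rfl⟩
  rw [← hP] at hm hd
  have hrel : ∑ i ∈ Finset.range (P.natDegree + 1), ((P.coeff i : ℚ) : M) * z ^ i = 0 := by
    have h := minpoly.aeval ℚ z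
    rw [← hP, Polynomial.aeval_eq_sum_range] at h
    rw [← h]
    refine Finset.sum_congr rfl fun i _ => ?_
    rw [Algebra.smul_def, eq_ratCast]
  have hmon : P.coeff P.natDegree = 1 := by
    rw [hP]
    exact minpoly.monic hint
  obtain ⟨i, hi, j, hj, hij, hv, hi0, hj0⟩ := exists_two v _ _ hrel
    ⟨P.natDegree, Finset.self_mem_range_succ _, by
      rw [hmon]
      simpa using pow_ne_zero _ hz0⟩
  clear hrel
  wlog hlt : i < j generalizing i j with Hw
  · exact Hw j hj i hi hij.symm hv.symm hj0 hi0 (by omega)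
  have hci : P.coeff i ≠ 0 := by
    intro h
    rw [h] at hi0
    simp at hi0
  have hcj : P.coeff j ≠ 0 := by
    intro h
    rw [h] at hj0
    simp at hj0
  obtain ⟨k₁, h₁⟩ := v_rat_zpow v hp hpv hci
  obtain ⟨k₂, h₂⟩ := v_rat_zpow v hp hpv hcj
  rw [map_mul, map_mul, map_pow, map_pow, h₁, h₂] at hv
  have hji : j = i + (j - i) := by omega
  have h3 : v z ^ (j - i) = v (p : M) ^ (k₁ - k₂) := by
    rw [zpow_sub₀ hvp.ne', eq_div_iff (zpow_ne_zero _ hvp.ne')]
    have h4 : v z ^ i ≠ 0 := (pow_pos hvz i).ne'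
    apply mul_left_cancel₀ h4
    calc v z ^ i * (v z ^ (j - i) * v (p : M) ^ k₂) =
        v (p : M) ^ k₂ * v z ^ (i + (j - i)) := by rw [pow_add]; ring
      _ = v (p : M) ^ k₁ * v z ^ i := by rw [← hji, hv]
      _ = _ := by ring
  have h5 : v z ^ (j - i) < 1 := pow_lt_one₀ hvz.le hz (by omega)
  have hk : 1 ≤ k₁ - k₂ := by
    by_contra hcon
    have h6 : k₁ - k₂ ≤ 0 := by omega
    have h7 := one_le_zpow_of_nonpos₀ hvp hpv.le h6
    rw [← h3] at h7
    linarith
  have h8 : v (p : M) ^ (k₁ - k₂) ≤ v (p : M) := by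
    calc v (p : M) ^ (k₁ - k₂) ≤ v (p : M) ^ (1 : ℤ) :=
          zpow_le_zpow_right_of_le_one₀ hvp hpv.le hk
      _ = _ := zpow_one _
  have hj' : j < P.natDegree + 1 := Finset.mem_range.mp hj
  calc v z ^ m ≤ v z ^ (j - i) := pow_le_pow_of_le_one hvz.le hz.le (by omega)
    _ = _ := h3
    _ ≤ _ := h8

/-- residues of rational numbers -/
lemma rat_res (hp : p.Prime) (hpv : v (p : M) < 1) {c : ℚ} (hc : v (c : M) ≤ 1) :
    ∃ n : Fin p, v ((c : M) - ((n : ℕ) : M)) < 1 := by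
  have hfact : Fact p.Prime := ⟨hp⟩
  have hp0 : (p : M) ≠ 0 := by exact_mod_cast hp.ne_zero
  have hvp := v_pos' v hp0
  have hden0 : ((c.den : ℕ) : M) ≠ 0 := by exact_mod_cast c.den_ne_zero
  have hden : ¬ p ∣ c.den := by
    intro hdvd
    have h1 : ¬ p ∣ c.num.natAbs := by
      intro h2
      have h3 := Nat.dvd_gcd h2 hdvd
      rw [c.reduced.gcd_eq_one] at h3
      exact hp.one_lt.ne' (Nat.dvd_one.mp h3)
    have h2 := v_nat_eq_one v hp hpv h1
    have h3 : v ((c.den : ℕ) : M) < 1 := by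
      obtain ⟨t, ht⟩ := hdvd
      rw [ht]
      push_cast
      rw [map_mul]
      calc v (p : M) * v (t : M) ≤ v (p : M) * 1 :=
            mul_le_mul_of_nonneg_left (v_natCast_le v t) hvp.le
        _ < 1 := by rwa [mul_one]
    rw [Rat.cast_def, map_div₀, v_int_natAbs, h2, div_le_one (v_pos' v hden0)] at hc
    linarith
  have hden1 : v ((c.den : ℕ) : M) = 1 := v_nat_eq_one v hp hpv hden
  obtain ⟨n, hn⟩ : ∃ n : ℕ, n = ((c.num : ZMod p) * (c.den : ZMod p)⁻¹).val := ⟨_, rfl⟩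
  have hnp : n < p := by
    rw [hn]
    exact ZMod.val_lt _
  refine ⟨⟨n, hnp⟩, ?_⟩
  show v ((c : M) - (n : M)) < 1
  have hdz : (c.den : ZMod p) ≠ 0 := by
    intro h
    exact hden ((ZMod.natCast_eq_zero_iff _ _).mp h)
  have hz : ((c.num - n * c.den : ℤ) : ZMod p) = 0 := by
    push_cast
    rw [hn, ZMod.natCast_zmod_val, mul_assoc, inv_mul_cancel₀ hdz, mul_one, sub_self]
  obtain ⟨t, ht⟩ := (ZMod.intCast_zmod_eq_zero_iff_dvd _ _).mp hz
  have h1 : (c : M) - (n : M) = ((c.num - n * c.den : ℤ) : M) / ((c.den : ℕ) : M) := by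
    rw [Rat.cast_def]
    push_cast
    field_simp
  rw [h1, map_div₀, hden1, div_one, ht]
  push_cast
  rw [map_mul]
  calc v (p : M) * v (t : M) ≤ v (p : M) * 1 :=
        mul_le_mul_of_nonneg_left (v_intCast_le v t) hvp.le
    _ < 1 := by rwa [mul_one]

/-- an integral relation with a coefficient one -/
lemma rel_res (hp : p.Prime) (hpv : v (p : M) < 1) {z : M} (hz : v z ≤ 1) {D : ℕ}
    (hD : (minpoly ℚ z).natDegree ≤ D) :
    ∃ n : Fin (D + 1) → Fin p, (∃ i, ((n i : Fin p) : ℕ) = 1) ∧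
      v (∑ i, ((n i : ℕ) : M) * z ^ (i : ℕ)) < 1 := by
  classical
  have hint : IsIntegral ℚ z := Algebra.IsIntegral.isIntegral z
  obtain ⟨P, hP⟩ : ∃ P, P = minpoly ℚ z := ⟨_, rfl⟩
  rw [← hP] at hD
  have hmon : P.coeff P.natDegree = 1 := by
    rw [hP]
    exact minpoly.monic hint
  have hrel : ∑ i : Fin (D + 1), ((P.coeff i : ℚ) : M) * z ^ (i : ℕ) = 0 := by
    have h := minpoly.aeval ℚ z
    rw [← hP, Polynomial.aeval_eq_sum_range' (n := D + 1) (by omega)] at h
    rw [Fin.sum_univ_eq_sum_range (fun i => ((P.coeff i : ℚ) : M) * z ^ i) (D + 1), ← h]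
    refine Finset.sum_congr rfl fun i _ => ?_
    rw [Algebra.smul_def, eq_ratCast]
  obtain ⟨i₀, -, hmax⟩ := (Finset.univ : Finset (Fin (D + 1))).exists_max_image
    (fun i => v ((P.coeff i : ℚ) : M)) Finset.univ_nonempty
  have hpos : 0 < v ((P.coeff i₀ : ℚ) : M) := by
    have h1 := hmax ⟨P.natDegree, by omega⟩ (Finset.mem_univ _)
    simp only [hmon, Rat.cast_one, map_one] at h1
    linarith
  have hc0 : P.coeff i₀ ≠ 0 := by
    intro h
    rw [h] at hpos
    simp at hpos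
  have hex : ∀ i : Fin (D + 1), ∃ n : Fin p,
      v (((P.coeff i / P.coeff i₀ : ℚ) : M) - ((n : ℕ) : M)) < 1 ∧ (i = i₀ → (n : ℕ) = 1) := by
    intro i
    rcases eq_or_ne i i₀ with rfl | hi
    · refine ⟨⟨1, hp.one_lt⟩, ?_, fun _ => rfl⟩
      rw [div_self hc0]
      simp
    · obtain ⟨n, hn⟩ := rat_res v hp hpv (c := P.coeff i / P.coeff i₀) (by
        rw [Rat.cast_div, map_div₀, div_le_one hpos]
        exact hmax i (Finset.mem_univ _))
      exact ⟨n, hn, fun h => absurd h hi⟩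
  choose n hn hn1 using hex
  refine ⟨n, ⟨i₀, hn1 i₀ rfl⟩, ?_⟩
  have h1 : ∑ i, ((n i : ℕ) : M) * z ^ (i : ℕ) =
      -∑ i : Fin (D + 1), (((P.coeff i / P.coeff i₀ : ℚ) : M) - ((n i : ℕ) : M)) * z ^ (i : ℕ) := by
    have h2 : ∑ i : Fin (D + 1), ((P.coeff i / P.coeff i₀ : ℚ) : M) * z ^ (i : ℕ) = 0 := by
      have h3 : ∑ i : Fin (D + 1), ((P.coeff i / P.coeff i₀ : ℚ) : M) * z ^ (i : ℕ) =
          ((P.coeff i₀ : ℚ) : M)⁻¹ *
            ∑ i : Fin (D + 1), ((P.coeff i : ℚ) : M) * z ^ (i : ℕ) := by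
        rw [Finset.mul_sum]
        refine Finset.sum_congr rfl fun i _ => ?_
        rw [Rat.cast_div]
        ring
      rw [h3, hrel, mul_zero]
    simp only [sub_mul, Finset.sum_sub_distrib]
    rw [h2]
    ring
  rw [h1, H420R3.v_neg v]
  refine v_sum_lt v _ _ fun i _ => ?_
  rw [map_mul, map_pow]
  calc v (((P.coeff i / P.coeff i₀ : ℚ) : M) - ((n i : ℕ) : M)) * v z ^ (i : ℕ) ≤
      v (((P.coeff i / P.coeff i₀ : ℚ) : M) - ((n i : ℕ) : M)) * 1 := by
        apply mul_le_mul_of_nonneg_left _ (by positivity)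
        exact pow_le_one₀ (by positivity) hz
    _ < 1 := by
      rw [mul_one]
      exact hn i

/-- the residues of the elements of bounded degree -/
lemma exists_resSet (hp : p.Prime) (hpv : v (p : M) < 1) (D : ℕ) :
    ∃ S : Finset (𝓞 M ⧸ mi v), S.card ≤ p ^ (D + 1) * D ∧
      ∀ z : M, v z ≤ 1 → (minpoly ℚ z).natDegree ≤ D → res v z ∈ S := by
  classical
  let : Field (𝓞 M ⧸ mi v) := Ideal.Quotient.field (mi v)
  obtain ⟨P, hP⟩ : ∃ P : (Fin (D + 1) → Fin p) → Polynomial (𝓞 M ⧸ mi v), P = fun n =>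
      ∑ i : Fin (D + 1), Polynomial.C (((n i : ℕ) : 𝓞 M ⧸ mi v)) * Polynomial.X ^ (i : ℕ) :=
    ⟨_, rfl⟩
  refine ⟨Finset.univ.biUnion fun n => (P n).roots.toFinset, ?_, ?_⟩
  · refine (Finset.card_biUnion_le_card_mul _ _ D fun n _ => ?_).trans (le_of_eq ?_)
    · refine (Multiset.toFinset_card_le _).trans ((Polynomial.card_roots' _).trans ?_)
      rw [hP]
      refine Polynomial.natDegree_sum_le_of_forall_le _ _ fun i _ => ?_
      refine (Polynomial.natDegree_C_mul_X_pow_le _ _).trans ?_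
      have := i.2
      omega
    · rw [Finset.card_univ, Fintype.card_fun, Fintype.card_fin, Fintype.card_fin]
  · intro z hz hD
    obtain ⟨n, ⟨i₀, hi₀⟩, hn⟩ := rel_res v hp hpv hz hD
    rw [Finset.mem_biUnion]
    refine ⟨n, Finset.mem_univ _, ?_⟩
    rw [Multiset.mem_toFinset, Polynomial.mem_roots', Polynomial.IsRoot]
    refine ⟨?_, ?_⟩
    · intro h0
      have h1 : (P n).coeff (i₀ : ℕ) = 1 := by
        rw [hP]
        simp only [Polynomial.finset_sum_coeff, Polynomial.coeff_C_mul_X_pow]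
        rw [Finset.sum_eq_single i₀]
        · rw [if_pos rfl, hi₀, Nat.cast_one]
        · intro j _ hj
          rw [if_neg]
          intro h
          exact hj (Fin.ext h.symm)
        · intro h
          exact absurd (Finset.mem_univ _) h
      rw [h0, Polynomial.coeff_zero] at h1
      exact zero_ne_one h1
    · obtain ⟨b, hb, hb'⟩ := res_spec v hz
      have h1 : Polynomial.eval (res v z) (P n) =
          Ideal.Quotient.mk (mi v) (∑ i : Fin (D + 1), ((n i : ℕ) : 𝓞 M) * b ^ (i : ℕ)) := by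
        rw [hP, hb']
        simp [Polynomial.eval_finset_sum]
      rw [h1, Ideal.Quotient.eq_zero_iff_mem, ← v_lt_one_iff]
      push_cast
      have h2 : ∑ i : Fin (D + 1), ((n i : ℕ) : M) * (b : M) ^ (i : ℕ) =
          ∑ i, ((n i : ℕ) : M) * z ^ (i : ℕ) -
            ∑ i : Fin (D + 1), ((n i : ℕ) : M) * (z ^ (i : ℕ) - (b : M) ^ (i : ℕ)) := by
        simp only [mul_sub, Finset.sum_sub_distrib]
        ring
      rw [h2]
      refine lt_of_le_of_lt (H420R3.v_sub_le v _ _) (max_lt hn (v_sum_lt v _ _ fun i _ => ?_))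
      rw [map_mul]
      have h3 : v (z ^ (i : ℕ) - (b : M) ^ (i : ℕ)) ≤ v (z - b) :=
        Pool.Agent.H627.LP.v_pow_sub v (by positivity) hz (H420R3.v_le_one v b) le_rfl i
      calc v ((n i : ℕ) : M) * v (z ^ (i : ℕ) - (b : M) ^ (i : ℕ)) ≤ 1 * v (z - b) :=
            mul_le_mul (v_natCast_le v _) h3 (by positivity) zero_le_one
        _ < 1 := by rwa [one_mul]

end

end Pool.Agent.H627.UB
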