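import Mathlib
import Pool.Agent.H627.UB.All
import Pool.Agent.H627.UB.Dg

/-!
The number of points of bounded degree and small canonical height.
-/

set_option autoImplicit false
set_option linter.unusedSectionVars false

namespace Pool.Agent.H627.UB

open NumberField Module MvPolynomial Filter Topology
open Pool.Agent.W238.Leh
open Pool.Agent.H627.LP hiding det_ineq det_ineq' local_gain
open Pool.Agent.H627.LR (GR GoodRed GoodK res res_eq)
open Pool.Agent.H627.LU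
open Pool.Agent.H420R3 (mi nv nv_pos exists_frac v_lt_one_iff TP mem_TP ew ew_pos sum_ew)

noncomputable section

/-- `x` is proportional to a vector with coordinates in a number field of degree at most `D` -/
def DegLE {M : Type} [Field M] [NumberField M] {N : ℕ} (D : ℕ) (x : Fin (N + 1) → M) : Prop :=
  ∃ E : IntermediateField ℚ M, finrank ℚ E ≤ D ∧ ∃ c : M, c ≠ 0 ∧ ∀ i, c * x i ∈ E

section M

variable {K M : Type} [Field K] [NumberField K] [Field M] [NumberField M] [Algebra K M] {N : ℕ}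

lemma DegLE.smul {D : ℕ} {x : Fin (N + 1) → M} (h : DegLE D x) {b : M} (hb : b ≠ 0) :
    DegLE D (b • x) := by
  obtain ⟨E, hE, c, hc, hcx⟩ := h
  refine ⟨E, hE, c * b⁻¹, mul_ne_zero hc (inv_ne_zero hb), fun i => ?_⟩
  have h1 : c * b⁻¹ * (b • x) i = c * x i := by
    rw [Pi.smul_apply, smul_eq_mul]
    field_simp
  rw [h1]
  exact hcx i

lemma DegLE.nr_mem {D : ℕ} {x : Fin (N + 1) → M} (h : DegLE D x) (hx : x ≠ 0)
    (v : FinitePlace M) :
    ∃ E : IntermediateField ℚ M, finrank ℚ E ≤ D ∧ ∀ i, nr v x i ∈ E := by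
  obtain ⟨E, hE, c, hc, hcx⟩ := h
  refine ⟨E, hE, fun i => ?_⟩
  have h0 := x_ix_ne v hx
  have h1 : nr v x i = (c * x i) / (c * x (ix v x)) := by
    simp only [nr, Pi.smul_apply, smul_eq_mul]
    field_simp
  rw [h1]
  exact div_mem (hcx i) (hcx _)

lemma natDegree_le_of_mem {E : IntermediateField ℚ M} {z : M} (hz : z ∈ E) :
    (minpoly ℚ z).natDegree ≤ finrank ℚ E := by
  have h1 : minpoly ℚ (algebraMap E M ⟨z, hz⟩) = minpoly ℚ (⟨z, hz⟩ : E) :=
    minpoly.algebraMap_eq (algebraMap E M).injective _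
  have h2 : algebraMap E M ⟨z, hz⟩ = z := rfl
  rw [h2] at h1
  rw [h1]
  exact minpoly.natDegree_le _

variable {P : Ideal (𝓞 K)} [hP : P.IsMaximal]

lemma v_p_le (hP0 : P ≠ ⊥) {v : FinitePlace M} (hv : v ∈ TP M P) {p : ℕ}
    (hpP : (p : 𝓞 K) ∈ P) : v (p : M) ≤ Real.exp (-ew K v) := by
  have h1 := H420R3.v_le_of_mem_P (M := M) hP0 hv hpP
  rwa [map_natCast] at h1

lemma v_p_lt (hP0 : P ≠ ⊥) {v : FinitePlace M} (hv : v ∈ TP M P) {p : ℕ}
    (hpP : (p : 𝓞 K) ∈ P) : v (p : M) < 1 := by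
  refine lt_of_le_of_lt (v_p_le hP0 hv hpP) ?_
  rw [Real.exp_lt_one_iff]
  have := ew_pos (K := K) v
  linarith

lemma near_deg (hP0 : P ≠ ⊥) {v : FinitePlace M} (hv : v ∈ TP M P) {p : ℕ} (hp : p.Prime)
    (hpP : (p : 𝓞 K) ∈ P) {D : ℕ} {x y : Fin (N + 1) → M} (hx : x ≠ 0) (hy : y ≠ 0)
    (hxD : DegLE D x) (hyD : DegLE D y) (h : cls v x = cls v y) :
    Near v (Real.exp (-(ew K v / (D * D : ℕ)))) x y := by
  obtain ⟨E₁, hE₁, h1⟩ := hxD.nr_mem hx v
  obtain ⟨E₂, hE₂, h2⟩ := hyD.nr_mem hy v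
  have hD1 : 1 ≤ D * D := by
    have h3 : 0 < finrank ℚ E₁ := finrank_pos
    have h4 : 1 ≤ D := by omega
    exact Nat.mul_pos h4 h4
  have hCl : Cl v (Real.exp (-(ew K v / (D * D : ℕ)))) ((x (ix v x))⁻¹ • x)
      ((y (ix v y))⁻¹ • y) := by
    refine ⟨nmf_nr v hx, nmf_nr v hy, fun i => ?_⟩
    have hlt := lt_of_cls v hx hy h i
    have hmem : nr v x i - nr v y i ∈ E₁ ⊔ E₂ :=
      sub_mem ((le_sup_left : E₁ ≤ E₁ ⊔ E₂) (h1 i)) ((le_sup_right : E₂ ≤ E₁ ⊔ E₂) (h2 i))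
    have hdeg : (minpoly ℚ (nr v x i - nr v y i)).natDegree ≤ D * D :=
      (natDegree_le_of_mem hmem).trans
        ((IntermediateField.finrank_sup_le E₁ E₂).trans (Nat.mul_le_mul hE₁ hE₂))
    have h3 := (v_pow_deg v hp (v_p_lt hP0 hv hpP) hlt hdeg).trans (v_p_le hP0 hv hpP)
    have h4 : Real.exp (-ew K v) = Real.exp (-(ew K v / (D * D : ℕ))) ^ (D * D) := by
      rw [← Real.exp_nat_mul]
      congr 1
      have h5 : ((D * D : ℕ) : ℝ) ≠ 0 := by
        have : 0 < D * D := hD1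
        exact_mod_cast this.ne'
      field_simp
    rw [h4] at h3
    exact le_of_pow_le_pow_left₀ (by omega) (Real.exp_pos _).le h3
  exact hCl.near

lemma classes_deg (hP0 : P ≠ ⊥) {v : FinitePlace M} (hv : v ∈ TP M P) {p : ℕ} (hp : p.Prime)
    (hpP : (p : 𝓞 K) ∈ P) {D : ℕ} {ι : Type} [Fintype ι] [DecidableEq ι]
    {x : ι → Fin (N + 1) → M} (hx : ∀ i, x i ≠ 0) (hxD : ∀ i, DegLE D (x i)) {t : ℕ}
    (ht : (p ^ (D + 1) * D) ^ (N + 1) ≤ t) :
    Classes v x ∅ t (ew K v / (D * D : ℕ)) := by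
  classical
  obtain ⟨S, hS, hmem⟩ := exists_resSet v hp (v_p_lt hP0 hv hpP) D
  refine ⟨Fin (N + 1) → 𝓞 M ⧸ mi v, fun i => cls v (x i), Fintype.piFinset fun _ => S, ?_,
    fun i _ => ?_, ?_⟩
  · rw [Fintype.card_piFinset_const]
    exact (Nat.pow_le_pow_left hS _).trans ht
  · rw [Fintype.mem_piFinset]
    intro j
    obtain ⟨E, hE, h1⟩ := (hxD i).nr_mem (hx i) v
    refine hmem _ ?_ ((natDegree_le_of_mem (h1 j)).trans hE)
    exact (le_nmf v _ j).trans (nmf_nr v (hx i)).le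
  · intro i i' _ _ h
    exact near_deg hP0 hv hp hpP (hx i) (hx i') (hxD i) (hxD i') h

lemma gr_of_bds' {H : Fin (N + 1) → MvPolynomial (Fin (N + 1)) K} {d a : ℕ} {A : ℝ}
    (hB : Bds H d A a) (hint : ∀ i s, IsIntegral ℤ ((H i).coeff s)) {v : FinitePlace M}
    (hva : v (a : M) = 1) : GR (M := M) v H d := by
  refine ⟨fun i m => ?_, fun x => ?_⟩
  · rw [coeff_map]
    exact v_int_le v ((hint i m).map (algebraMap K M).toIntAlgHom)
  · apply le_antisymm (hB.upf M v x)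
    have h1 := hB.lof M v x
    rwa [hva, one_mul] at h1

section scale

variable {G : Fin (N + 1) → MvPolynomial (Fin (N + 1)) K} {q : ℕ} {κ : K}

lemma iter_Sm' (hκ : κ ≠ 0) (hG : ∀ i, (G i).IsHomogeneous q) (z : Fin (N + 1) → M) (n : ℕ) :
    ∃ c : M, c ≠ 0 ∧ (act (Sm κ G))^[n] z = c • (act G)^[n] z := by
  have hκ' : algebraMap K M κ ≠ 0 := by
    rw [Ne, map_eq_zero]
    exact hκ
  induction n with
  | zero => exact ⟨1, one_ne_zero, (one_smul _ _).symm⟩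
  | succ n ih =>
    obtain ⟨c, hc, hc'⟩ := ih
    refine ⟨algebraMap K M κ * c ^ q, mul_ne_zero hκ' (pow_ne_zero _ hc), ?_⟩
    rw [Function.iterate_succ_apply', hc', act_Sm, act_smul hG, smul_smul,
      Function.iterate_succ_apply']

lemma lim_Sm' (hκ : κ ≠ 0) (hG : ∀ i, (G i).IsHomogeneous q) (hq : 2 ≤ q) {A : ℝ} {a : ℕ}
    (hB : Bds (Sm κ G) q A a) {x : Fin (N + 1) → M} (hx : x ≠ 0) :
    Tendsto (fun n : ℕ => Height.logHeight ((act G)^[n] x) /
        ((finrank ℚ M : ℝ) * (q : ℝ) ^ n)) atTop (𝓝 (canH (Sm κ G) q x)) := by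
  refine (hB.canH_tendsto hq hx).congr fun n => ?_
  obtain ⟨c, hc, h⟩ := iter_Sm' hκ hG x n
  rw [h, Height.logHeight_smul_eq_logHeight _ hc]

end scale

/-- preperiodic points have canonical height zero -/
lemma canH_preper' {F : Fin (N + 1) → MvPolynomial (Fin (N + 1)) K} {d a : ℕ} {A : ℝ} {κ : K}
    (hκ : κ ≠ 0) (hF : ∀ i, (F i).IsHomogeneous d) (hd : 2 ≤ d) (hB : Bds (Sm κ F) d A a)
    {x : Fin (N + 1) → M} (hx : x ≠ 0) {m n : ℕ} (hmn : m < n) {c : M} (hc : c ≠ 0)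
    (h : (act F)^[n] x = c • (act F)^[m] x) : canH (Sm κ F) d x = 0 := by
  obtain ⟨c₁, hc₁, h₁⟩ := iter_Sm' hκ hF x n
  obtain ⟨c₂, hc₂, h₂⟩ := iter_Sm' hκ hF x m
  have h3 : (act (Sm κ F))^[n] x = (c₁ * c * c₂⁻¹) • (act (Sm κ F))^[m] x := by
    rw [h₁, h, h₂, smul_smul, smul_smul, mul_assoc (c₁ * c), inv_mul_cancel₀ hc₂, mul_one]
  have h4 := hB.canH_iter hd hx n
  have h5 := hB.canH_iter hd hx m
  rw [h3, canH_smul (fun i => Sm_hom hF i) (mul_ne_zero (mul_ne_zero hc₁ hc)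
    (inv_ne_zero hc₂)), h5] at h4
  have h6 : (d : ℝ) ^ m < (d : ℝ) ^ n := by
    apply pow_lt_pow_right₀ _ hmn
    have : 1 < d := by omega
    exact_mod_cast this
  by_contra h7
  have h8 := mul_right_cancel₀ h7 h4
  exact absurd h8 h6.ne

/-- **the inequality for points of bounded degree** -/
theorem deg_ineq {H : Fin (N + 1) → MvPolynomial (Fin (N + 1)) K} {d c a D t : ℕ} {A : ℝ}
    (hB : Bds H d A a) (hd : 2 ≤ d) (hH : ∀ i, (H i).IsHomogeneous d)
    (hfull : Full H (c + d)) (hP0 : P ≠ ⊥) {p : ℕ} (hp : p.Prime) (hpP : (p : 𝓞 K) ∈ P)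
    (hLG : ∀ v ∈ TP M P, LG v H) (hD : finrank ℚ K ≤ D)
    (ht : (p ^ (D + 1) * D) ^ (N + 1) ≤ t) {ι : Type} [Fintype ι] [Nonempty ι] [DecidableEq ι]
    {x : ι → Fin (N + 1) → M} {a₀ : Fin (N + 1)} (hpa : ∀ i, x i a₀ = 1)
    (hxD : ∀ i, DegLE D (x i))
    (hinj : Function.Injective x) {η : ℝ} (hη : ∀ i, canH H d (x i) ≤ η) (hη0 : 0 ≤ η)
    {e : ℕ} (he1 : 1 ≤ e) (he : hC A a * (c + d : ℕ) ≤ e) :
    ∃ h : ℕ → ℕ, (∀ n, min (Fintype.card ι) (n + 1) ≤ h n) ∧ (∀ n, h n ≤ (n + 1) ^ N) ∧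
      ∀ n s : ℕ, s * ((Real.log 2 / (D * (D * D) : ℕ)) / e *
          (h n / (1 : ℕ) - (t : ℕ) * h (N * s))) ≤
        h n * (n * (η / e) + 1 * (1 + Nat.log 2 n : ℕ) + Real.log (h n)) := by
  have hp0 : ∀ i, x i ≠ 0 := by
    intro i h0
    have h1 := hpa i
    rw [h0] at h1
    exact zero_ne_one h1
  have hDpos : 1 ≤ D := le_trans finrank_pos hD
  obtain ⟨h, hh⟩ : ∃ h : ℕ → ℕ, h = fun n => finrank M (EL K x n) := ⟨_, rfl⟩
  have hlb : ∀ n, min (Fintype.card ι) (n + 1) ≤ h n := by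
    intro n
    rw [hh]
    exact le_finrank_EL (K := K) hpa hinj n
  refine ⟨h, hlb, fun n => by rw [hh]; exact finrank_EL_le hpa n, ?_⟩
  intro n s
  have hM1 : 1 ≤ Fintype.card ι := Fintype.card_pos
  have hr1 : 1 ≤ h n := le_trans (le_min hM1 (by omega)) (hlb n)
  obtain ⟨D2, hD2⟩ : ∃ D2 : ℕ, D2 = D * D := ⟨_, rfl⟩
  have hD2pos : 0 < D2 := by
    rw [hD2]
    exact Nat.mul_pos hDpos hDpos
  have hD2r : (0 : ℝ) < D2 := by exact_mod_cast hD2pos
  have hsum : ∑ v ∈ TP M P, ew K v / (D2 : ℝ) =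
      (finrank K M : ℝ) * Real.log P.absNorm / D2 := by
    rw [← Finset.sum_div, sum_ew hP0]
  have hmain := hilb_ineq' hB hd hH
    (fun m hm p hp => (hfull.mono hm) p hp) hp0 (TP M P) hLG
    (fun v => ew K v / (D2 : ℝ)) (fun v _ => div_pos (ew_pos (K := K) v) hD2r) (fun _ => ∅)
    (fun v hv => by
      have := classes_deg hP0 hv hp hpP hp0 hxD ht
      rw [← hD2] at this
      exact this)
    (w₀ := (finrank K M : ℝ) * Real.log P.absNorm / D2)
    (fun i => by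
      rw [← hsum]
      simp) hη n s (by rw [hh] at hr1; exact hr1)
  rw [hsum] at hmain
  have hrn : finrank M (EL K x n) = h n := by rw [hh]
  have hrs : finrank M (EL K x (N * s)) = h (N * s) := by rw [hh]
  rw [hrn, hrs] at hmain
  obtain ⟨r, hr⟩ : ∃ r : ℝ, r = h n := ⟨_, rfl⟩
  obtain ⟨ρ, hρ⟩ : ∃ ρ : ℝ, ρ = h (N * s) := ⟨_, rfl⟩
  obtain ⟨X, hX⟩ : ∃ X : ℝ, X = (1 + Nat.log 2 n : ℕ) := ⟨_, rfl⟩
  have hX0 : 0 ≤ X := by
    rw [hX]
    exact Nat.cast_nonneg _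
  have hr1' : 1 ≤ r := by
    rw [hr]
    exact_mod_cast hr1
  have hlr : 0 ≤ Real.log r := Real.log_nonneg hr1'
  rw [← hD2]
  rw [← hr, ← hρ, ← hX] at hmain ⊢
  have he' : (1 : ℝ) ≤ e := by exact_mod_cast he1
  obtain ⟨δ, hδ⟩ : ∃ δ : ℝ, δ = finrank ℚ K := ⟨_, rfl⟩
  have hδ1 : 1 ≤ δ := by
    rw [hδ]
    exact_mod_cast (finrank_pos : 0 < finrank ℚ K)
  have hδD : δ ≤ D := by
    rw [hδ]
    exact_mod_cast hD
  obtain ⟨m, hm⟩ : ∃ m : ℝ, m = finrank K M := ⟨_, rfl⟩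
  have hm1 : 1 ≤ m := by
    rw [hm]
    exact_mod_cast (finrank_pos : 0 < finrank K M)
  have hKM : (finrank ℚ M : ℝ) = δ * m := by
    rw [hδ, hm]
    exact_mod_cast (finrank_mul_finrank ℚ K M).symm
  rw [hKM, ← hm] at hmain
  have hs0 : (0 : ℝ) ≤ s := Nat.cast_nonneg _
  have hn0 : (0 : ℝ) ≤ n := Nat.cast_nonneg _
  obtain ⟨ℓ, hℓ⟩ : ∃ ℓ : ℝ, ℓ = Real.log P.absNorm := ⟨_, rfl⟩
  rw [← hℓ] at hmain
  -- the right hand side
  have hRHS : r * (n * η + hC A a * ((c + d : ℕ) * X) + Real.log r) ≤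
      e * (r * (n * (η / e) + 1 * X + Real.log r)) := by
    have h1 : hC A a * ((c + d : ℕ) * X) ≤ e * X := by
      calc hC A a * ((c + d : ℕ) * X) = (hC A a * (c + d : ℕ)) * X := by ring
        _ ≤ e * X := mul_le_mul_of_nonneg_right he hX0
    have h2 : Real.log r ≤ e * Real.log r := le_mul_of_one_le_left hlr he'
    calc r * (n * η + hC A a * ((c + d : ℕ) * X) + Real.log r) ≤
        r * (n * η + e * X + e * Real.log r) :=
          mul_le_mul_of_nonneg_left (by linarith) (by linarith)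
      _ = _ := by
        field_simp
  obtain ⟨Z, hZ⟩ : ∃ Z : ℝ, Z = r * (n * (η / e) + 1 * X + Real.log r) := ⟨_, rfl⟩
  have hZ0 : 0 ≤ Z := by
    rw [hZ]
    positivity
  rw [← hZ] at hRHS ⊢
  have h3 : s * (ℓ / D2 * (r - t * ρ)) ≤ δ * (e * Z) := by
    have h4 : m * (s * (ℓ / D2 * (r - t * ρ))) ≤ m * (δ * (e * Z)) := by
      calc m * (s * (ℓ / D2 * (r - t * ρ))) =
          s * (r * (m * ℓ / D2) - m * ℓ / D2 * (t * ρ)) := by ring
        _ ≤ δ * m * (r * (n * η + hC A a * ((c + d : ℕ) * X) + Real.log r)) := hmain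
        _ ≤ δ * m * (e * Z) := mul_le_mul_of_nonneg_left hRHS (by positivity)
        _ = _ := by ring
    exact le_of_mul_le_mul_left h4 (by linarith)
  rcases le_total (r - t * ρ) 0 with h4 | h4
  · refine le_trans ?_ hZ0
    apply mul_nonpos_of_nonneg_of_nonpos hs0
    apply mul_nonpos_of_nonneg_of_nonpos
    · have : 0 ≤ Real.log 2 := Real.log_nonneg (by norm_num)
      positivity
    · simpa using h4
  · have hl2 : Real.log 2 ≤ ℓ := by
      rw [hℓ]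
      apply Real.log_le_log (by norm_num)
      have h5 : P.absNorm ≠ 0 := Ideal.absNorm_ne_zero_iff_mem_nonZeroDivisors.mpr
        (mem_nonZeroDivisors_of_ne_zero hP0)
      have h6 : P.absNorm ≠ 1 := by
        rw [Ne, Ideal.absNorm_eq_one_iff]
        exact hP.ne_top
      have h7 : 2 ≤ P.absNorm := by omega
      exact_mod_cast h7
    have hl20 : 0 < Real.log 2 := Real.log_pos (by norm_num)
    have hD0 : (0 : ℝ) < D := by linarith
    have h5 : Real.log 2 / (D : ℝ) ≤ ℓ / δ := by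
      rw [div_le_div_iff₀ hD0 (by linarith)]
      exact mul_le_mul hl2 hδD (by linarith) (by linarith)
    calc s * ((Real.log 2 / ((D * D2 : ℕ) : ℝ)) / e * (r / (1 : ℕ) - (t : ℕ) * ρ)) =
        (Real.log 2 / D) * (s * (r - t * ρ) / (e * D2)) := by
          push_cast
          field_simp
      _ ≤ (ℓ / δ) * (s * (r - t * ρ) / (e * D2)) := by
          apply mul_le_mul_of_nonneg_right h5
          positivity
      _ = (s * (ℓ / D2 * (r - t * ρ))) / (δ * e) := by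
          field_simp
      _ ≤ (δ * (e * Z)) / (δ * e) := by
          apply div_le_div_of_nonneg_right h3
          positivity
      _ = _ := by
          have h6 : δ ≠ 0 := by linarith
          have h7 : (e : ℝ) ≠ 0 := by linarith
          field_simp

end M

end

end Pool.Agent.H627.UB
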