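import Mathlib
import Pool.Agent.H627.UB.St

/-!
A bound for the number of points of bounded degree and small canonical height which is polynomial
in the height of the map, for all morphisms of projective space.
-/

set_option autoImplicit false
set_option linter.unusedSectionVars false

namespace Pool.Agent.H627.UB

open NumberField Module MvPolynomial Filter Topology
open Pool.Agent.W238.Leh
open Pool.Agent.H627.LP hiding det_ineq det_ineq' local_gain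
open Pool.Agent.H627.LR (GR GoodRed GoodK)
open Pool.Agent.H627.LU
open Pool.Agent.H420R3 (mi nv nv_pos TP mem_TP)

noncomputable section

/-- **the bound polynomial in the height, points of bounded degree** -/
theorem polyS (N d D : ℕ) (hN : 1 ≤ N) (hd : 2 ≤ d) (hD1 : 1 ≤ D) :
    ∃ (C : ℝ) (k : ℕ), 0 < C ∧ ∀ (K : Type) [Field K] [NumberField K], finrank ℚ K ≤ D →
      ∀ F : Fin (N + 1) → MvPolynomial (Fin (N + 1)) K, (∀ i, (F i).IsHomogeneous d) →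
      (∀ z : Fin (N + 1) → AlgebraicClosure K, (∀ i, aeval z (F i) = 0) → z = 0) →
      ∀ (M : Type) [Field M] [NumberField M] [Algebra K M],
      ∀ S : Finset (Fin (N + 1) → M), (∀ x ∈ S, x ≠ 0) →
      (∀ x ∈ S, ∀ y ∈ S, ∀ c : M, x = c • y → x = y) → (∀ x ∈ S, DegLE D x) →
      (∀ x ∈ S, (∃ m n : ℕ, m < n ∧ ∃ c : M, c ≠ 0 ∧ (act F)^[n] x = c • (act F)^[m] x) ∨
        ∃ h : ℝ, Tendsto (fun n : ℕ => Height.logHeight ((act F)^[n] x) /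
          ((finrank ℚ M : ℝ) * (d : ℝ) ^ n)) atTop (𝓝 h) ∧
          h ≤ 1 / (C * (1 + Height.logHeight (cof d F)) ^ k)) →
      (S.card : ℝ) ≤ C * (1 + Height.logHeight (cof d F)) ^ k := by
  obtain ⟨n₀, hn₀, hnull⟩ := uniform_null N d
  have hl2 : 0 < Real.log 2 := Real.log_pos (by norm_num)
  have hlP : 0 < Real.log 2 / ((D * (D * D) : ℕ) : ℝ) := by
    have h1 : 0 < D * (D * D) := Nat.mul_pos hD1 (Nat.mul_pos hD1 hD1)
    have h2 : (0 : ℝ) < ((D * (D * D) : ℕ) : ℝ) := by exact_mod_cast h1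
    positivity
  obtain ⟨C₁, w, hC₁, hpar⟩ := params hlP zero_le_one (zero_lt_one (α := ℝ)) hN
  obtain ⟨κ₁, hκ₁⟩ : ∃ κ₁ : ℝ, κ₁ = KC (Fintype.card (Ex N d)) (Fintype.card (Ex N n₀)) D :=
    ⟨_, rfl⟩
  have hκ₁0 : 0 ≤ κ₁ := by
    rw [hκ₁]
    exact KC_nonneg _ _ _
  obtain ⟨τ, hτ⟩ : ∃ τ : ℕ, τ = Fintype.card (Fin (N + 1) × Ex N d) := ⟨_, rfl⟩
  obtain ⟨K₂, hK₂⟩ : ∃ K₂ : ℝ, K₂ = κ₁ * (τ + 1) * n₀ + 2 := ⟨_, rfl⟩
  have hK₂0 : 0 < K₂ := by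
    rw [hK₂]
    positivity
  obtain ⟨κ₂, hκ₂⟩ : ∃ κ₂ : ℝ, κ₂ = 1 + κ₁ * (τ + 1) := ⟨_, rfl⟩
  have hκ₂1 : 1 ≤ κ₂ := by
    rw [hκ₂]
    have : 0 ≤ κ₁ * (τ + 1) := by positivity
    linarith
  obtain ⟨q, hq⟩ : ∃ q : ℕ, q = (D + 1) * ((N + 1) * w) := ⟨_, rfl⟩
  obtain ⟨R₀, hR₀⟩ : ∃ R₀ : ℝ, R₀ = C₁ * ((D : ℝ) ^ ((N + 1) * w) * (32 * κ₂ ^ 2) ^ q) :=
    ⟨_, rfl⟩
  have hDr : (0 : ℝ) < D := by exact_mod_cast hD1
  have hR₀0 : 0 < R₀ := by
    rw [hR₀]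
    positivity
  obtain ⟨C, hCd⟩ : ∃ C : ℝ, C = ((N : ℝ) + 1) * (R₀ * K₂ ^ (N + 1)) + R₀ + 1 := ⟨_, rfl⟩
  have hC0 : 0 < C := by
    rw [hCd]
    positivity
  have hCR : R₀ < C := by
    rw [hCd]
    have : 0 ≤ ((N : ℝ) + 1) * (R₀ * K₂ ^ (N + 1)) := by positivity
    linarith
  refine ⟨C, 2 * q + (N + 1), hC0, ?_⟩
  intro K _ _ hKD F hF hmor M _ _ _ S hS0 hSp hSD hSh
  classical
  obtain ⟨κ, A, a, hκ0, hB, hint, hfull, hsize⟩ := exists_bds' (by omega) hn₀ hKD (hnull K) hF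
    hmor
  obtain ⟨Λ, hΛ⟩ : ∃ Λ : ℝ, Λ = Height.logHeight (cof d F) := ⟨_, rfl⟩
  have hΛ0 : 0 ≤ Λ := by
    rw [hΛ]
    exact Height.logHeight_nonneg _
  rw [← hΛ, ← hτ, ← hκ₁] at hsize
  rw [← hΛ] at hSh ⊢
  obtain ⟨Y, hY⟩ : ∃ Y : ℝ, Y = 1 + Λ := ⟨_, rfl⟩
  have hY1 : 1 ≤ Y := by linarith
  rw [← hY] at hSh ⊢
  have hsize' : hC A a ≤ κ₁ * (τ + 1) * Y := by
    refine hsize.trans ?_
    rw [mul_assoc]
    apply mul_le_mul_of_nonneg_left _ hκ₁0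
    rw [hY]
    have : (0 : ℝ) ≤ τ := Nat.cast_nonneg _
    nlinarith
  -- the place
  obtain ⟨p, hp, hpa, hple⟩ := exists_prime_nat a hB.ha
  obtain ⟨v₀, hpv₀, -⟩ := exists_place (K := K) hp
  have hP0 : mi v₀ ≠ ⊥ := H420R3.mi_ne_bot v₀
  have hla0 : 0 ≤ Real.log a := Real.log_natCast_nonneg _
  have hla : Real.log a ≤ κ₁ * (τ + 1) * Y := by
    have h1 : 0 ≤ Real.log A := Real.log_nonneg hB.hA
    have h2 : hC A a = Real.log A + Real.log a := rfl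
    linarith
  have hbase : ((8 * (Nat.log 2 a + 1) ^ 2 : ℕ) : ℝ) ≤ 32 * (κ₂ * Y) ^ 2 := by
    have h1 : ((Nat.log 2 a : ℕ) : ℝ) ≤ 2 * Real.log a := by
      have h2 : (2 : ℝ) ^ Nat.log 2 a ≤ a := by
        have h3 := Nat.pow_log_le_self 2 (x := a) (by have := hB.ha; omega)
        exact_mod_cast h3
      have h3 := Real.log_le_log (by positivity) h2
      rw [Real.log_pow] at h3
      have h4 : (1 : ℝ) / 2 ≤ Real.log 2 := by
        have := Real.log_two_gt_d9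
        linarith
      have h5 : (0 : ℝ) ≤ (Nat.log 2 a : ℕ) := Nat.cast_nonneg _
      nlinarith
    have h2 : ((Nat.log 2 a : ℕ) : ℝ) + 1 ≤ 2 * (κ₂ * Y) := by
      rw [hκ₂]
      nlinarith
    have h3 : (0 : ℝ) ≤ ((Nat.log 2 a : ℕ) : ℝ) + 1 := by positivity
    push_cast
    have h4 := pow_le_pow_left₀ h3 h2 2
    nlinarith
  obtain ⟨t, ht⟩ : ∃ t : ℕ, t = (p ^ (D + 1) * D) ^ (N + 1) := ⟨_, rfl⟩
  have ht1 : 1 ≤ t := by
    rw [ht]
    exact Nat.one_le_pow _ _ (Nat.mul_pos (Nat.pow_pos hp.pos) hD1)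
  have htb : (t : ℝ) ≤ (D : ℝ) ^ (N + 1) * (32 * (κ₂ * Y) ^ 2) ^ ((D + 1) * (N + 1)) := by
    rw [ht]
    push_cast
    have h1 : (p : ℝ) ≤ 32 * (κ₂ * Y) ^ 2 := by
      have h2 : (p : ℝ) ≤ ((8 * (Nat.log 2 a + 1) ^ 2 : ℕ) : ℝ) := by
        exact_mod_cast hple
      exact h2.trans hbase
    rw [mul_pow, mul_comm, pow_mul]
    apply mul_le_mul_of_nonneg_left _ (by positivity)
    exact pow_le_pow_left₀ (by positivity) (pow_le_pow_left₀ (Nat.cast_nonneg _) h1 _) _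
  obtain ⟨R, hR⟩ : ∃ R : ℝ, R = C₁ * ((1 * t : ℕ) : ℝ) ^ w := ⟨_, rfl⟩
  have hR0 : 0 < R := by
    rw [hR, one_mul]
    have : (0 : ℝ) < t := by exact_mod_cast ht1
    positivity
  have hRb : R ≤ R₀ * Y ^ (2 * q) := by
    rw [hR, one_mul, hR₀]
    calc C₁ * (t : ℝ) ^ w ≤
        C₁ * ((D : ℝ) ^ (N + 1) * (32 * (κ₂ * Y) ^ 2) ^ ((D + 1) * (N + 1))) ^ w :=
          mul_le_mul_of_nonneg_left (pow_le_pow_left₀ (Nat.cast_nonneg _) htb _) hC₁.le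
      _ = C₁ * ((D : ℝ) ^ ((N + 1) * w) * ((32 * κ₂ ^ 2) * Y ^ 2) ^ q) := by
          rw [mul_pow, ← pow_mul, ← pow_mul, hq, mul_assoc (D + 1), mul_pow κ₂ Y 2,
            ← mul_assoc 32]
      _ = C₁ * ((D : ℝ) ^ ((N + 1) * w) * (32 * κ₂ ^ 2) ^ q) * Y ^ (2 * q) := by
          rw [mul_pow, ← pow_mul]
          ring
  have hLG : ∀ v ∈ TP M (mi v₀), LG v (Sm κ F) := by
    intro v hv
    have hva : v (a : M) = 1 := v_nat_eq_one v hp (v_p_lt hP0 hv hpv₀) hpa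
    have hGR : GR (M := M) v (Sm κ F) d := gr_of_bds' hB hint hva
    have h1 := LG_of (κ := (1 : K)) (fun i => Sm_hom (κ := κ) hF i) hGR
    have h2 : Sm (1 : K) (Sm κ F) = Sm κ F := by
      funext i
      rw [Sm, C_1, one_mul]
    rwa [h2] at h1
  have hfull' : Full (Sm κ F) ((n₀ - d) + d) := by
    rw [Nat.sub_add_cancel hn₀]
    exact hfull
  obtain ⟨e, he⟩ : ∃ e : ℕ, e = ⌈κ₁ * (τ + 1) * n₀ * Y⌉₊ + 1 := ⟨_, rfl⟩
  have he1 : 1 ≤ e := by omega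
  have he2 : hC A a * ((n₀ - d + d : ℕ) : ℝ) ≤ e := by
    rw [Nat.sub_add_cancel hn₀, he]
    push_cast
    have h1 := Nat.le_ceil (κ₁ * (τ + 1) * n₀ * Y)
    have h2 : hC A a * (n₀ : ℝ) ≤ κ₁ * (τ + 1) * Y * n₀ :=
      mul_le_mul_of_nonneg_right hsize' (Nat.cast_nonneg _)
    have h3 : κ₁ * (τ + 1) * Y * (n₀ : ℝ) = κ₁ * (τ + 1) * n₀ * Y := by ring
    linarith
  have he3 : (e : ℝ) ≤ K₂ * Y := by
    rw [he, hK₂]
    push_cast
    have h1 := Nat.ceil_lt_add_one (show 0 ≤ κ₁ * (τ + 1) * n₀ * Y by positivity)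
    nlinarith
  have hYk : 1 ≤ Y ^ (N + 1) := one_le_pow₀ hY1
  have hRC : R < C * Y ^ (2 * q + (N + 1)) := by
    have h1 : 0 < Y ^ (2 * q) := by positivity
    calc R ≤ R₀ * Y ^ (2 * q) := hRb
      _ < C * Y ^ (2 * q) := mul_lt_mul_of_pos_right hCR h1
      _ ≤ C * Y ^ (2 * q + (N + 1)) := by
        apply mul_le_mul_of_nonneg_left _ hC0.le
        exact pow_le_pow_right₀ hY1 (by omega)
  obtain ⟨η, hη⟩ : ∃ η : ℝ, η = 1 / (C * Y ^ (2 * q + (N + 1))) := ⟨_, rfl⟩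
  have hη0 : 0 ≤ η := by
    rw [hη]
    positivity
  rw [← hη] at hSh
  have hcanx : ∀ x ∈ S, canH (Sm κ F) d x ≤ η := by
    intro x hx
    rcases hSh x hx with ⟨m, n, hmn, c, hc, h⟩ | ⟨h, hlim, hh⟩
    · rw [canH_preper' hκ0 hF hd hB (hS0 x hx) hmn hc h]
      exact hη0
    · rw [tendsto_nhds_unique (lim_Sm' hκ0 hF hd hB (hS0 x hx)) hlim]
      exact hh
  -- the points with a nonzero coordinate
  have hpart : ∀ a₀ : Fin (N + 1), ((S.filter fun x => x a₀ ≠ 0).card : ℝ) ≤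
      R * (e : ℝ) ^ (N + 1) := by
    intro a₀
    rcases (S.filter fun x => x a₀ ≠ 0).eq_empty_or_nonempty with h0 | h0
    · rw [h0, Finset.card_empty]
      push_cast
      positivity
    by_contra hcon
    push Not at hcon
    obtain ⟨x₀, hx₀⟩ := h0
    set ι : Type := {x // x ∈ S.filter fun x => x a₀ ≠ 0} with hι
    have hne : Nonempty ι := ⟨⟨x₀, hx₀⟩⟩
    set x : ι → Fin (N + 1) → M := fun i => (i.1 a₀)⁻¹ • i.1 with hx
    have hmem : ∀ i : ι, i.1 ∈ S ∧ i.1 a₀ ≠ 0 := fun i => Finset.mem_filter.mp i.2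
    have hpa : ∀ i, x i a₀ = 1 := by
      intro i
      simp only [hx, Pi.smul_apply, smul_eq_mul]
      exact inv_mul_cancel₀ (hmem i).2
    have hinj : Function.Injective x := by
      intro i j hij
      apply Subtype.ext
      refine hSp _ (hmem i).1 _ (hmem j).1 (i.1 a₀ * (j.1 a₀)⁻¹) ?_
      have h1 : (i.1 a₀)⁻¹ • i.1 = (j.1 a₀)⁻¹ • j.1 := hij
      rw [mul_smul, ← h1, smul_smul, mul_inv_cancel₀ (hmem i).2, one_smul]
    have hηi : ∀ i, canH (Sm κ F) d (x i) ≤ η := by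
      intro i
      simp only [hx]
      rw [canH_smul (fun i => Sm_hom hF i) (inv_ne_zero (hmem i).2)]
      exact hcanx _ (hmem i).1
    have hxD : ∀ i, DegLE D (x i) := fun i =>
      (hSD _ (hmem i).1).smul (inv_ne_zero (hmem i).2)
    obtain ⟨h, h1, h2, h3⟩ := deg_ineq (D := D) (t := t) hB hd (fun i => Sm_hom hF i)
      hfull' hP0 hp hpv₀ hLG hKD (by rw [ht]) hpa hxD hinj hηi hη0 he1 he2
    have hcard : Fintype.card ι = (S.filter fun x => x a₀ ≠ 0).card := Fintype.card_coe _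
    have hM1 : 1 ≤ Fintype.card ι := Fintype.card_pos
    have hcast : (e : ℝ) ^ ((N : ℝ) + 1) = (e : ℝ) ^ (N + 1) := by
      rw [← Real.rpow_natCast]
      congr 1
      push_cast
      rfl
    have h4 := hpar 1 t le_rfl ht1 (Fintype.card ι) e hM1 he1 (η / e) h h1 h2 h3 R
      (le_of_eq hR.symm) (by rw [hcard, hcast]; exact hcon.le)
    have he' : (0 : ℝ) < e := by exact_mod_cast he1
    have h5 : 1 / R ≤ η := by
      have h6 := mul_le_mul_of_nonneg_right h4 he'.le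
      have h7 : 1 / (R * e) * e = 1 / R := by field_simp
      have h8 : η / e * e = η := by field_simp
      rwa [h7, h8] at h6
    rw [hη, div_le_div_iff₀ hR0 (hR0.trans hRC)] at h5
    linarith
  have hcov : S ⊆ Finset.univ.biUnion fun a₀ : Fin (N + 1) => S.filter fun x => x a₀ ≠ 0 := by
    intro x hx
    obtain ⟨a₀, ha₀⟩ : ∃ a₀, x a₀ ≠ 0 := Function.ne_iff.mp (hS0 x hx)
    exact Finset.mem_biUnion.mpr ⟨a₀, Finset.mem_univ _, Finset.mem_filter.mpr ⟨hx, ha₀⟩⟩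
  have hsum : (S.card : ℝ) ≤ ((N : ℝ) + 1) * (R * (e : ℝ) ^ (N + 1)) := by
    have h1 : (S.card : ℝ) ≤ ∑ a₀ : Fin (N + 1), ((S.filter fun x => x a₀ ≠ 0).card : ℝ) := by
      exact_mod_cast (Finset.card_le_card hcov).trans Finset.card_biUnion_le
    refine h1.trans ((Finset.sum_le_sum fun a₀ _ => hpart a₀).trans (le_of_eq ?_))
    simp
  refine hsum.trans ?_
  have h1 : (e : ℝ) ^ (N + 1) ≤ K₂ ^ (N + 1) * Y ^ (N + 1) := by
    rw [← mul_pow]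
    exact pow_le_pow_left₀ (Nat.cast_nonneg _) he3 _
  have h2 : 0 ≤ Y ^ (2 * q + (N + 1)) := by positivity
  calc ((N : ℝ) + 1) * (R * (e : ℝ) ^ (N + 1)) ≤
      ((N : ℝ) + 1) * ((R₀ * Y ^ (2 * q)) * (K₂ ^ (N + 1) * Y ^ (N + 1))) := by gcongr
    _ = (((N : ℝ) + 1) * (R₀ * K₂ ^ (N + 1))) * Y ^ (2 * q + (N + 1)) := by
      rw [pow_add]
      ring
    _ ≤ C * Y ^ (2 * q + (N + 1)) := by
      apply mul_le_mul_of_nonneg_right _ h2
      rw [hCd]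
      linarith

end

end Pool.Agent.H627.UB
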