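import Mathlib
import Pool.Agent.H627.UB.Sg

/-!
The number of iterated preimages of bounded degree of a point.
-/

set_option autoImplicit false
set_option linter.unusedSectionVars false

namespace Pool.Agent.H627.UB

open NumberField Module MvPolynomial Filter Topology
open scoped LinearAlgebra.Projectivization
open Pool.Agent.W238.Leh
open Pool.Agent.H627.LP hiding det_ineq det_ineq' local_gain
open Pool.Agent.H627.LU

noncomputable section

section fiber

variable {K M : Type} [Field K] [NumberField K] [Field M] [NumberField M] [Algebra K M] {N : ℕ}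
  {F : Fin (N + 1) → MvPolynomial (Fin (N + 1)) K} {d n₀ : ℕ}

lemma EL_fiber {ι : Type} [Fintype ι] (hF : ∀ i, (F i).IsHomogeneous d) {m : ℕ} (hdm : d ≤ m)
    (hfull : Full F m) {p : ι → Fin (N + 1) → M} {b : Fin (N + 1) → M} {c : ι → M}
    (hpb : ∀ i, act F (p i) = c i • b) :
    EL K p m ≤ (EL K p (m - d)).map (LinearMap.mulLeft M c) := by
  rw [EL, Submodule.span_le]
  rintro _ ⟨φ, hφ, rfl⟩
  obtain ⟨g, hg, hφg⟩ := exists_bez hF hdm hφ (hfull φ hφ)
  refine ⟨fun i => ∑ k, b k * aeval (p i) (g k), ?_, ?_⟩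
  · have h1 : (fun i => ∑ k, b k * aeval (p i) (g k)) =
        ∑ k, b k • (fun i => aeval (p i) (g k)) := by
      funext i
      simp [Finset.sum_apply]
    rw [h1]
    exact Submodule.sum_mem _ fun k _ =>
      Submodule.smul_mem _ _ (Submodule.subset_span ⟨g k, hg k, rfl⟩)
  · funext i
    rw [LinearMap.mulLeft_apply, Pi.mul_apply, hφg, map_sum, Finset.mul_sum]
    refine Finset.sum_congr rfl fun k _ => ?_
    have h1 : aeval (p i) (F k) = c i * b k := by
      have h2 := congrFun (hpb i) k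
      simpa [act] using h2
    rw [map_mul, h1]
    ring

lemma finrank_fiber {ι : Type} [Fintype ι] (hF : ∀ i, (F i).IsHomogeneous d) (hd : 1 ≤ d)
    (hdn : d ≤ n₀) (hfull : Full F n₀) {p : ι → Fin (N + 1) → M} {a₀ : Fin (N + 1)}
    (hp : ∀ i, p i a₀ = 1) {b : Fin (N + 1) → M} {c : ι → M}
    (hpb : ∀ i, act F (p i) = c i • b) (m : ℕ) : finrank M (EL K p m) ≤ n₀ ^ N := by
  induction m using Nat.strong_induction_on with
  | _ m ih =>
    rcases Nat.lt_or_ge m n₀ with hm | hm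
    · exact (finrank_EL_le hp m).trans (Nat.pow_le_pow_left hm N)
    · exact (Submodule.finrank_mono (EL_fiber hF (hdn.trans hm) (hfull.mono hm) hpb)).trans
        ((Submodule.finrank_map_le _ _).trans (ih (m - d) (by omega)))

/-- the map on projective space -/
def fb (F : Fin (N + 1) → MvPolynomial (Fin (N + 1)) K)
    (h0 : ∀ x : Fin (N + 1) → M, x ≠ 0 → act F x ≠ 0) (P : ℙ M (Fin (N + 1) → M)) :
    ℙ M (Fin (N + 1) → M) :=
  Projectivization.mk M (act F P.rep) (h0 _ P.rep_nonzero)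

lemma eq_of_rep {P Q : ℙ M (Fin (N + 1) → M)} {c : M} (h : P.rep = c • Q.rep) : P = Q := by
  rw [← Projectivization.mk_rep P, ← Projectivization.mk_rep Q, Projectivization.mk_eq_mk_iff']
  exact ⟨c, h.symm⟩

lemma fb_rep (h0 : ∀ x : Fin (N + 1) → M, x ≠ 0 → act F x ≠ 0) (P : ℙ M (Fin (N + 1) → M)) :
    ∃ c : M, c ≠ 0 ∧ act F P.rep = c • (fb F h0 P).rep := by
  have h1 : Projectivization.mk M (act F P.rep) (h0 _ P.rep_nonzero) =
      Projectivization.mk M (fb F h0 P).rep (fb F h0 P).rep_nonzero := by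
    rw [Projectivization.mk_rep]
    rfl
  rw [Projectivization.mk_eq_mk_iff'] at h1
  obtain ⟨c, hc⟩ := h1
  refine ⟨c, ?_, hc.symm⟩
  rintro rfl
  rw [zero_smul] at hc
  exact h0 _ P.rep_nonzero hc.symm

lemma iter_fb (hF : ∀ i, (F i).IsHomogeneous d)
    (h0 : ∀ x : Fin (N + 1) → M, x ≠ 0 → act F x ≠ 0) (n : ℕ) (P : ℙ M (Fin (N + 1) → M)) :
    ∃ c : M, c ≠ 0 ∧ (act F)^[n] P.rep = c • ((fb F h0)^[n] P).rep := by
  induction n with
  | zero => exact ⟨1, one_ne_zero, (one_smul _ _).symm⟩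
  | succ n ih =>
    obtain ⟨c, hc, h⟩ := ih
    obtain ⟨c', hc', h'⟩ := fb_rep h0 ((fb F h0)^[n] P)
    refine ⟨c ^ d * c', mul_ne_zero (pow_ne_zero _ hc) hc', ?_⟩
    rw [Function.iterate_succ_apply', Function.iterate_succ_apply', h, act_smul hF, h', smul_smul]

lemma fiber_proj (hF : ∀ i, (F i).IsHomogeneous d) (hd : 1 ≤ d) (hdn : d ≤ n₀)
    (hfull : Full F n₀) (h0 : ∀ x : Fin (N + 1) → M, x ≠ 0 → act F x ≠ 0)
    (Q : ℙ M (Fin (N + 1) → M)) (S : Finset (ℙ M (Fin (N + 1) → M)))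
    (hS : ∀ P ∈ S, fb F h0 P = Q) : S.card ≤ (N + 1) * n₀ ^ N := by
  classical
  have hpart : ∀ a₀ : Fin (N + 1), (S.filter fun P => P.rep a₀ ≠ 0).card ≤ n₀ ^ N := by
    intro a₀
    set ι : Type := {P // P ∈ S.filter fun P => P.rep a₀ ≠ 0} with hι
    have hmem : ∀ i : ι, i.1 ∈ S ∧ i.1.rep a₀ ≠ 0 := fun i => Finset.mem_filter.mp i.2
    set x : ι → Fin (N + 1) → M := fun i => (i.1.rep a₀)⁻¹ • i.1.rep with hx
    have hpa : ∀ i, x i a₀ = 1 := by
      intro i
      simp only [hx, Pi.smul_apply, smul_eq_mul]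
      exact inv_mul_cancel₀ (hmem i).2
    have hinj : Function.Injective x := by
      intro i j hij
      apply Subtype.ext
      apply eq_of_rep (c := i.1.rep a₀ * (j.1.rep a₀)⁻¹)
      have h1 : (i.1.rep a₀)⁻¹ • i.1.rep = (j.1.rep a₀)⁻¹ • j.1.rep := hij
      rw [mul_smul, ← h1, smul_smul, mul_inv_cancel₀ (hmem i).2, one_smul]
    have hpb : ∀ i : ι, ∃ c : M, act F (x i) = c • Q.rep := by
      intro i
      obtain ⟨c, -, h⟩ := fb_rep h0 i.1
      rw [hS _ (hmem i).1] at h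
      refine ⟨(i.1.rep a₀)⁻¹ ^ d * c, ?_⟩
      simp only [hx]
      rw [act_smul hF, h, smul_smul]
    choose c hc using hpb
    have h1 := le_finrank_EL (K := K) hpa hinj (Fintype.card ι)
    have h2 := finrank_fiber hF hd hdn hfull hpa hc (Fintype.card ι)
    have h3 : Fintype.card ι = (S.filter fun P => P.rep a₀ ≠ 0).card := Fintype.card_coe _
    rw [← h3]
    refine le_trans ?_ (h1.trans h2)
    rw [min_eq_left (by omega)]
  have hcov : S ⊆ Finset.univ.biUnion fun a₀ : Fin (N + 1) =>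
      S.filter fun P => P.rep a₀ ≠ 0 := by
    intro P hP
    obtain ⟨a₀, ha₀⟩ : ∃ a₀, P.rep a₀ ≠ 0 := Function.ne_iff.mp P.rep_nonzero
    exact Finset.mem_biUnion.mpr ⟨a₀, Finset.mem_univ _, Finset.mem_filter.mpr ⟨hP, ha₀⟩⟩
  refine (Finset.card_le_card hcov).trans
    ((Finset.card_biUnion_le_card_mul _ _ _ fun a₀ _ => hpart a₀).trans ?_)
  rw [Finset.card_univ, Fintype.card_fin]

lemma preim_card (hF : ∀ i, (F i).IsHomogeneous d) (hd : 1 ≤ d) (hdn : d ≤ n₀)
    (hfull : Full F n₀) (h0 : ∀ x : Fin (N + 1) → M, x ≠ 0 → act F x ≠ 0)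
    (Q : ℙ M (Fin (N + 1) → M)) (n : ℕ) : ∀ S : Finset (ℙ M (Fin (N + 1) → M)),
    (∀ P ∈ S, (fb F h0)^[n] P = Q) → S.card ≤ ((N + 1) * n₀ ^ N) ^ n := by
  classical
  induction n with
  | zero =>
    intro S hS
    rw [pow_zero]
    apply Finset.card_le_one.mpr
    intro P hP P' hP'
    rw [show P = Q from hS P hP, show P' = Q from hS P' hP']
  | succ n ih =>
    intro S hS
    have h1 := ih (S.image (fb F h0)) (by
      intro P' hP'
      obtain ⟨P, hP, rfl⟩ := Finset.mem_image.mp hP'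
      exact hS P hP)
    have h2 := Finset.card_le_mul_card_image (f := fb F h0) S ((N + 1) * n₀ ^ N)
      (fun Q' _ => fiber_proj hF hd hdn hfull h0 Q' _
        (fun P hP => (Finset.mem_filter.mp hP).2))
    calc S.card ≤ ((N + 1) * n₀ ^ N) * (S.image (fb F h0)).card := h2
      _ ≤ ((N + 1) * n₀ ^ N) * ((N + 1) * n₀ ^ N) ^ n := Nat.mul_le_mul_left _ h1
      _ = _ := by rw [pow_succ, mul_comm]

end fiber

end

end Pool.Agent.H627.UB
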