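import Mathlib
import Pool.Agent.H627.UB.Pi

/-!
The number of iterated preimages of bounded degree of a point: the bound polynomial in the heights.
-/

set_option autoImplicit false
set_option linter.unusedSectionVars false

namespace Pool.Agent.H627.UB

open NumberField Module MvPolynomial Filter Topology
open scoped LinearAlgebra.Projectivization
open Pool.Agent.W238.Leh
open Pool.Agent.H627.LP hiding det_ineq det_ineq' local_gain
open Pool.Agent.H627.LU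

noncomputable section

/-- **iterated preimages of bounded degree** -/
theorem preim (N d D : ℕ) (hN : 1 ≤ N) (hd : 2 ≤ d) (hD1 : 1 ≤ D) :
    ∃ (C : ℝ) (k : ℕ), 0 < C ∧ ∀ (K : Type) [Field K] [NumberField K], finrank ℚ K ≤ D →
      ∀ F : Fin (N + 1) → MvPolynomial (Fin (N + 1)) K, (∀ i, (F i).IsHomogeneous d) →
      (∀ z : Fin (N + 1) → AlgebraicClosure K, (∀ i, aeval z (F i) = 0) → z = 0) →
      ∀ (M : Type) [Field M] [NumberField M] [Algebra K M] (Q : ℙ M (Fin (N + 1) → M)),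
      ∀ S : Finset (ℙ M (Fin (N + 1) → M)), (∀ P ∈ S, DegLE D P.rep) →
      (∀ P ∈ S, ∃ n : ℕ, ∃ c : M, c ≠ 0 ∧ (act F)^[n] P.rep = c • Q.rep) →
      (S.card : ℝ) ≤ C * (1 + Height.logHeight (cof d F) +
        Height.logHeight Q.rep / finrank ℚ M) ^ k := by
  obtain ⟨C₀, k₀, hC₀, hpoly⟩ := polyS N d D hN hd hD1
  obtain ⟨n₀, hn₀, hnull⟩ := uniform_null N d
  obtain ⟨κ₁, hκ₁⟩ : ∃ κ₁ : ℝ, κ₁ = KC (Fintype.card (Ex N d)) (Fintype.card (Ex N n₀)) D :=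
    ⟨_, rfl⟩
  have hκ₁0 : 0 ≤ κ₁ := by
    rw [hκ₁]
    exact KC_nonneg _ _ _
  obtain ⟨τ, hτ⟩ : ∃ τ : ℕ, τ = Fintype.card (Fin (N + 1) × Ex N d) := ⟨_, rfl⟩
  obtain ⟨G, hG⟩ : ∃ G : ℝ, G = 1 + κ₁ * (τ + 1) := ⟨_, rfl⟩
  have hG1 : 1 ≤ G := by
    rw [hG]
    have : 0 ≤ κ₁ * (τ + 1) := by positivity
    linarith
  obtain ⟨μ, hμ⟩ : ∃ μ : ℕ, μ = (N + 1) * n₀ ^ N := ⟨_, rfl⟩
  obtain ⟨s, hs⟩ : ∃ s : ℕ, s = 2 * μ := ⟨_, rfl⟩
  obtain ⟨C, hCd⟩ : ∃ C : ℝ, C = C₀ + (d * (C₀ * G + 2)) ^ s := ⟨_, rfl⟩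
  have hd0 : (0 : ℝ) < d := by
    have : 0 < d := by omega
    exact_mod_cast this
  have hC0 : 0 < C := by
    rw [hCd]
    positivity
  refine ⟨C, k₀ + (k₀ + 1) * s, hC0, ?_⟩
  intro K _ _ hKD F hF hmor M _ _ _ Q S hSD hSQ
  classical
  obtain ⟨κ, A, a, hκ0, hB, hint, hfull, hsize⟩ := exists_bds' (by omega) hn₀ hKD (hnull K) hF
    hmor
  have hfullF : Full F n₀ := hnull K F hF hmor
  obtain ⟨Λ, hΛ⟩ : ∃ Λ : ℝ, Λ = Height.logHeight (cof d F) := ⟨_, rfl⟩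
  have hΛ0 : 0 ≤ Λ := by
    rw [hΛ]
    exact Height.logHeight_nonneg _
  rw [← hΛ, ← hτ, ← hκ₁] at hsize
  have hpoly' := hpoly K hKD F hF hmor M
  rw [← hΛ] at hpoly' ⊢
  obtain ⟨B, hBd⟩ : ∃ B : ℝ, B = C₀ * (1 + Λ) ^ k₀ := ⟨_, rfl⟩
  rw [← hBd] at hpoly'
  have hB0 : 0 < B := by
    rw [hBd]
    positivity
  obtain ⟨hQ, hhQ⟩ : ∃ hQ : ℝ, hQ = Height.logHeight Q.rep / finrank ℚ M := ⟨_, rfl⟩
  have hQ0 : 0 ≤ hQ := by
    rw [hhQ]
    exact div_nonneg (Height.logHeight_nonneg _) (Nat.cast_nonneg _)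
  rw [← hhQ]
  obtain ⟨Y, hY⟩ : ∃ Y : ℝ, Y = 1 + Λ + hQ := ⟨_, rfl⟩
  have hY1 : 1 ≤ Y := by linarith
  rw [← hY]
  have hBY : B ≤ C₀ * Y ^ k₀ := by
    rw [hBd]
    apply mul_le_mul_of_nonneg_left _ hC₀.le
    exact pow_le_pow_left₀ (by linarith) (by linarith) _
  -- the canonical height of the base point
  obtain ⟨α, hα⟩ : ∃ α : ℝ, α = canH (Sm κ F) d Q.rep := ⟨_, rfl⟩
  have hα0 : 0 ≤ α := by
    rw [hα]
    exact hB.canH_nonneg hd Q.rep_nonzero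
  have hαY : α ≤ G * Y := by
    have h1 := hB.abs_canH hd Q.rep_nonzero
    rw [← hα, ← hhQ, abs_le] at h1
    have h2 : κ₁ * (1 + (τ + 1) * Λ) ≤ κ₁ * ((τ + 1) * (1 + Λ)) := by
      apply mul_le_mul_of_nonneg_left _ hκ₁0
      have : (0 : ℝ) ≤ τ := Nat.cast_nonneg _
      nlinarith
    have h3 : 0 ≤ κ₁ * (τ + 1) := by positivity
    calc α ≤ hQ + κ₁ * ((τ + 1) * (1 + Λ)) := by linarith [h1.1]
      _ ≤ Y + κ₁ * (τ + 1) * Y := by
        have h4 : κ₁ * ((τ + 1) * (1 + Λ)) ≤ κ₁ * (τ + 1) * Y := by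
          rw [← mul_assoc]
          exact mul_le_mul_of_nonneg_left (by linarith) h3
        linarith
      _ = G * Y := by
        rw [hG]
        ring
  obtain ⟨m, hm⟩ : ∃ m : ℕ, m = ⌈α * B⌉₊ := ⟨_, rfl⟩
  have hm1 : α * B ≤ m := by
    rw [hm]
    exact Nat.le_ceil _
  have hm2 : (m : ℝ) ≤ α * B + 1 := by
    rw [hm]
    exact (Nat.ceil_lt_add_one (by positivity)).le
  obtain ⟨n₁, hn₁⟩ : ∃ n₁ : ℕ, n₁ = Nat.log d m + 1 := ⟨_, rfl⟩
  have hdn1 : m < d ^ n₁ := by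
    rw [hn₁]
    exact Nat.lt_pow_succ_log_self (by omega) m
  have hdn2 : d ^ n₁ ≤ d * (m + 1) := by
    rw [hn₁, pow_succ, mul_comm]
    apply Nat.mul_le_mul_left
    rcases Nat.eq_zero_or_pos m with h0 | h0
    · rw [h0, Nat.log_zero_right, pow_zero]
      omega
    · exact (Nat.pow_log_le_self d h0.ne').trans (by omega)
  -- the map on projective space
  have hSmne : ∀ x : Fin (N + 1) → M, x ≠ 0 → act (Sm κ F) x ≠ 0 := fun x hx =>
    hB.act_ne_zero hx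
  have h0 : ∀ x : Fin (N + 1) → M, x ≠ 0 → act F x ≠ 0 := by
    intro x hx h
    apply hSmne x hx
    rw [act_Sm, h, smul_zero]
  -- late preimages
  have hlate : ((S.filter fun P => ∃ n : ℕ, n₁ ≤ n ∧ ∃ c : M, c ≠ 0 ∧
      (act F)^[n] P.rep = c • Q.rep).card : ℝ) ≤ B := by
    obtain ⟨S₁, hS₁⟩ : ∃ S₁ : Finset (ℙ M (Fin (N + 1) → M)), S₁ = S.filter fun P =>
      ∃ n : ℕ, n₁ ≤ n ∧ ∃ c : M, c ≠ 0 ∧ (act F)^[n] P.rep = c • Q.rep := ⟨_, rfl⟩
    rw [← hS₁]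
    have hinj : Function.Injective
        (Projectivization.rep : ℙ M (Fin (N + 1) → M) → (Fin (N + 1) → M)) := by
      intro P P' hPP
      exact eq_of_rep (c := 1) (by rw [one_smul, hPP])
    have h1 := hpoly' (S₁.image Projectivization.rep) ?_ ?_ ?_ ?_
    · rwa [Finset.card_image_of_injective S₁ hinj] at h1
    · intro x hx
      obtain ⟨P, -, rfl⟩ := Finset.mem_image.mp hx
      exact P.rep_nonzero
    · intro x hx y hy c hxy
      obtain ⟨P, -, rfl⟩ := Finset.mem_image.mp hx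
      obtain ⟨P', -, rfl⟩ := Finset.mem_image.mp hy
      rw [eq_of_rep hxy]
    · intro x hx
      obtain ⟨P, hP, rfl⟩ := Finset.mem_image.mp hx
      rw [hS₁, Finset.mem_filter] at hP
      exact hSD P hP.1
    · intro x hx
      obtain ⟨P, hP, rfl⟩ := Finset.mem_image.mp hx
      rw [hS₁, Finset.mem_filter] at hP
      obtain ⟨-, n, hn, c, hc, hcn⟩ := hP
      right
      refine ⟨canH (Sm κ F) d P.rep, lim_Sm' hκ0 hF hd hB P.rep_nonzero, ?_⟩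
      obtain ⟨c', hc', h'⟩ := iter_Sm' hκ0 hF P.rep n
      have h2 : (act (Sm κ F))^[n] P.rep = (c' * c) • Q.rep := by
        rw [h', hcn, smul_smul]
      have h3 := hB.canH_iter hd P.rep_nonzero n
      rw [h2, canH_smul (fun i => Sm_hom hF i) (mul_ne_zero hc' hc), ← hα] at h3
      have h4 : (m : ℝ) ≤ (d : ℝ) ^ n := by
        have h5 : m ≤ d ^ n := hdn1.le.trans (Nat.pow_le_pow_right (by omega) hn)
        exact_mod_cast h5
      have h5 : (0 : ℝ) < (d : ℝ) ^ n := by positivity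
      rw [le_div_iff₀ hB0]
      have h6 : (d : ℝ) ^ n * (canH (Sm κ F) d P.rep * B) ≤ (d : ℝ) ^ n * 1 := by
        calc (d : ℝ) ^ n * (canH (Sm κ F) d P.rep * B) = α * B := by
              rw [h3]
              ring
          _ ≤ m := hm1
          _ ≤ (d : ℝ) ^ n * 1 := by rwa [mul_one]
      exact le_of_mul_le_mul_left h6 h5
  -- early preimages
  have hearly : (S.filter fun P => ∃ n : ℕ, n < n₁ ∧ ∃ c : M, c ≠ 0 ∧
      (act F)^[n] P.rep = c • Q.rep).card ≤ (2 * μ) ^ n₁ := by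
    have hsub : (S.filter fun P => ∃ n : ℕ, n < n₁ ∧ ∃ c : M, c ≠ 0 ∧
        (act F)^[n] P.rep = c • Q.rep) ⊆
        (Finset.range n₁).biUnion fun n => S.filter fun P => (fb F h0)^[n] P = Q := by
      intro P hP
      rw [Finset.mem_filter] at hP
      obtain ⟨hPS, n, hn, c, hc, hcn⟩ := hP
      rw [Finset.mem_biUnion]
      refine ⟨n, Finset.mem_range.mpr hn, Finset.mem_filter.mpr ⟨hPS, ?_⟩⟩
      obtain ⟨c', hc', h'⟩ := iter_fb hF h0 n P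
      apply eq_of_rep (c := c'⁻¹ * c)
      rw [mul_smul, ← hcn, h', smul_smul, inv_mul_cancel₀ hc', one_smul]
    have hμ1 : 1 ≤ μ := by
      rw [hμ]
      have : 0 < n₀ := by omega
      exact Nat.mul_pos (by omega) (Nat.pow_pos this)
    have h1 := (Finset.card_le_card hsub).trans
      (Finset.card_biUnion_le_card_mul _ _ (μ ^ n₁) fun n hn => ?_)
    · rw [Finset.card_range] at h1
      refine h1.trans ?_
      rw [mul_pow]
      exact Nat.mul_le_mul_right _ Nat.lt_two_pow_self.le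
    · have h2 := preim_card hF (by omega) hn₀ hfullF h0 Q n
        (S.filter fun P => (fb F h0)^[n] P = Q) fun P hP => (Finset.mem_filter.mp hP).2
      rw [← hμ] at h2
      exact h2.trans (Nat.pow_le_pow_right hμ1 (Finset.mem_range.mp hn).le)
  have hall : S ⊆ (S.filter fun P => ∃ n : ℕ, n₁ ≤ n ∧ ∃ c : M, c ≠ 0 ∧
      (act F)^[n] P.rep = c • Q.rep) ∪ (S.filter fun P => ∃ n : ℕ, n < n₁ ∧ ∃ c : M, c ≠ 0 ∧
      (act F)^[n] P.rep = c • Q.rep) := by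
    intro P hP
    obtain ⟨n, h⟩ := hSQ P hP
    rw [Finset.mem_union, Finset.mem_filter, Finset.mem_filter]
    rcases Nat.lt_or_ge n n₁ with hn | hn
    · exact Or.inr ⟨hP, n, hn, h⟩
    · exact Or.inl ⟨hP, n, hn, h⟩
  have hcard : (S.card : ℝ) ≤ B + ((2 * μ : ℕ) : ℝ) ^ n₁ := by
    have h1 := (Finset.card_le_card hall).trans (Finset.card_union_le _ _)
    have h2 := (Nat.cast_le (α := ℝ)).mpr h1
    rw [Nat.cast_add] at h2
    have h3 : (((S.filter fun P => ∃ n : ℕ, n < n₁ ∧ ∃ c : M, c ≠ 0 ∧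
      (act F)^[n] P.rep = c • Q.rep).card : ℕ) : ℝ) ≤ ((2 * μ : ℕ) : ℝ) ^ n₁ := by
      exact_mod_cast hearly
    linarith
  have hpow : ((2 * μ : ℕ) : ℝ) ^ n₁ ≤ (d * (C₀ * G + 2)) ^ s * Y ^ ((k₀ + 1) * s) := by
    have h1 : 2 * μ ≤ d ^ s := by
      rw [hs]
      exact Nat.lt_two_pow_self.le.trans (Nat.pow_le_pow_left hd _)
    have h2 : (2 * μ) ^ n₁ ≤ (d * (m + 1)) ^ s := by
      calc (2 * μ) ^ n₁ ≤ (d ^ s) ^ n₁ := Nat.pow_le_pow_left h1 _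
        _ = (d ^ n₁) ^ s := by rw [← pow_mul, ← pow_mul, mul_comm]
        _ ≤ _ := Nat.pow_le_pow_left hdn2 _
    have h3 : ((2 * μ : ℕ) : ℝ) ^ n₁ ≤ ((d : ℝ) * (m + 1)) ^ s := by exact_mod_cast h2
    refine h3.trans ?_
    have hYk : 1 ≤ Y ^ (k₀ + 1) := one_le_pow₀ hY1
    have h4 : (m : ℝ) + 1 ≤ (C₀ * G + 2) * Y ^ (k₀ + 1) := by
      have h5 : α * B ≤ (G * Y) * (C₀ * Y ^ k₀) :=
        mul_le_mul hαY hBY hB0.le (by positivity)
      have h6 : (G * Y) * (C₀ * Y ^ k₀) = C₀ * G * Y ^ (k₀ + 1) := by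
        rw [pow_succ]
        ring
      nlinarith
    calc ((d : ℝ) * (m + 1)) ^ s ≤ (d * ((C₀ * G + 2) * Y ^ (k₀ + 1))) ^ s := by gcongr
      _ = (d * (C₀ * G + 2)) ^ s * Y ^ ((k₀ + 1) * s) := by
        rw [← mul_assoc, mul_pow, ← pow_mul]
  have hYa : 0 ≤ Y ^ k₀ := by positivity
  have hYb : 1 ≤ Y ^ ((k₀ + 1) * s) := one_le_pow₀ hY1
  have hYc : 1 ≤ Y ^ k₀ := one_le_pow₀ hY1
  have hE0 : 0 ≤ (d * (C₀ * G + 2)) ^ s := by positivity
  calc (S.card : ℝ) ≤ C₀ * Y ^ k₀ + (d * (C₀ * G + 2)) ^ s * Y ^ ((k₀ + 1) * s) := by linarith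
    _ ≤ C₀ * (Y ^ k₀ * Y ^ ((k₀ + 1) * s)) +
        (d * (C₀ * G + 2)) ^ s * (Y ^ k₀ * Y ^ ((k₀ + 1) * s)) := by
      apply add_le_add
      · apply mul_le_mul_of_nonneg_left _ hC₀.le
        exact le_mul_of_one_le_right hYa hYb
      · apply mul_le_mul_of_nonneg_left _ hE0
        exact le_mul_of_one_le_left (by linarith) hYc
    _ = C * Y ^ (k₀ + (k₀ + 1) * s) := by
      rw [hCd, pow_add]
      ring

end

end Pool.Agent.H627.UB
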