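import Mathlib
import Pool.Agent.H627.UB.Pi

/-!
A lower bound for the canonical height of wandering points, uniform in the morphism.
-/

set_option autoImplicit false
set_option linter.unusedSectionVars false

namespace Pool.Agent.H627.UB

open NumberField Module MvPolynomial Filter Topology
open scoped LinearAlgebra.Projectivization
open Pool.Agent.W238.Leh
open Pool.Agent.H627.LP hiding det_ineq det_ineq' local_gain
open Pool.Agent.H627.LU

noncomputable section

section deg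

variable {K M : Type} [Field K] [NumberField K] [Field M] [NumberField M] [Algebra K M] {N : ℕ}

lemma exists_image : ∃ E : IntermediateField ℚ M, finrank ℚ E = finrank ℚ K ∧
    ∀ x : K, algebraMap K M x ∈ E := by
  let φ : K →ₐ[ℚ] M := (algebraMap K M).toRatAlgHom
  refine ⟨φ.fieldRange, ?_, fun x => ⟨x, rfl⟩⟩
  have e : K ≃ₗ[ℚ] φ.fieldRange := (AlgEquiv.ofInjectiveField φ).toLinearEquiv
  exact e.finrank_eq.symm

lemma act_mem {F : Fin (N + 1) → MvPolynomial (Fin (N + 1)) K} {E : IntermediateField ℚ M}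
    (hE : ∀ x : K, algebraMap K M x ∈ E) {z : Fin (N + 1) → M} (hz : ∀ i, z i ∈ E)
    (i : Fin (N + 1)) : act F z i ∈ E := by
  show aeval z (F i) ∈ E
  rw [aeval_def, eval₂_eq]
  exact sum_mem fun s _ => mul_mem (hE _) (prod_mem fun j _ => pow_mem (hz j) _)

lemma DegLE.iter {F : Fin (N + 1) → MvPolynomial (Fin (N + 1)) K} {d D : ℕ}
    (hF : ∀ i, (F i).IsHomogeneous d) (hKD : finrank ℚ K ≤ D) {x : Fin (N + 1) → M}
    (hx : DegLE D x) (n : ℕ) : DegLE (D * D) ((act F)^[n] x) := by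
  obtain ⟨E, hE, c, hc, hcx⟩ := hx
  obtain ⟨E', hE', hK⟩ := exists_image (K := K) (M := M)
  have h1 : ∀ n : ℕ, ∀ i, (act F)^[n] (c • x) i ∈ E ⊔ E' := by
    intro n
    induction n with
    | zero =>
      intro i
      exact (le_sup_left : E ≤ E ⊔ E') (hcx i)
    | succ n ih =>
      intro i
      rw [Function.iterate_succ_apply']
      exact act_mem (fun y => (le_sup_right : E' ≤ E ⊔ E') (hK y)) ih i
  obtain ⟨b, hb, h⟩ := Pool.Agent.W238.Leh.iter_smul hF hc x n
  refine ⟨E ⊔ E', ?_, b, hb, fun i => ?_⟩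
  · refine (IntermediateField.finrank_sup_le E E').trans ?_
    rw [hE']
    exact Nat.mul_le_mul hE hKD
  · have h2 := h1 n i
    rw [h] at h2
    simpa using h2

end deg

/-- **lower bound for wandering points of bounded degree** -/
theorem wander (N d D : ℕ) (hN : 1 ≤ N) (hd : 2 ≤ d) (hD1 : 1 ≤ D) :
    ∃ (C : ℝ) (k : ℕ), 0 < C ∧ ∀ (K : Type) [Field K] [NumberField K], finrank ℚ K ≤ D →
      ∀ F : Fin (N + 1) → MvPolynomial (Fin (N + 1)) K, (∀ i, (F i).IsHomogeneous d) →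
      (∀ z : Fin (N + 1) → AlgebraicClosure K, (∀ i, aeval z (F i) = 0) → z = 0) →
      ∀ (M : Type) [Field M] [NumberField M] [Algebra K M] (x : Fin (N + 1) → M), x ≠ 0 →
      DegLE D x →
      (¬ ∃ m n : ℕ, m < n ∧ ∃ c : M, c ≠ 0 ∧ (act F)^[n] x = c • (act F)^[m] x) →
      ∃ h : ℝ, Tendsto (fun n : ℕ => Height.logHeight ((act F)^[n] x) /
          ((finrank ℚ M : ℝ) * (d : ℝ) ^ n)) atTop (𝓝 h) ∧
        Real.exp (-(C * (1 + Height.logHeight (cof d F)) ^ k)) ≤ h := by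
  obtain ⟨C₀, k₀, hC₀, hpoly⟩ := polyS N d (D * D) hN hd (Nat.mul_pos hD1 hD1)
  obtain ⟨n₀, hn₀, hnull⟩ := uniform_null N d
  have hd0 : (0 : ℝ) < d := by
    have : 0 < d := by omega
    exact_mod_cast this
  have hld : 0 ≤ Real.log d := Real.log_nonneg (by
    have : 1 ≤ d := by omega
    exact_mod_cast this)
  refine ⟨C₀ + (C₀ + 1) * Real.log d, k₀, by positivity, ?_⟩
  intro K _ _ hKD F hF hmor M _ _ _ x hx0 hxD hw
  classical
  obtain ⟨κ, A, a, hκ0, hB, -, -, -⟩ := exists_bds' (by omega) hn₀ hKD (hnull K) hF hmor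
  have hKDD : finrank ℚ K ≤ D * D := hKD.trans (Nat.le_mul_of_pos_left D hD1)
  have hpoly' := hpoly K hKDD F hF hmor M
  obtain ⟨Λ, hΛ⟩ : ∃ Λ : ℝ, Λ = Height.logHeight (cof d F) := ⟨_, rfl⟩
  have hΛ0 : 0 ≤ Λ := by
    rw [hΛ]
    exact Height.logHeight_nonneg _
  rw [← hΛ] at hpoly' ⊢
  obtain ⟨Y, hY⟩ : ∃ Y : ℝ, Y = (1 + Λ) ^ k₀ := ⟨_, rfl⟩
  have hY1 : 1 ≤ Y := by
    rw [hY]
    exact one_le_pow₀ (by linarith)
  rw [← hY] at hpoly' ⊢
  obtain ⟨B, hBd⟩ : ∃ B : ℝ, B = C₀ * Y := ⟨_, rfl⟩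
  rw [← hBd] at hpoly'
  have hB0 : 0 < B := by
    rw [hBd]
    positivity
  obtain ⟨α, hα⟩ : ∃ α : ℝ, α = canH (Sm κ F) d x := ⟨_, rfl⟩
  refine ⟨α, by rw [hα]; exact lim_Sm' hκ0 hF hd hB hx0, ?_⟩
  by_contra hcon
  push Not at hcon
  obtain ⟨n, hn⟩ : ∃ n : ℕ, n = ⌊B⌋₊ := ⟨_, rfl⟩
  have hnB : (n : ℝ) ≤ B := by
    rw [hn]
    exact Nat.floor_le hB0.le
  have hBn : B < n + 1 := by
    rw [hn]
    exact Nat.lt_floor_add_one B
  have hSmne : ∀ y : Fin (N + 1) → M, y ≠ 0 → act F y ≠ 0 := by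
    intro y hy h
    apply hB.act_ne_zero hy
    rw [act_Sm, h, smul_zero]
  have hit : ∀ i : ℕ, (act F)^[i] x ≠ 0 := by
    intro i
    induction i with
    | zero => exact hx0
    | succ i ih =>
      rw [Function.iterate_succ_apply']
      exact hSmne _ ih
  have hprop : ∀ i j : ℕ, ∀ c : M, (act F)^[i] x = c • (act F)^[j] x → i = j := by
    intro i j c h
    have hc : c ≠ 0 := by
      rintro rfl
      rw [zero_smul] at h
      exact hit i h
    by_contra hij
    rcases Nat.lt_or_gt_of_ne hij with hlt | hlt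
    · refine hw ⟨i, j, hlt, c⁻¹, inv_ne_zero hc, ?_⟩
      rw [h, smul_smul, inv_mul_cancel₀ hc, one_smul]
    · exact hw ⟨j, i, hlt, c, hc, h⟩
  have hinj : Function.Injective fun i : ℕ => (act F)^[i] x := fun i j h =>
    hprop i j 1 (by rw [one_smul]; exact h)
  have hcard := hpoly' ((Finset.range (n + 1)).image fun i => (act F)^[i] x) ?_ ?_ ?_ ?_
  · rw [Finset.card_image_of_injective _ hinj, Finset.card_range] at hcard
    push_cast at hcard
    linarith
  · intro y hy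
    obtain ⟨i, -, rfl⟩ := Finset.mem_image.mp hy
    exact hit i
  · intro y hy z hz c hyz
    obtain ⟨i, -, rfl⟩ := Finset.mem_image.mp hy
    obtain ⟨j, -, rfl⟩ := Finset.mem_image.mp hz
    rw [hprop i j c hyz]
  · intro y hy
    obtain ⟨i, -, rfl⟩ := Finset.mem_image.mp hy
    exact hxD.iter hF hKD i
  · intro y hy
    obtain ⟨i, hi, rfl⟩ := Finset.mem_image.mp hy
    right
    refine ⟨canH (Sm κ F) d ((act F)^[i] x), lim_Sm' hκ0 hF hd hB (hit i), ?_⟩
    obtain ⟨c', hc', h'⟩ := iter_Sm' hκ0 hF x i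
    have h3 := hB.canH_iter hd hx0 i
    rw [h', canH_smul (fun i => Sm_hom hF i) hc', ← hα] at h3
    rw [h3]
    have hi' : i ≤ n := Nat.lt_succ_iff.mp (Finset.mem_range.mp hi)
    have h4 : (d : ℝ) ^ i ≤ (d : ℝ) ^ n := by
      apply pow_le_pow_right₀ _ hi'
      have : 1 ≤ d := by omega
      exact_mod_cast this
    have hα0 : 0 ≤ α := by
      rw [hα]
      exact hB.canH_nonneg hd hx0
    have h5 : (d : ℝ) ^ n ≤ Real.exp (B * Real.log d) := by
      rw [← Real.exp_log hd0, ← Real.exp_nat_mul, Real.exp_log hd0, Real.exp_le_exp]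
      exact mul_le_mul_of_nonneg_right hnB hld
    rw [le_div_iff₀ hB0]
    have h6 : B ≤ Real.exp B := by
      have := Real.add_one_le_exp B
      linarith
    calc (d : ℝ) ^ i * α * B ≤ Real.exp (B * Real.log d) *
          Real.exp (-((C₀ + (C₀ + 1) * Real.log d) * Y)) * Real.exp B := by
          gcongr
          · exact h4.trans h5
      _ = Real.exp (B * Real.log d + -((C₀ + (C₀ + 1) * Real.log d) * Y) + B) := by
          rw [Real.exp_add, Real.exp_add]
      _ ≤ 1 := by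
          rw [Real.exp_le_one_iff, hBd]
          nlinarith [mul_nonneg hld (by linarith : (0 : ℝ) ≤ Y)]

end

end Pool.Agent.H627.UB
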